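import Pool.Agent.W166.Gnp.Basic

set_option autoImplicit false
set_option linter.unusedSectionVars false

/-! Tail bounds for the number of block events that occur. -/

namespace Pool.Agent.W166.Gnp

open Finset

variable {α : Type} [DecidableEq α]

open Classical in
/-- the number of block events that occur -/
noncomputable def cnt {ι : Type} (T : Finset ι) (R : ι → Finset α)
    (D : ι → Finset α → Prop) (S : Finset α) : ℕ := (T.filter (fun v => D v (S ∩ R v))).card

theorem prod_ite_cnt {ι : Type} (T : Finset ι) (R : ι → Finset α)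
    (D : ι → Finset α → Prop) (S : Finset α) (x : ℝ) :
    open Classical in (∏ v ∈ T, if D v (S ∩ R v) then x else 1) = x ^ cnt T R D S := by
  classical
  rw [Finset.prod_ite]
  simp [cnt]

theorem Ex_pow_cnt {ι : Type} [DecidableEq ι] {E : Finset α} (p : ℝ) (T : Finset ι)
    (R : ι → Finset α) (hR : ∀ v ∈ T, R v ⊆ E) (hd : (T : Set ι).PairwiseDisjoint R)
    (D : ι → Finset α → Prop) (x : ℝ) :
    Ex E p (fun S => x ^ cnt T R D S) = ∏ v ∈ T, (1 + (x - 1) * Pr (R v) p (D v)) := by
  classical
  have h := Ex_prod p T R hR hd (fun v S => if D v S then x else 1)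
  calc Ex E p (fun S => x ^ cnt T R D S)
      = Ex E p (fun S => ∏ v ∈ T, (if D v (S ∩ R v) then x else 1)) := by
        apply Ex_congr
        intro S _
        exact (prod_ite_cnt T R D S x).symm
    _ = ∏ v ∈ T, Ex (R v) p (fun S => if D v S then x else 1) := h
    _ = ∏ v ∈ T, (1 + (x - 1) * Pr (R v) p (D v)) := by
        apply prod_congr rfl
        intro v _
        have h2 : Ex (R v) p (fun S => if D v S then x else 1) =
            Ex (R v) p (fun S => 1 + (x - 1) * (if D v S then 1 else 0)) := by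
          apply Ex_congr
          intro S _
          by_cases h : D v S
          · simp [h]
          · simp [h]
        rw [h2, Ex_add, Ex_smul, Ex_const]
        rfl

/-- lower tail -/
theorem lower_tail {ι : Type} [DecidableEq ι] {E : Finset α} {p : ℝ} (h0 : 0 ≤ p) (h1 : p ≤ 1)
    (T : Finset ι) (R : ι → Finset α) (hR : ∀ v ∈ T, R v ⊆ E)
    (hd : (T : Set ι).PairwiseDisjoint R) (D : ι → Finset α → Prop) (g : ℝ)
    (hg : ∀ v ∈ T, g ≤ Pr (R v) p (D v)) (b : ℕ) :
    Pr E p (fun S => cnt T R D S < b) ≤ 2 ^ b * Real.exp (-(g * T.card / 2)) := by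
  calc Pr E p (fun S => cnt T R D S < b)
      ≤ Ex E p (fun S => 2 ^ b * (1 / 2 : ℝ) ^ cnt T R D S) := by
        apply Pr_le_Ex h0 h1
        · intro S _; positivity
        · intro S _ hS
          have h3 : (1 / 2 : ℝ) ^ b ≤ (1 / 2 : ℝ) ^ cnt T R D S :=
            pow_le_pow_of_le_one (by norm_num) (by norm_num) hS.le
          calc (1 : ℝ) = 2 ^ b * (1 / 2 : ℝ) ^ b := by rw [← mul_pow]; norm_num
            _ ≤ _ := mul_le_mul_of_nonneg_left h3 (by positivity)
    _ = 2 ^ b * ∏ v ∈ T, (1 + (1 / 2 - 1) * Pr (R v) p (D v)) := by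
        rw [Ex_smul, Ex_pow_cnt p T R hR hd]
    _ ≤ 2 ^ b * ∏ _v ∈ T, Real.exp (-(g / 2)) := by
        apply mul_le_mul_of_nonneg_left _ (by positivity)
        apply prod_le_prod
        · intro v _
          have := Pr_le_one (E := R v) h0 h1 (D v)
          linarith
        · intro v hv
          have h4 := hg v hv
          have h5 := Real.add_one_le_exp (-(g / 2))
          linarith
    _ = 2 ^ b * Real.exp (-(g * T.card / 2)) := by
        rw [prod_const, ← Real.exp_nat_mul]
        congr 2
        ring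

/-- upper tail -/
theorem upper_tail {ι : Type} [DecidableEq ι] {E : Finset α} {p : ℝ} (h0 : 0 ≤ p) (h1 : p ≤ 1)
    (T : Finset ι) (R : ι → Finset α) (hR : ∀ v ∈ T, R v ⊆ E)
    (hd : (T : Set ι).PairwiseDisjoint R) (D : ι → Finset α → Prop) (g : ℝ)
    (hg : ∀ v ∈ T, Pr (R v) p (D v) ≤ g) (k : ℕ) :
    Pr E p (fun S => k ≤ cnt T R D S) ≤ (1 / 4) ^ k * Real.exp (3 * g * T.card) := by
  calc Pr E p (fun S => k ≤ cnt T R D S)
      ≤ Ex E p (fun S => (1 / 4) ^ k * (4 : ℝ) ^ cnt T R D S) := by
        apply Pr_le_Ex h0 h1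
        · intro S _; positivity
        · intro S _ hS
          have h3 : (4 : ℝ) ^ k ≤ (4 : ℝ) ^ cnt T R D S :=
            pow_le_pow_right₀ (by norm_num) hS
          calc (1 : ℝ) = (1 / 4) ^ k * (4 : ℝ) ^ k := by rw [← mul_pow]; norm_num
            _ ≤ _ := mul_le_mul_of_nonneg_left h3 (by positivity)
    _ = (1 / 4) ^ k * ∏ v ∈ T, (1 + (4 - 1) * Pr (R v) p (D v)) := by
        rw [Ex_smul, Ex_pow_cnt p T R hR hd]
    _ ≤ (1 / 4) ^ k * ∏ _v ∈ T, Real.exp (3 * g) := by
        apply mul_le_mul_of_nonneg_left _ (by positivity)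
        apply prod_le_prod
        · intro v _
          have := Pr_nonneg (E := R v) h0 h1 (D v)
          linarith
        · intro v hv
          have h4 := hg v hv
          have h5 := Real.add_one_le_exp (3 * g)
          linarith
    _ = (1 / 4) ^ k * Real.exp (3 * g * T.card) := by
        rw [prod_const, ← Real.exp_nat_mul]
        congr 2
        ring

/-- lower tail for the number of elements of a given subset -/
theorem card_lower {E Z : Finset α} (hZ : Z ⊆ E) {p : ℝ} (h0 : 0 ≤ p) (h1 : p ≤ 1) {ε : ℝ}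
    (he : 0 ≤ ε) (he1 : ε ≤ 1) :
    Pr E p (fun S => ((S ∩ Z).card : ℝ) ≤ (1 - ε) * (p * Z.card)) ≤
      Real.exp (-(ε ^ 2 / 2 * (p * Z.card))) := by
  have hx : Ex E p (fun S => Real.exp (-ε) ^ (S ∩ Z).card) = (p * Real.exp (-ε) + (1 - p)) ^ Z.card := by
    rw [Ex_marg (E1 := Z) hZ]
    · unfold Ex
      rw [← Finset.sum_pow_mul_eq_add_pow]
      apply sum_congr rfl
      intro S hS
      rw [mem_powerset] at hS
      beta_reduce
      rw [inter_eq_left.mpr hS, mul_pow]
      ring
    · intro S _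
      rw [inter_assoc, inter_self]
  have hp : 0 ≤ p * (Z.card : ℝ) := mul_nonneg h0 (Nat.cast_nonneg _)
  calc Pr E p (fun S => ((S ∩ Z).card : ℝ) ≤ (1 - ε) * (p * Z.card))
      ≤ Ex E p (fun S => Real.exp (ε * ((1 - ε) * (p * Z.card))) * Real.exp (-ε) ^ (S ∩ Z).card) := by
        apply Pr_le_Ex h0 h1
        · intro S _; positivity
        · intro S _ hS
          rw [← Real.exp_nat_mul, ← Real.exp_add]
          apply Real.one_le_exp
          nlinarith
    _ = Real.exp (ε * ((1 - ε) * (p * Z.card))) * (p * Real.exp (-ε) + (1 - p)) ^ Z.card := by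
        rw [Ex_smul, hx]
    _ ≤ Real.exp (ε * ((1 - ε) * (p * Z.card))) * Real.exp (-(p * (ε - ε ^ 2 / 2))) ^ Z.card := by
        apply mul_le_mul_of_nonneg_left _ (Real.exp_pos _).le
        apply pow_le_pow_left₀
        · have := Real.exp_pos (-ε)
          have := mul_nonneg h0 this.le
          linarith
        · have h2 : Real.exp (-ε) ≤ 1 - ε + ε ^ 2 / 2 := by
            have h3 := Real.quadratic_le_exp_of_nonneg he
            have h4 : Real.exp (-ε) * Real.exp ε = 1 := by rw [← Real.exp_add]; simp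
            have h5 : 0 < Real.exp ε := Real.exp_pos _
            have h6 : 0 < 1 - ε + ε ^ 2 / 2 := by nlinarith
            have h7 : 1 ≤ (1 - ε + ε ^ 2 / 2) * Real.exp ε := by
              calc (1 : ℝ) ≤ (1 - ε + ε ^ 2 / 2) * (1 + ε + ε ^ 2 / 2) := by nlinarith [sq_nonneg (ε ^ 2)]
                _ ≤ _ := mul_le_mul_of_nonneg_left h3 h6.le
            nlinarith
          have h8 := Real.add_one_le_exp (-(p * (ε - ε ^ 2 / 2)))
          nlinarith
    _ = Real.exp (-(ε ^ 2 / 2 * (p * Z.card))) := by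
        rw [← Real.exp_nat_mul, ← Real.exp_add]
        congr 1
        ring

end Pool.Agent.W166.Gnp
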