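import Pool.Agent.W166.Gnp.Transfer
import Pool.Agent.W166.Gnp.Tail

set_option autoImplicit false

/-! Lower bounds for the chromatic threshold from constructions. -/

namespace Pool.Agent.W166.Gnp

open Finset Classical Filter Topology

theorem sum_ncard {n : ℕ} (G : SimpleGraph (Fin n)) :
    ∑ v, (G.neighborSet v).ncard = 2 * G.edgeSet.ncard := by
  have h := G.sum_degrees_eq_twice_card_edges
  rw [← ed_card]
  have h2 : G.edgeFinset = ed G := by
    ext e; simp [ed]
  rw [← h2, ← h]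
  apply sum_congr rfl
  intro v _
  rw [Set.ncard_eq_toFinset_card', ← SimpleGraph.card_neighborFinset_eq_degree]
  rfl

/-- with high probability no subgraph has minimum degree at least `4 p n` -/
theorem no_large_deg {n : ℕ} (hn : 0 < n) {p : ℝ} (h0 : 0 < p) (h1 : p ≤ 1) :
    Pr (allE n) p (fun S => ∃ G : SimpleGraph (Fin n),
      G ≤ SimpleGraph.fromEdgeSet (S : Set (Sym2 (Fin n))) ∧
      ∀ v, 4 * p * n ≤ ((G.neighborSet v).ncard : ℝ)) ≤ Real.exp (-(p * n ^ 2 / 2)) := by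
  obtain ⟨k, hk⟩ : ∃ k : ℕ, k = ⌈2 * (p * n ^ 2)⌉₊ := ⟨_, rfl⟩
  have hnr : (0 : ℝ) < n := by exact_mod_cast hn
  have h2 : Pr (allE n) p (fun S => ∃ G : SimpleGraph (Fin n),
      G ≤ SimpleGraph.fromEdgeSet (S : Set (Sym2 (Fin n))) ∧
      ∀ v, 4 * p * n ≤ ((G.neighborSet v).ncard : ℝ)) ≤
      Pr (allE n) p (fun S => k ≤ cnt (allE n) (fun e => {e}) (fun e S => e ∈ S) S) := by
    apply Pr_mono h0.le h1
    rintro S hS ⟨G, hG, hdeg⟩
    have hc : cnt (allE n) (fun e => {e}) (fun e S => e ∈ S) S = S.card := by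
      unfold cnt
      congr 1
      ext e
      simp only [mem_filter, mem_inter, mem_singleton, and_true]
      exact ⟨fun h => h.2, fun h => ⟨hS h, h⟩⟩
    rw [hc, hk]
    apply Nat.ceil_le.mpr
    have h3 : (∑ v : Fin n, 4 * p * n) ≤ ∑ v, ((G.neighborSet v).ncard : ℝ) :=
      sum_le_sum (fun v _ => hdeg v)
    rw [sum_const, card_univ, Fintype.card_fin, nsmul_eq_mul] at h3
    have h4 : (∑ v, ((G.neighborSet v).ncard : ℝ)) = 2 * (G.edgeSet.ncard : ℝ) := by
      exact_mod_cast sum_ncard G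
    have h5 : G.edgeSet.ncard ≤ S.card := by
      rw [← ed_card]
      apply card_le_card
      intro e he
      have : e ∈ G.edgeSet := by simpa [ed] using he
      have h6 := (SimpleGraph.edgeSet_subset_edgeSet.mpr hG) this
      rw [SimpleGraph.edgeSet_fromEdgeSet] at h6
      exact h6.1
    have h6 : (G.edgeSet.ncard : ℝ) ≤ S.card := by exact_mod_cast h5
    rw [h4] at h3
    nlinarith
  refine h2.trans ((upper_tail (E := allE n) h0.le h1 (allE n) (fun e => {e})
    (fun e he => by simpa using he) (by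
      intro a _ b _ hab
      simp only [Function.onFun, disjoint_singleton]
      exact hab) (fun e S => e ∈ S) p (by
      intro e _
      have := Pr_superset (E := {e}) (D := {e}) subset_rfl p
      simp only [singleton_subset_iff, card_singleton, pow_one] at this
      exact this.le) k).trans ?_)
  have h3 : (1 / 4 : ℝ) ^ k ≤ Real.exp (-(2 * (p * n ^ 2))) := by
    have h4 : (1 / 4 : ℝ) ≤ Real.exp (-1) := by
      rw [Real.exp_neg, ← one_div]
      apply one_div_le_one_div_of_le (Real.exp_pos _)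
      have := Real.exp_one_lt_d9
      linarith
    calc (1 / 4 : ℝ) ^ k ≤ (Real.exp (-1)) ^ k := pow_le_pow_left₀ (by norm_num) h4 _
      _ = Real.exp (-(k : ℝ)) := by
          rw [← Real.exp_nat_mul]; ring_nf
      _ ≤ Real.exp (-(2 * (p * n ^ 2))) := by
          rw [Real.exp_le_exp, neg_le_neg_iff, hk]
          exact Nat.le_ceil _
  have h5 : ((allE n).card : ℝ) ≤ n ^ 2 / 2 := by
    rw [allE_card, Nat.cast_choose_two]
    nlinarith
  calc (1 / 4 : ℝ) ^ k * Real.exp (3 * p * (allE n).card)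
      ≤ Real.exp (-(2 * (p * n ^ 2))) * Real.exp (3 * p * (n ^ 2 / 2)) := by gcongr
    _ = Real.exp (-(p * n ^ 2 / 2)) := by
        rw [← Real.exp_add]; ring_nf

theorem thr_lower {k : ℕ} (H : SimpleGraph (Fin k)) (p : ℕ → ℝ) (hp : ∀ n, 0 < p n ∧ p n ≤ 1)
    (P : (n : ℕ) → (SimpleGraph (Fin n) → Prop) → ℝ)
    (hP : ∀ n A, P n A =
      Pr (allE n) (p n) (fun S => A (SimpleGraph.fromEdgeSet (S : Set (Sym2 (Fin n))))))
    (d0 : ℝ)
    (hlow : ∀ (C : ℕ) (ε : ℝ), 0 < ε → ∀ᶠ n : ℕ in atTop, Pr (allE n) (p n)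
      (fun S => ¬ ∃ G : SimpleGraph (Fin n),
        G ≤ SimpleGraph.fromEdgeSet (S : Set (Sym2 (Fin n))) ∧ ¬ H.IsContained G ∧
        (∀ v, (d0 - ε) * (p n * n) ≤ ((G.neighborSet v).ncard : ℝ)) ∧ ¬ G.Colorable C) ≤ 1 / 4)
    (hpn : Tendsto (fun n : ℕ => p n * (n : ℝ) ^ 2) atTop atTop) :
    d0 ≤ sInf {d : ℝ | 0 < d ∧ ∃ C : ℕ, 0 < C ∧
      Tendsto (fun n : ℕ => P n (fun Γ => ∀ G : SimpleGraph (Fin n), G ≤ Γ → ¬ H.IsContained G →
                (∀ v, d * p n * n ≤ ((G.neighborSet v).ncard : ℝ)) → G.Colorable C))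
        atTop (𝓝 1)} := by
  apply le_csInf
  · refine ⟨4, by norm_num, 1, by norm_num, ?_⟩
    have h1 : ∀ᶠ n : ℕ in atTop, 1 - Real.exp (-(p n * (n : ℝ) ^ 2 / 2)) ≤
        P n (fun Γ => ∀ G : SimpleGraph (Fin n), G ≤ Γ → ¬ H.IsContained G →
                (∀ v, 4 * p n * n ≤ ((G.neighborSet v).ncard : ℝ)) → G.Colorable 1) := by
      filter_upwards [eventually_gt_atTop 0] with n hn
      rw [hP]
      have h2 := no_large_deg hn (hp n).1 (hp n).2
      have h3 := Pr_not (E := allE n) (p := p n) (fun S => ∃ G : SimpleGraph (Fin n),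
        G ≤ SimpleGraph.fromEdgeSet (S : Set (Sym2 (Fin n))) ∧
        ∀ v, 4 * p n * n ≤ ((G.neighborSet v).ncard : ℝ))
      have h4 : Pr (allE n) (p n) (fun S => ¬ ∃ G : SimpleGraph (Fin n),
        G ≤ SimpleGraph.fromEdgeSet (S : Set (Sym2 (Fin n))) ∧
        ∀ v, 4 * p n * n ≤ ((G.neighborSet v).ncard : ℝ)) ≤
        Pr (allE n) (p n) (fun S => ∀ G : SimpleGraph (Fin n),
          G ≤ SimpleGraph.fromEdgeSet (S : Set (Sym2 (Fin n))) →
          ¬ H.IsContained G → (∀ v, 4 * p n * n ≤ ((G.neighborSet v).ncard : ℝ)) →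
          G.Colorable 1) := by
        apply Pr_mono (hp n).1.le (hp n).2
        intro S _ h G hG _ hdeg
        exact absurd ⟨G, hG, hdeg⟩ h
      linarith
    have h2 : ∀ᶠ n : ℕ in atTop,
        P n (fun Γ => ∀ G : SimpleGraph (Fin n), G ≤ Γ → ¬ H.IsContained G →
                (∀ v, 4 * p n * n ≤ ((G.neighborSet v).ncard : ℝ)) → G.Colorable 1) ≤ 1 := by
      filter_upwards with n
      rw [hP]
      exact Pr_le_one (hp n).1.le (hp n).2 _
    have h3 : Tendsto (fun n : ℕ => 1 - Real.exp (-(p n * (n : ℝ) ^ 2 / 2))) atTop (𝓝 1) := by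
      have h4 : Tendsto (fun n : ℕ => Real.exp (-(p n * (n : ℝ) ^ 2 / 2))) atTop (𝓝 0) := by
        apply Real.tendsto_exp_neg_atTop_nhds_zero.comp
        exact hpn.atTop_div_const (by norm_num)
      have h5 := (tendsto_const_nhds (x := (1 : ℝ))).sub h4
      simpa using h5
    exact tendsto_of_tendsto_of_tendsto_of_le_of_le' h3 tendsto_const_nhds h1 h2
  · rintro d ⟨_, C, _, hlim⟩
    by_contra hd
    rw [not_le] at hd
    have h1 := hlow C (d0 - d) (by linarith)
    have h2 : ∀ᶠ n : ℕ in atTop,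
        P n (fun Γ => ∀ G : SimpleGraph (Fin n), G ≤ Γ → ¬ H.IsContained G →
                (∀ v, d * p n * n ≤ ((G.neighborSet v).ncard : ℝ)) → G.Colorable C) ≤ 1 / 4 := by
      filter_upwards [h1] with n h1
      rw [hP]
      refine le_trans ?_ h1
      apply Pr_mono (hp n).1.le (hp n).2
      rintro S _ hA ⟨G, hG1, hG2, hG3, hG4⟩
      apply hG4
      refine hA G hG1 hG2 (fun v => le_trans (le_of_eq ?_) (hG3 v))
      ring
    have := le_of_tendsto hlim h2
    norm_num at this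

end Pool.Agent.W166.Gnp
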