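import Pool.Agent.W166.Gnp.ProbA

set_option autoImplicit false

/-! Dense `H`-free subgraphs of large chromatic number of sparse random graphs, `χ(H) ≥ 4`. -/

namespace Pool.Agent.W166.Gnp

open Finset Classical

theorem card_Zs (n q : ℕ) (W : Finset (Fin n)) (v : Fin n) (j : ℕ) :
    n ≤ W.card + (n / q + 1) + 1 +
      (Zs W (fun y => if y ∈ W then 0 else y.val % q) v j).card := by
  have h : (univ : Finset (Fin n)) ⊆ W ∪ (univ.filter (fun y : Fin n => y.val % q = j)) ∪ {v} ∪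
      Zs W (fun y => if y ∈ W then 0 else y.val % q) v j := by
    intro y _
    simp only [mem_union, mem_filter, mem_univ, true_and, mem_singleton, Zs]
    by_cases h1 : y ∈ W
    · exact Or.inl (Or.inl (Or.inl h1))
    · by_cases h2 : y.val % q = j
      · exact Or.inl (Or.inl (Or.inr h2))
      · by_cases h3 : y = v
        · exact Or.inl (Or.inr h3)
        · right
          exact ⟨h1, by rw [if_neg h1]; exact h2, h3⟩
  have h2 := card_le_card h
  rw [card_univ, Fintype.card_fin] at h2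
  have h3 := card_union_le (W ∪ (univ.filter (fun y : Fin n => y.val % q = j)) ∪ {v})
    (Zs W (fun y => if y ∈ W then 0 else y.val % q) v j)
  have h4 := card_union_le (W ∪ (univ.filter (fun y : Fin n => y.val % q = j))) {v}
  have h5 := card_union_le W (univ.filter (fun y : Fin n => y.val % q = j))
  have h6 := card_mod_le n q j
  rw [card_singleton] at h4
  omega

theorem mainA {k q : ℕ} (hq : 3 ≤ q) (H : SimpleGraph (Fin k)) (hH : ¬ H.Colorable q) (C : ℕ)
    (ε : ℝ) (hε : 0 < ε) (η : ℝ) (hη : 0 < η) :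
    ∃ (p0 A : ℝ) (n0 : ℕ), 0 < p0 ∧ 0 < A ∧ ∀ n : ℕ, n0 ≤ n → ∀ p : ℝ, 0 < p → p ≤ p0 →
      A * Real.log n ≤ p * n →
      Pr (allE n) p (fun S => ¬ ∃ G : SimpleGraph (Fin n),
        G ≤ SimpleGraph.fromEdgeSet (S : Set (Sym2 (Fin n))) ∧ ¬ H.IsContained G ∧
        (∀ v, (1 - 1 / (q : ℝ) - ε) * (p * n) ≤ ((G.neighborSet v).ncard : ℝ)) ∧
        ¬ G.Colorable C) ≤ η := by
  obtain ⟨ε1, hε1⟩ : ∃ ε1 : ℝ, ε1 = min ε 1 / 6 := ⟨_, rfl⟩
  have hε1pos : 0 < ε1 := by
    rw [hε1]; have : 0 < min ε 1 := lt_min hε one_pos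
    positivity
  have hε1ε : 3 * ε1 ≤ ε := by
    rw [hε1]; have := min_le_left ε 1; linarith
  have hε16 : ε1 ≤ 1 / 6 := by
    rw [hε1]; have := min_le_right ε 1; linarith
  obtain ⟨C', hC'⟩ : ∃ C' : ℕ, C' = max C 1 := ⟨_, rfl⟩
  have hC'1 : 1 ≤ C' := by rw [hC']; exact le_max_right _ _
  have hCC' : C ≤ C' := by rw [hC']; exact le_max_left _ _
  obtain ⟨Λ, c1, hΛ, hc1, hlev⟩ := level_main C' hC'1 (ε1 / 6) (by positivity)
  obtain ⟨M, hM⟩ : ∃ M : ℝ, M = k * (Λ : ℝ) ^ (k + 3) := ⟨_, rfl⟩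
  have hM0 : 0 ≤ M := by rw [hM]; positivity
  obtain ⟨η1, hη1⟩ : ∃ η1 : ℝ, η1 = η / (2 * (1 + M)) := ⟨_, rfl⟩
  have hη1pos : 0 < η1 := by rw [hη1]; positivity
  have hη1M : (1 + M) * η1 = η / 2 := by rw [hη1]; field_simp
  obtain ⟨p00, hp00, hlev⟩ := hlev η1 hη1pos
  obtain ⟨A, hA⟩ : ∃ A : ℝ, A = 12 / ε1 ^ 2 := ⟨_, rfl⟩
  have hApos : 0 < A := by rw [hA]; positivity
  have hqr : (3 : ℝ) ≤ q := by exact_mod_cast hq
  -- the threshold
  obtain ⟨n0, hn0⟩ : ∃ n0 : ℕ, ∀ n : ℕ, n0 ≤ n → 3 ≤ n ∧ 4 ≤ ε1 * n ∧ (q + 1) * 2 ≤ η * n ∧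
      2 * Λ ≤ ε1 * (A * Real.log n) := by
    have hlog : Filter.Tendsto (fun n : ℕ => Real.log (n : ℝ)) Filter.atTop Filter.atTop :=
      Real.tendsto_log_atTop.comp tendsto_natCast_atTop_atTop
    have h1 : ∀ᶠ n : ℕ in Filter.atTop, 3 ≤ n := Filter.eventually_ge_atTop 3
    have h2 : ∀ᶠ n : ℕ in Filter.atTop, 4 / ε1 ≤ (n : ℝ) :=
      tendsto_natCast_atTop_atTop.eventually_ge_atTop _
    have h3 : ∀ᶠ n : ℕ in Filter.atTop, (q + 1) * 2 / η ≤ (n : ℝ) :=
      tendsto_natCast_atTop_atTop.eventually_ge_atTop _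
    have h4 : ∀ᶠ n : ℕ in Filter.atTop, 2 * Λ / (ε1 * A) ≤ Real.log (n : ℝ) :=
      hlog.eventually_ge_atTop _
    obtain ⟨n0, hn0⟩ := Filter.eventually_atTop.mp (h1.and (h2.and (h3.and h4)))
    refine ⟨n0, fun n hn => ?_⟩
    obtain ⟨a1, a2, a3, a4⟩ := hn0 n hn
    rw [div_le_iff₀ (by positivity)] at a2 a3 a4
    refine ⟨a1, by linarith, by linarith, ?_⟩
    linarith
  refine ⟨min p00 1, A, n0, lt_min hp00 one_pos, hApos, ?_⟩
  intro n hn p hp hpp hpn
  obtain ⟨hn3, hn4, hnη, hnΛ⟩ := hn0 n hn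
  have hp00' : p ≤ p00 := hpp.trans (min_le_left _ _)
  have hp1 : p ≤ 1 := hpp.trans (min_le_right _ _)
  have hnpos : (0 : ℝ) < n := by
    have : (3 : ℝ) ≤ n := by exact_mod_cast hn3
    linarith
  obtain ⟨s, hs1, hs2, hs3, hlev⟩ := hlev p hp hp00'
  have hspos : (0 : ℝ) < s := by
    by_contra h
    have : (s : ℝ) ≤ 0 := not_lt.mp h
    nlinarith
  -- size of W
  have hΛs : (Λ : ℝ) * s ≤ ε1 / 2 * n := by
    have h1 : (Λ : ℝ) * s * p ≤ (ε1 / 2 * n) * p := by
      have h2 : (Λ : ℝ) * (s * p) ≤ Λ * 1 := mul_le_mul_of_nonneg_left hs3 (Nat.cast_nonneg _)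
      have h3 : ε1 * (A * Real.log n) ≤ ε1 * (p * n) := mul_le_mul_of_nonneg_left hpn hε1pos.le
      nlinarith
    exact le_of_mul_le_mul_right h1 hp
  have hΛn : Λ * s ≤ n := by
    have : (Λ : ℝ) * s ≤ n := by nlinarith
    exact_mod_cast this
  obtain ⟨W, -, hW⟩ := exists_subset_card_eq (s := (univ : Finset (Fin n))) (n := Λ * s)
    (by rw [card_univ, Fintype.card_fin]; exact hΛn)
  obtain ⟨base, hbase⟩ : ∃ base : Fin n → ℕ, base = fun y => if y ∈ W then 0 else y.val % q :=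
    ⟨_, rfl⟩
  obtain ⟨z, hz⟩ : ∃ z : ℝ, z = (1 - 1 / (q : ℝ) - ε1) * n := ⟨_, rfl⟩
  have h1q : 1 / (q : ℝ) ≤ 1 / 3 := one_div_le_one_div_of_le (by norm_num) hqr
  have hz3 : (n : ℝ) / 3 ≤ z := by
    rw [hz, div_eq_mul_one_div, mul_comm]
    apply mul_le_mul_of_nonneg_right _ hnpos.le
    linarith
  have hzZ : ∀ v, ∀ j < q, z ≤ ((Zs W base v j).card : ℝ) := by
    intro v j _
    have h1 := card_Zs n q W v j
    rw [← hbase, hW] at h1
    have h2 : (n : ℝ) ≤ Λ * s + ((n / q : ℕ) + 1) + 1 + (Zs W base v j).card := by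
      exact_mod_cast h1
    have h3 : ((n / q : ℕ) : ℝ) ≤ n / q := Nat.cast_div_le
    have h4 : (n : ℝ) / q = 1 / q * n := by ring
    rw [hz]
    nlinarith
  -- the two exposures
  rw [← EW_union_EO W]
  have hfub := Pr_fub (disj_EW_EO W) hp.le hp1 (fun S => ¬ ∃ G : SimpleGraph (Fin n),
        G ≤ SimpleGraph.fromEdgeSet (S : Set (Sym2 (Fin n))) ∧ ¬ H.IsContained G ∧
        (∀ v, (1 - 1 / (q : ℝ) - ε) * (p * n) ≤ ((G.neighborSet v).ncard : ℝ)) ∧
        ¬ G.Colorable C)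
    (fun S => ∃ X ⊆ W, (X.card : ℝ) * p ≤ ε1 / 6 ∧
      (∀ l : ℕ, 3 ≤ l → l ≤ k → ∀ φ : Fin l → Fin n, Function.Injective φ →
      (∀ i, φ i ∈ X) → (∀ a b, (SimpleGraph.cycleGraph l).Adj a b → s(φ a, φ b) ∈ S) → False) ∧
      ¬ ((SimpleGraph.fromEdgeSet (S : Set (Sym2 (Fin n)))).induce (X : Set (Fin n))).Colorable C')
    (η / 2) (η / 2) (by positivity) ?_ ?_
  · linarith
  · -- first exposure
    have h1 := hlev (Fin n) W (EW W) hW (by
      intro v hv w hw hvw
      rw [mem_EW]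
      exact ⟨hvw, hv, hw⟩)
    have h2 := RemC_bound k Λ s hΛ (by exact_mod_cast hspos) W hW (E := EW W) hp.le hp1 hs3
    rw [← hM] at h2
    have h3 : M / s ≤ M * η1 := by
      rw [div_le_iff₀ hspos, mul_assoc]
      exact le_mul_of_one_le_right hM0 hs1
    refine le_trans ?_ (b := η1 + M * η1) (by linarith)
    refine le_trans ?_ (add_le_add h1 (h2.trans h3))
    refine le_trans ?_ (Pr_or_le hp.le hp1 _ _)
    apply Pr_mono hp.le hp1
    intro S hS hbad
    by_contra hno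
    push Not at hno
    obtain ⟨hno1, hno2⟩ := hno
    obtain ⟨X, hXW, hXR, hXp, hXc⟩ := hno1 (RemC k W S) hno2
    apply hbad
    refine ⟨X, hXW, hXp, ?_, hXc⟩
    intro l hl3 hlk φ hφ hφX hφS
    obtain ⟨l', rfl⟩ : ∃ l', l = l' + 3 := ⟨l - 3, by omega⟩
    have : φ 0 ∈ RemC k W S := by
      unfold RemC
      rw [mem_biUnion]
      refine ⟨l', mem_range.mpr (by omega), ?_⟩
      rw [mem_image]
      refine ⟨φ, ?_, rfl⟩
      rw [mem_copies]
      exact ⟨fun i => hXW (hφX i), hφ, hφS⟩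
    exact disjoint_left.mp hXR (hφX 0) this
  · -- second exposure
    intro S1 hS1 hA1
    obtain ⟨X, hXW, hXp, hXf, hXc⟩ := hA1
    have h1 := deg_event W base q hp.le hp1 hε1pos.le (by linarith) hzZ
    have h2 := bad_event W X hXW hp.le hp1 hXp ⌈ε1 * (p * n)⌉₊
    have hlogn : 0 ≤ Real.log n := Real.log_nonneg (by
      have : (3 : ℝ) ≤ n := by exact_mod_cast hn3
      linarith)
    have hexp2 : Real.exp (-(2 * Real.log n)) = 1 / (n : ℝ) ^ 2 := by
      rw [Real.exp_neg, show 2 * Real.log (n : ℝ) = Real.log n + Real.log n by ring, Real.exp_add,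
        Real.exp_log hnpos, one_div, sq]
    have e1 : Real.exp (-(ε1 ^ 2 / 2 * (p * z))) ≤ 1 / (n : ℝ) ^ 2 := by
      rw [← hexp2, Real.exp_le_exp, neg_le_neg_iff]
      have h3 : p * (n / 3) ≤ p * z := mul_le_mul_of_nonneg_left hz3 hp.le
      have h4 : ε1 ^ 2 / 2 * (p * (n / 3)) ≤ ε1 ^ 2 / 2 * (p * z) :=
        mul_le_mul_of_nonneg_left h3 (by positivity)
      have h5 : ε1 ^ 2 / 6 * (A * Real.log n) ≤ ε1 ^ 2 / 6 * (p * n) :=
        mul_le_mul_of_nonneg_left hpn (by positivity)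
      have h6 : ε1 ^ 2 / 6 * (A * Real.log n) = 2 * Real.log n := by
        rw [hA]; field_simp; ring
      linarith
    have e2 : (1 / 4 : ℝ) ^ ⌈ε1 * (p * n)⌉₊ * Real.exp (3 * (ε1 / 6 * p) * n) ≤
        1 / (n : ℝ) ^ 2 := by
      have h3 : (1 / 4 : ℝ) ^ ⌈ε1 * (p * n)⌉₊ ≤ Real.exp (-(ε1 * (p * n))) := by
        have h4 : (1 / 4 : ℝ) ≤ Real.exp (-1) := by
          rw [Real.exp_neg, ← one_div]
          apply one_div_le_one_div_of_le (Real.exp_pos _)
          have := Real.exp_one_lt_d9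
          linarith
        calc (1 / 4 : ℝ) ^ ⌈ε1 * (p * n)⌉₊ ≤ (Real.exp (-1)) ^ ⌈ε1 * (p * n)⌉₊ :=
              pow_le_pow_left₀ (by norm_num) h4 _
          _ = Real.exp (-(⌈ε1 * (p * n)⌉₊ : ℝ)) := by
              rw [← Real.exp_nat_mul]; ring_nf
          _ ≤ Real.exp (-(ε1 * (p * n))) := by
              rw [Real.exp_le_exp, neg_le_neg_iff]
              exact Nat.le_ceil _
      calc (1 / 4 : ℝ) ^ ⌈ε1 * (p * n)⌉₊ * Real.exp (3 * (ε1 / 6 * p) * n)
          ≤ Real.exp (-(ε1 * (p * n))) * Real.exp (3 * (ε1 / 6 * p) * n) :=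
            mul_le_mul_of_nonneg_right h3 (Real.exp_pos _).le
        _ = Real.exp (-(ε1 / 2 * (p * n))) := by
            rw [← Real.exp_add]; ring_nf
        _ ≤ Real.exp (-(2 * Real.log n)) := by
            rw [Real.exp_le_exp, neg_le_neg_iff]
            have h5 : ε1 / 2 * (A * Real.log n) ≤ ε1 / 2 * (p * n) :=
              mul_le_mul_of_nonneg_left hpn (by positivity)
            have h6 : 2 * Real.log n ≤ ε1 / 2 * (A * Real.log n) := by
              rw [← mul_assoc]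
              apply mul_le_mul_of_nonneg_right _ hlogn
              rw [hA]
              have : ε1 / 2 * (12 / ε1 ^ 2) = 6 / ε1 := by field_simp; norm_num
              rw [this, le_div_iff₀ hε1pos]
              linarith
            linarith
        _ = 1 / (n : ℝ) ^ 2 := hexp2
    have hsum : (n : ℝ) * (q * Real.exp (-(ε1 ^ 2 / 2 * (p * z)))) +
        n * ((1 / 4 : ℝ) ^ ⌈ε1 * (p * n)⌉₊ * Real.exp (3 * (ε1 / 6 * p) * n)) ≤ η / 2 := by
      have hq0 : (0 : ℝ) ≤ q := by linarith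
      calc _ ≤ (n : ℝ) * (q * (1 / (n : ℝ) ^ 2)) + n * (1 / (n : ℝ) ^ 2) := by gcongr
        _ = (q + 1) / n := by field_simp
        _ ≤ η / 2 := by
            rw [div_le_div_iff₀ hnpos (by norm_num)]
            exact hnη
    refine le_trans ?_ hsum
    refine le_trans ?_ (add_le_add h1 h2)
    refine le_trans ?_ (Pr_or_le hp.le hp1 _ _)
    apply Pr_mono hp.le hp1
    intro S2 hS2 hbad
    by_contra hno
    push Not at hno
    obtain ⟨hno1, hno2⟩ := hno
    apply hbad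
    have hS : S1 ∪ S2 ⊆ allE n := by
      rw [← EW_union_EO W]
      exact union_subset_union hS1 hS2
    have hin : ∀ a b : Fin n, a ∈ W → b ∈ W → s(a, b) ∈ S1 ∪ S2 → s(a, b) ∈ S1 := by
      intro a b ha hb hab
      rw [mem_union] at hab
      rcases hab with h | h
      · exact h
      · have := (mem_EO.mp (hS2 h)).2
        tauto
    have hout : ∀ a b : Fin n, a ∉ W ∨ b ∉ W → s(a, b) ∈ S1 ∪ S2 → s(a, b) ∈ S2 := by
      intro a b hab h
      rw [mem_union] at h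
      rcases h with h | h
      · have := (mem_EW.mp (hS1 h)).2
        tauto
      · exact h
    obtain ⟨G, hG1, hG2, hG3, hG4⟩ := GA_spec hq H hH hS W X hXW base (by
        intro v
        rw [hbase]
        simp only
        split_ifs
        · omega
        · exact Nat.mod_lt _ (by omega)) (by
        intro w hw
        rw [hbase]
        simp only [hw, if_true]) (by
        intro l hl3 hlk φ hφ hφX hφS
        exact hXf l hl3 hlk φ hφ hφX (fun a b hab =>
          hin _ _ (hXW (hφX a)) (hXW (hφX b)) (hφS a b hab))) C' (by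
        intro hc
        apply hXc
        refine hc.mono_left ?_
        intro a b hab
        rw [SimpleGraph.comap_adj, SimpleGraph.fromEdgeSet_adj] at hab ⊢
        refine ⟨?_, hab.2⟩
        have := hab.1
        simp only [mem_coe, mem_union] at this ⊢
        exact Or.inl this) ((1 - ε1) * (p * z)) (ε1 * (p * n)) (by positivity) (by
        intro v j hj
        have h3 := hno1 v j hj
        rw [card_inter_row] at h3
        refine h3.le.trans ?_
        have : (Zs W base v j).filter (fun a => s(v, a) ∈ S2) ⊆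
            univ.filter (fun y => y ∉ W ∧ base y ≠ j ∧ s(v, y) ∈ S1 ∪ S2) := by
          intro y hy
          simp only [mem_filter, mem_univ, true_and, Zs] at hy ⊢
          exact ⟨hy.1.1, hy.1.2.1, mem_union_right _ hy.2⟩
        exact_mod_cast card_le_card this) (by
        intro v hv
        have h3 := hno2 v hv
        have h4 := Nat.lt_ceil.mp h3
        refine le_trans ?_ h4.le
        have : univ.filter (fun y => y ∉ W ∧ s(v, y) ∈ S1 ∪ S2 ∧ ∃ x ∈ X, s(y, x) ∈ S1 ∪ S2) ⊆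
            univ.filter (fun y => y ∉ W ∧ s(v, y) ∈ S2 ∧ ∃ x ∈ X, s(y, x) ∈ S2) := by
          intro y hy
          simp only [mem_filter, mem_univ, true_and] at hy ⊢
          obtain ⟨hy1, hy2, x, hx, hyx⟩ := hy
          exact ⟨hy1, hout _ _ (Or.inr hy1) hy2, x, hx, hout _ _ (Or.inl hy1) hyx⟩
        exact_mod_cast card_le_card this)
    refine ⟨G, hG1, hG2, ?_, fun hc => hG4 (hc.mono hCC')⟩
    intro v
    refine le_trans ?_ (hG3 v)
    rw [hz]
    have hpn0 : 0 ≤ p * n := by positivity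
    have h1q0 : 0 ≤ 1 / (q : ℝ) := by positivity
    have : (1 - ε1) * (p * ((1 - 1 / (q : ℝ) - ε1) * n)) - ε1 * (p * n) -
        (1 - 1 / (q : ℝ) - ε) * (p * n) =
        (p * n) * ((ε - 3 * ε1) + ε1 * (1 / q) + ε1 ^ 2) := by ring
    have h7 : 0 ≤ (p * n) * ((ε - 3 * ε1) + ε1 * (1 / q) + ε1 ^ 2) := by
      apply mul_nonneg hpn0
      have := mul_nonneg hε1pos.le h1q0
      have := sq_nonneg ε1
      linarith
    linarith

end Pool.Agent.W166.Gnp
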