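import Pool.Agent.W166.Gnp.Basic

set_option autoImplicit false

/-! Graphs on `Fin n` as sets of edges. -/

namespace Pool.Agent.W166.Gnp

open Finset Classical

/-- all possible edges -/
noncomputable def allE (n : ℕ) : Finset (Sym2 (Fin n)) := univ.filter (fun e => ¬ e.IsDiag)

theorem allE_card (n : ℕ) : (allE n).card = n.choose 2 := by
  have := Sym2.card_subtype_not_diag (α := Fin n)
  rw [Fintype.card_fin] at this
  rw [← this, allE, Fintype.card_subtype]

theorem mem_allE {n : ℕ} {a b : Fin n} : s(a, b) ∈ allE n ↔ a ≠ b := by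
  simp [allE]

variable {n : ℕ}

/-- the edge set as a finset -/
noncomputable def ed (G : SimpleGraph (Fin n)) : Finset (Sym2 (Fin n)) :=
  univ.filter (fun e => e ∈ G.edgeSet)

theorem ed_card (G : SimpleGraph (Fin n)) : (ed G).card = G.edgeSet.ncard := by
  rw [← Set.ncard_coe_finset]
  congr 1
  ext e; simp [ed]

theorem ed_sub (G : SimpleGraph (Fin n)) : ed G ⊆ allE n := by
  intro e he
  simp only [ed, mem_filter, mem_univ, true_and] at he
  simp only [allE, mem_filter, mem_univ, true_and]
  exact G.not_isDiag_of_mem_edgeSet he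

theorem fromEdgeSet_ed (G : SimpleGraph (Fin n)) :
    SimpleGraph.fromEdgeSet ((ed G : Finset (Sym2 (Fin n))) : Set (Sym2 (Fin n))) = G := by
  have : ((ed G : Finset (Sym2 (Fin n))) : Set (Sym2 (Fin n))) = G.edgeSet := by
    ext e; simp [ed]
  rw [this, SimpleGraph.fromEdgeSet_edgeSet]

theorem ed_fromEdgeSet {S : Finset (Sym2 (Fin n))} (hS : S ⊆ allE n) :
    ed (SimpleGraph.fromEdgeSet (S : Set (Sym2 (Fin n)))) = S := by
  ext e
  simp only [ed, mem_filter, mem_univ, true_and, SimpleGraph.edgeSet_fromEdgeSet, Set.mem_sdiff,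
    mem_coe]
  constructor
  · exact fun h => h.1
  · intro h
    refine ⟨h, ?_⟩
    have := hS h
    simp only [allE, mem_filter, mem_univ, true_and] at this
    exact this

theorem sum_graph (F : Finset (Sym2 (Fin n)) → ℝ) :
    ∑ G : SimpleGraph (Fin n), F (ed G) = ∑ S ∈ (allE n).powerset, F S := by
  refine sum_nbij' (fun G => ed G) (fun S => SimpleGraph.fromEdgeSet (S : Set (Sym2 (Fin n)))) ?_ ?_ ?_ ?_ ?_
  · intro G _
    exact mem_powerset.mpr (ed_sub G)
  · intro S _; exact mem_univ _
  · intro G _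
    exact fromEdgeSet_ed G
  · intro S hS
    exact ed_fromEdgeSet (mem_powerset.mp hS)
  · intro G _; rfl

/-- the sum over graphs of the `G(n,p)` weight is the probability `Pr`. -/
theorem sum_eq_Pr (p : ℝ) (A : SimpleGraph (Fin n) → Prop) [DecidablePred A] :
    (∑ Γ : SimpleGraph (Fin n), if A Γ then
      p ^ Γ.edgeSet.ncard * (1 - p) ^ (n.choose 2 - Γ.edgeSet.ncard) else 0) =
    Pr (allE n) p (fun S => A (SimpleGraph.fromEdgeSet (S : Set (Sym2 (Fin n))))) := by
  unfold Pr Ex
  rw [← sum_graph]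
  apply sum_congr rfl
  intro Γ _
  beta_reduce
  rw [fromEdgeSet_ed, ed_card, allE_card]
  by_cases h : A Γ
  · simp only [h, if_true, mul_one]
  · simp only [h, if_false, mul_zero]

end Pool.Agent.W166.Gnp
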