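import Mathlib

set_option autoImplicit false
set_option linter.unusedSectionVars false

/-! Product Bernoulli measure on the subsets of a finite set, as finite sums. -/

namespace Pool.Agent.W166.Gnp

open Finset

variable {α : Type} [DecidableEq α]

/-- expectation of `f` of a random subset of `E`, each element taken with probability `p` -/
noncomputable def Ex (E : Finset α) (p : ℝ) (f : Finset α → ℝ) : ℝ :=
  ∑ S ∈ E.powerset, p ^ S.card * (1 - p) ^ (E.card - S.card) * f S

open Classical in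
/-- probability -/
noncomputable def Pr (E : Finset α) (p : ℝ) (A : Finset α → Prop) : ℝ :=
  Ex E p (fun S => if A S then 1 else 0)

theorem Ex_const (E : Finset α) (p c : ℝ) : Ex E p (fun _ => c) = c := by
  unfold Ex
  rw [← Finset.sum_mul, Finset.sum_pow_mul_eq_add_pow]
  simp

theorem Ex_congr {E : Finset α} {p : ℝ} {f g : Finset α → ℝ} (h : ∀ S, S ⊆ E → f S = g S) :
    Ex E p f = Ex E p g := by
  unfold Ex
  apply Finset.sum_congr rfl
  intro S hS
  rw [h S (mem_powerset.mp hS)]

theorem Ex_add (E : Finset α) (p : ℝ) (f g : Finset α → ℝ) :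
    Ex E p (fun S => f S + g S) = Ex E p f + Ex E p g := by
  unfold Ex
  rw [← Finset.sum_add_distrib]
  exact Finset.sum_congr rfl (fun S _ => by ring)

theorem Ex_smul (E : Finset α) (p c : ℝ) (f : Finset α → ℝ) :
    Ex E p (fun S => c * f S) = c * Ex E p f := by
  unfold Ex
  rw [Finset.mul_sum]
  exact Finset.sum_congr rfl (fun S _ => by ring)

theorem Ex_sum {ι : Type} (E : Finset α) (p : ℝ) (T : Finset ι) (f : ι → Finset α → ℝ) :
    Ex E p (fun S => ∑ i ∈ T, f i S) = ∑ i ∈ T, Ex E p (f i) := by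
  unfold Ex
  rw [Finset.sum_comm]
  exact Finset.sum_congr rfl (fun S _ => by rw [Finset.mul_sum])

theorem wt_nonneg (E S : Finset α) {p : ℝ} (h0 : 0 ≤ p) (h1 : p ≤ 1) :
    0 ≤ p ^ S.card * (1 - p) ^ (E.card - S.card) :=
  mul_nonneg (pow_nonneg h0 _) (pow_nonneg (by linarith) _)

theorem Ex_mono {E : Finset α} {p : ℝ} (h0 : 0 ≤ p) (h1 : p ≤ 1) {f g : Finset α → ℝ}
    (h : ∀ S, S ⊆ E → f S ≤ g S) : Ex E p f ≤ Ex E p g := by
  unfold Ex
  apply Finset.sum_le_sum
  intro S hS
  exact mul_le_mul_of_nonneg_left (h S (mem_powerset.mp hS)) (wt_nonneg E S h0 h1)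

theorem Ex_nonneg {E : Finset α} {p : ℝ} (h0 : 0 ≤ p) (h1 : p ≤ 1) {f : Finset α → ℝ}
    (h : ∀ S, S ⊆ E → 0 ≤ f S) : 0 ≤ Ex E p f := by
  unfold Ex
  apply Finset.sum_nonneg
  intro S hS
  exact mul_nonneg (wt_nonneg E S h0 h1) (h S (mem_powerset.mp hS))

/-- Fubini -/
theorem Ex_union {E1 E2 : Finset α} (hd : Disjoint E1 E2) (p : ℝ) (f : Finset α → ℝ) :
    Ex (E1 ∪ E2) p f = Ex E1 p (fun S => Ex E2 p (fun T => f (S ∪ T))) := by
  unfold Ex
  simp only [Finset.mul_sum]
  rw [← Finset.sum_product']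
  symm
  refine sum_nbij' (fun x => x.1 ∪ x.2) (fun S => (S ∩ E1, S ∩ E2)) ?_ ?_ ?_ ?_ ?_
  · rintro ⟨S, T⟩ h
    simp only [mem_product, mem_powerset] at h ⊢
    exact union_subset_union h.1 h.2
  · intro S _
    simp only [mem_product, mem_powerset]
    exact ⟨inter_subset_right, inter_subset_right⟩
  · rintro ⟨S, T⟩ h
    simp only [mem_product, mem_powerset] at h
    have h1 : Disjoint T E1 := (hd.mono_right h.2).symm
    have h2 : Disjoint S E2 := hd.mono_left h.1
    simp only [union_inter_distrib_right, Prod.mk.injEq]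
    rw [Finset.disjoint_iff_inter_eq_empty.mp h1, Finset.disjoint_iff_inter_eq_empty.mp h2,
      inter_eq_left.mpr h.1, inter_eq_left.mpr h.2]
    simp
  · intro S hS
    simp only [mem_powerset] at hS
    simp only
    rw [← inter_union_distrib_left, inter_eq_left.mpr hS]
  · rintro ⟨S, T⟩ h
    simp only [mem_product, mem_powerset] at h
    simp only
    have h3 : Disjoint S T := hd.mono h.1 h.2
    have h4 := card_le_card h.1
    have h5 := card_le_card h.2
    rw [card_union_of_disjoint h3, card_union_of_disjoint hd]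
    have e : E1.card + E2.card - (S.card + T.card) = (E1.card - S.card) + (E2.card - T.card) := by
      omega
    rw [e, pow_add, pow_add]
    ring

theorem Ex_marg {E E1 : Finset α} (h1 : E1 ⊆ E) (p : ℝ) {f : Finset α → ℝ}
    (h : ∀ S, S ⊆ E → f S = f (S ∩ E1)) : Ex E p f = Ex E1 p f := by
  have hE : E = E1 ∪ (E \ E1) := (union_sdiff_of_subset h1).symm
  rw [hE, Ex_union disjoint_sdiff]
  apply Ex_congr
  intro S hS
  have : ∀ T, T ⊆ E \ E1 → f (S ∪ T) = f S := by
    intro T hT
    rw [h (S ∪ T) (union_subset (hS.trans h1) (hT.trans sdiff_subset))]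
    congr 1
    rw [union_inter_distrib_right, inter_eq_left.mpr hS]
    have : Disjoint T E1 := (disjoint_sdiff.mono_right hT).symm
    rw [Finset.disjoint_iff_inter_eq_empty.mp this, union_empty]
  rw [Ex_congr this, Ex_const]

theorem Ex_prod_biUnion {ι : Type} [DecidableEq ι] (p : ℝ) (R : ι → Finset α)
    (f : ι → Finset α → ℝ) : ∀ (T : Finset ι) (_ : (T : Set ι).PairwiseDisjoint R),
    Ex (T.biUnion R) p (fun S => ∏ v ∈ T, f v (S ∩ R v)) = ∏ v ∈ T, Ex (R v) p (f v) := by
  intro T
  induction T using Finset.induction_on with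
  | empty =>
    intro _
    simp [Ex]
  | insert a T ha ih =>
    intro hd
    have hd' : (T : Set ι).PairwiseDisjoint R := hd.subset (by simp)
    have hda : Disjoint (R a) (T.biUnion R) := by
      rw [disjoint_biUnion_right]
      intro i hi
      exact hd (by simp) (by simp [hi]) (fun h => ha (h ▸ hi))
    rw [biUnion_insert, Ex_union hda, prod_insert ha, ← ih hd', ← Ex_const (R a) p
      (Ex (T.biUnion R) p fun S => ∏ v ∈ T, f v (S ∩ R v))]
    rw [Ex_const, mul_comm, ← Ex_smul]
    apply Ex_congr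
    intro S hS
    rw [mul_comm, ← Ex_smul]
    apply Ex_congr
    intro U hU
    rw [prod_insert ha]
    congr 1
    · congr 1
      rw [union_inter_distrib_right, inter_eq_left.mpr hS,
        Finset.disjoint_iff_inter_eq_empty.mp ((hda.mono_right hU).symm), union_empty]
    · apply prod_congr rfl
      intro v hv
      congr 1
      rw [union_inter_distrib_right]
      have : Disjoint S (R v) := by
        apply (hda.mono_left hS).mono_right
        exact subset_biUnion_of_mem R hv
      rw [Finset.disjoint_iff_inter_eq_empty.mp this, empty_union]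

/-- independence of blocks -/
theorem Ex_prod {ι : Type} [DecidableEq ι] {E : Finset α} (p : ℝ) (T : Finset ι)
    (R : ι → Finset α) (hR : ∀ v ∈ T, R v ⊆ E) (hd : (T : Set ι).PairwiseDisjoint R)
    (f : ι → Finset α → ℝ) :
    Ex E p (fun S => ∏ v ∈ T, f v (S ∩ R v)) = ∏ v ∈ T, Ex (R v) p (f v) := by
  rw [← Ex_prod_biUnion p R f T hd]
  apply Ex_marg (biUnion_subset.mpr hR)
  intro S _
  apply prod_congr rfl
  intro v hv
  congr 1
  rw [inter_assoc, inter_eq_right.mpr (subset_biUnion_of_mem R hv)]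

theorem Pr_nonneg {E : Finset α} {p : ℝ} (h0 : 0 ≤ p) (h1 : p ≤ 1) (A : Finset α → Prop) :
    0 ≤ Pr E p A := by
  classical
  apply Ex_nonneg h0 h1
  intro S _
  split_ifs <;> norm_num

theorem Pr_le_one {E : Finset α} {p : ℝ} (h0 : 0 ≤ p) (h1 : p ≤ 1) (A : Finset α → Prop) :
    Pr E p A ≤ 1 := by
  classical
  calc Pr E p A ≤ Ex E p (fun _ => 1) := by
        apply Ex_mono h0 h1
        intro S _
        split_ifs <;> norm_num
    _ = 1 := Ex_const _ _ _

theorem Pr_mono {E : Finset α} {p : ℝ} (h0 : 0 ≤ p) (h1 : p ≤ 1) {A B : Finset α → Prop}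
    (h : ∀ S, S ⊆ E → A S → B S) : Pr E p A ≤ Pr E p B := by
  classical
  apply Ex_mono h0 h1
  intro S hS
  by_cases hA : A S
  · rw [if_pos hA, if_pos (h S hS hA)]
  · rw [if_neg hA]
    split_ifs <;> norm_num

theorem Pr_not {E : Finset α} {p : ℝ} (A : Finset α → Prop) :
    Pr E p (fun S => ¬ A S) = 1 - Pr E p A := by
  classical
  rw [eq_sub_iff_add_eq, Pr, Pr, ← Ex_add]
  refine Eq.trans (Ex_congr (g := fun _ => (1 : ℝ)) ?_) (Ex_const E p 1)
  intro S _
  by_cases hA : A S <;> simp [hA]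

/-- union bound -/
theorem Pr_exists_le {ι : Type} {E : Finset α} {p : ℝ} (h0 : 0 ≤ p) (h1 : p ≤ 1) (T : Finset ι)
    (A : ι → Finset α → Prop) : Pr E p (fun S => ∃ i ∈ T, A i S) ≤ ∑ i ∈ T, Pr E p (A i) := by
  classical
  unfold Pr
  rw [← Ex_sum]
  apply Ex_mono h0 h1
  intro S _
  by_cases hA : ∃ i ∈ T, A i S
  · rw [if_pos hA]
    obtain ⟨i, hi, hi2⟩ := hA
    have h2 : (if A i S then (1 : ℝ) else 0) ≤ ∑ i ∈ T, if A i S then (1 : ℝ) else 0 := by
      apply Finset.single_le_sum (f := fun i => if A i S then (1 : ℝ) else 0) _ hi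
      intro j _
      show (0 : ℝ) ≤ if A j S then (1 : ℝ) else 0
      split_ifs <;> norm_num
    rw [if_pos hi2] at h2
    exact h2
  · rw [if_neg hA]
    apply Finset.sum_nonneg
    intro j _
    split_ifs <;> norm_num

theorem Pr_or_le {E : Finset α} {p : ℝ} (h0 : 0 ≤ p) (h1 : p ≤ 1)
    (A B : Finset α → Prop) : Pr E p (fun S => A S ∨ B S) ≤ Pr E p A + Pr E p B := by
  classical
  unfold Pr
  rw [← Ex_add]
  apply Ex_mono h0 h1
  intro S _
  by_cases hA : A S <;> by_cases hB : B S <;> simp [hA, hB]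

/-- Markov -/
theorem Pr_le_Ex {E : Finset α} {p : ℝ} (h0 : 0 ≤ p) (h1 : p ≤ 1) (A : Finset α → Prop)
    (f : Finset α → ℝ) (hf : ∀ S, S ⊆ E → 0 ≤ f S) (h : ∀ S, S ⊆ E → A S → 1 ≤ f S) :
    Pr E p A ≤ Ex E p f := by
  classical
  apply Ex_mono h0 h1
  intro S hS
  by_cases hA : A S
  · rw [if_pos hA]; exact h S hS hA
  · rw [if_neg hA]; exact hf S hS

/-- probability that a given set is contained in the random set -/
theorem Pr_superset {E D : Finset α} (hD : D ⊆ E) (p : ℝ) :
    Pr E p (fun S => D ⊆ S) = p ^ D.card := by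
  classical
  have hm : Ex E p (fun S => if D ⊆ S then (1 : ℝ) else 0)
      = Ex D p (fun S => if D ⊆ S then (1 : ℝ) else 0) := by
    apply Ex_marg hD
    intro S _
    congr 1
    simp [subset_inter_iff]
  have h0 : Pr E p (fun S => D ⊆ S) = Ex E p (fun S => if D ⊆ S then (1 : ℝ) else 0) := by
    unfold Pr
    apply Ex_congr
    intro S _
    congr
  rw [h0, hm]
  unfold Ex
  rw [Finset.sum_eq_single D]
  · simp
  · intro S hS hne
    rw [mem_powerset] at hS
    beta_reduce
    rw [if_neg (fun h => hne (subset_antisymm hS h)), mul_zero]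
  · intro h
    exact absurd (mem_powerset_self D) h

/-- a block event and its marginal -/
theorem Pr_marg {E E1 : Finset α} (h1 : E1 ⊆ E) (p : ℝ) {A : Finset α → Prop} :
    Pr E p (fun S => A (S ∩ E1)) = Pr E1 p A := by
  classical
  unfold Pr
  rw [Ex_marg (E1 := E1) h1]
  · apply Ex_congr
    intro S hS
    beta_reduce
    rw [inter_eq_left.mpr hS]
  · intro S _
    beta_reduce
    rw [inter_assoc, inter_self]

end Pool.Agent.W166.Gnp
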