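import Pool.Agent.W166.Gnp.Level

set_option autoImplicit false
set_option linter.unusedSectionVars false

/-! The set of large chromatic number, built level by level. -/

namespace Pool.Agent.W166.Gnp

open Finset

theorem pow_mul_descFactorial_le (D x : ℕ) (hD : 1 ≤ D) : ∀ t : ℕ,
    D ^ t * x.descFactorial t ≤ (D * x).descFactorial t := by
  intro t
  induction t with
  | zero => simp
  | succ t ih =>
    rw [Nat.descFactorial_succ, Nat.descFactorial_succ, pow_succ]
    have h1 : D * (x - t) ≤ D * x - t := by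
      rw [Nat.mul_sub]
      have : t ≤ D * t := Nat.le_mul_of_pos_left t hD
      omega
    calc D ^ t * D * ((x - t) * x.descFactorial t)
        = (D * (x - t)) * (D ^ t * x.descFactorial t) := by ring
      _ ≤ (D * x - t) * (D * x).descFactorial t := Nat.mul_le_mul h1 ih

theorem pow_mul_choose_le (D x t : ℕ) (hD : 1 ≤ D) :
    D ^ t * x.choose t ≤ (D * x).choose t := by
  have h := pow_mul_descFactorial_le D x hD t
  rw [Nat.descFactorial_eq_factorial_mul_choose, Nat.descFactorial_eq_factorial_mul_choose] at h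
  have h2 : 0 < t.factorial := Nat.factorial_pos t
  have h3 : t.factorial * (D ^ t * x.choose t) ≤ t.factorial * ((D * x).choose t) := by
    calc t.factorial * (D ^ t * x.choose t) = D ^ t * (t.factorial * x.choose t) := by ring
      _ ≤ _ := h
  exact Nat.le_of_mul_le_mul_left h3 h2

section
variable {V : Type} [DecidableEq V]

theorem card_above (B Q : Finset V) (s t : ℕ) (hQ : Q ⊆ B) (hQt : Q.card = t) :
    ((powersetCard s B).filter (fun A => Q ⊆ A)).card ≤ (B.card - t).choose (s - t) := by
  have h : (powersetCard (s - t) (B \ Q)).card = (B.card - t).choose (s - t) := by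
    rw [card_powersetCard, card_sdiff_of_subset hQ, hQt]
  rw [← h]
  apply card_le_card_of_injOn (fun A => A \ Q)
  · intro A hA
    simp only [coe_filter, mem_powersetCard, Set.mem_ofPred_eq] at hA
    rw [mem_coe, mem_powersetCard]
    refine ⟨sdiff_subset_sdiff hA.1.1 subset_rfl, ?_⟩
    rw [card_sdiff_of_subset hA.2, hA.1.2, hQt]
  · intro A hA A' hA' h
    simp only [coe_filter, mem_powersetCard, Set.mem_ofPred_eq] at hA hA'
    simp only at h
    rw [← sdiff_union_of_subset hA.2, ← sdiff_union_of_subset hA'.2, h]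

theorem select {ι : Type} [DecidableEq ι] (B : Finset V) (T : Finset ι) (Bad : ι → Finset V)
    (s t k D : ℕ) (hD : 1 ≤ D) (hB : D * k ≤ B.card) (hBad : ∀ τ ∈ T, (Bad τ).card ≤ k)
    (hT : T.card * s.choose t < D ^ t) (hts : t ≤ s) (htk : t ≤ k) (hs : s ≤ B.card) :
    ∃ A ⊆ B, A.card = s ∧ ∀ τ ∈ T, (A ∩ Bad τ).card < t := by
  by_contra hcon
  push Not at hcon
  have hsub : powersetCard s B ⊆ T.biUnion (fun τ => (powersetCard t (Bad τ ∩ B)).biUnion
      (fun Q => (powersetCard s B).filter (fun A => Q ⊆ A))) := by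
    intro A hA
    have hA' := mem_powersetCard.mp hA
    obtain ⟨τ, hτ, h2⟩ := hcon A hA'.1 hA'.2
    obtain ⟨Q, hQ1, hQ2⟩ := exists_subset_card_eq h2
    rw [mem_biUnion]
    refine ⟨τ, hτ, ?_⟩
    rw [mem_biUnion]
    refine ⟨Q, ?_, ?_⟩
    · rw [mem_powersetCard]
      refine ⟨?_, hQ2⟩
      rw [subset_inter_iff]
      exact ⟨hQ1.trans inter_subset_right, (hQ1.trans inter_subset_left).trans hA'.1⟩
    · rw [mem_filter]
      exact ⟨hA, hQ1.trans inter_subset_left⟩
  have h1 := card_le_card hsub
  rw [card_powersetCard] at h1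
  have h2 : (T.biUnion (fun τ => (powersetCard t (Bad τ ∩ B)).biUnion
      (fun Q => (powersetCard s B).filter (fun A => Q ⊆ A)))).card ≤
      T.card * (k.choose t * (B.card - t).choose (s - t)) := by
    apply card_biUnion_le_card_mul
    intro τ hτ
    have h3 : (powersetCard t (Bad τ ∩ B)).card ≤ k.choose t := by
      rw [card_powersetCard]
      exact Nat.choose_le_choose t ((card_le_card inter_subset_left).trans (hBad τ hτ))
    refine le_trans ?_ (Nat.mul_le_mul_right _ h3)
    apply card_biUnion_le_card_mul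
    intro Q hQ
    rw [mem_powersetCard] at hQ
    exact card_above B Q s t (hQ.1.trans inter_subset_right) hQ.2
  have h4 := h1.trans h2
  have h5 : B.card.choose s * s.choose t = B.card.choose t * (B.card - t).choose (s - t) :=
    Nat.choose_mul hts
  have h6 : D ^ t * k.choose t ≤ B.card.choose t :=
    (pow_mul_choose_le D k t hD).trans (Nat.choose_le_choose t hB)
  have h7 : 0 < (B.card - t).choose (s - t) := Nat.choose_pos (by omega)
  have h8 : 0 < k.choose t := Nat.choose_pos htk
  have h9 : B.card.choose s * s.choose t < B.card.choose s * s.choose t := by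
    calc B.card.choose s * s.choose t
        ≤ T.card * (k.choose t * (B.card - t).choose (s - t)) * s.choose t :=
          Nat.mul_le_mul_right _ h4
      _ = (T.card * s.choose t) * (k.choose t * (B.card - t).choose (s - t)) := by ring
      _ < D ^ t * (k.choose t * (B.card - t).choose (s - t)) :=
          Nat.mul_lt_mul_of_pos_right hT (Nat.mul_pos h8 h7)
      _ = (D ^ t * k.choose t) * (B.card - t).choose (s - t) := by ring
      _ ≤ B.card.choose t * (B.card - t).choose (s - t) := Nat.mul_le_mul_right _ h6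
      _ = B.card.choose s * s.choose t := h5.symm
  exact lt_irrefl _ h9

/-- the invariant of the construction -/
def Inv (S : Finset (Sym2 V)) (W : ℕ → Finset V) (Rem : Finset V) (s t i : ℕ) (U : Finset V) :
    Prop :=
  U ⊆ (range (i + 1)).biUnion W ∧ Disjoint U Rem ∧ (∀ j ∈ range (i + 1), (U ∩ W j).card = s) ∧
    ∀ i' ∈ range (i + 1), ∀ j ∈ range i', ∀ S0 ⊆ U ∩ W j, S0.card = t →
      ∀ T0 ⊆ U ∩ W i', T0.card = t → ∃ v ∈ T0, ∃ a ∈ S0, s(v, a) ∈ S

theorem inv_zero (S : Finset (Sym2 V)) (W : ℕ → Finset V) (Rem : Finset V) (s t : ℕ)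
    (h : s + Rem.card ≤ (W 0).card) : ∃ U, Inv S W Rem s t 0 U := by
  have h1 : s ≤ (W 0 \ Rem).card := by
    have := le_card_sdiff Rem (W 0)
    omega
  obtain ⟨U, hU1, hU2⟩ := exists_subset_card_eq h1
  refine ⟨U, ?_, ?_, ?_, ?_⟩
  · simp only [zero_add, range_one, singleton_biUnion]
    exact hU1.trans sdiff_subset
  · exact disjoint_of_subset_left hU1 sdiff_disjoint
  · intro j hj
    simp only [zero_add, range_one, mem_singleton] at hj
    subst hj
    rw [inter_eq_left.mpr (hU1.trans sdiff_subset), hU2]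
  · intro i' hi' j hj
    simp only [zero_add, range_one, mem_singleton] at hi'
    subst hi'
    simp at hj

theorem inv_succ (S : Finset (Sym2 V)) (W : ℕ → Finset V) (Rem : Finset V) (K s t b k D i : ℕ)
    (hd : ((range (i + 2) : Finset ℕ) : Set ℕ).PairwiseDisjoint W)
    (hD : 1 ≤ D) (hb : D * k + Rem.card ≤ b) (hT : ((i + 1) * s.choose t) * s.choose t < D ^ t)
    (hts : t ≤ s) (htk : t ≤ k) (hsb : s + Rem.card ≤ b)
    (hL : Lev S K s t b k W (i + 1)) (U : Finset V) (hU : Inv S W Rem s t i U) :
    ∃ U', Inv S W Rem s t (i + 1) U' := by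
  classical
  obtain ⟨hU1, hU2, hU3, hU4⟩ := hU
  obtain ⟨hB, hBad⟩ := hL U hU1 hU3
  set B := Bset S K (W (i + 1)) (i + 1) (fun j => U ∩ W j) with hBdef
  let T : Finset (Σ _ : ℕ, Finset V) := (range (i + 1)).sigma (fun j => powersetCard t (U ∩ W j))
  have hTc : T.card = (i + 1) * s.choose t := by
    rw [card_sigma]
    rw [sum_congr rfl (g := fun _ => s.choose t)]
    · simp
    · intro j hj
      rw [card_powersetCard, hU3 j hj]
  have hBR : b - Rem.card ≤ (B \ Rem).card := by
    have := le_card_sdiff Rem B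
    omega
  obtain ⟨A, hA1, hA2, hA3⟩ := select (B \ Rem) T
    (fun τ => Bset S K (W (i + 1)) (i + 1) (Qb U W τ.1 τ.2)) s t k D hD (by omega) (by
      intro τ hτ
      simp only [T, mem_sigma, mem_powersetCard] at hτ
      exact (hBad τ.1 hτ.1 τ.2 hτ.2.1 hτ.2.2).le) (by rw [hTc]; exact hT) hts htk (by omega)
  have hAW : A ⊆ W (i + 1) := hA1.trans (sdiff_subset.trans (filter_subset _ _))
  have hWd : ∀ j ∈ range (i + 1), Disjoint (W (i + 1)) (W j) := by
    intro j hj
    rw [mem_range] at hj
    exact hd (by simp) (by simp; omega) (by omega)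
  have hUW : Disjoint U (W (i + 1)) := by
    apply disjoint_of_subset_left hU1
    rw [disjoint_biUnion_left]
    intro j hj
    exact (hWd j hj).symm
  have hcap : ∀ j ∈ range (i + 1), (U ∪ A) ∩ W j = U ∩ W j := by
    intro j hj
    rw [union_inter_distrib_right]
    have : Disjoint A (W j) := disjoint_of_subset_left hAW (hWd j hj)
    rw [Finset.disjoint_iff_inter_eq_empty.mp this, union_empty]
  have hcap' : (U ∪ A) ∩ W (i + 1) = A := by
    rw [union_inter_distrib_right, Finset.disjoint_iff_inter_eq_empty.mp hUW, empty_union,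
      inter_eq_left.mpr hAW]
  refine ⟨U ∪ A, ?_, ?_, ?_, ?_⟩
  · rw [range_add_one, biUnion_insert, union_comm]
    exact union_subset_union hAW hU1
  · rw [disjoint_union_left]
    exact ⟨hU2, disjoint_of_subset_left hA1 sdiff_disjoint⟩
  · intro j hj
    rw [mem_range] at hj
    rcases Nat.lt_succ_iff_lt_or_eq.mp hj with h | h
    · rw [hcap j (mem_range.mpr h)]
      exact hU3 j (mem_range.mpr h)
    · subst h
      rw [hcap']
      exact hA2
  · intro i' hi' j hj S0 hS0 hS0c T0 hT0 hT0c
    rw [mem_range] at hi' hj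
    rcases Nat.lt_succ_iff_lt_or_eq.mp hi' with h | h
    · rw [hcap i' (mem_range.mpr h)] at hT0
      rw [hcap j (mem_range.mpr (by omega))] at hS0
      exact hU4 i' (mem_range.mpr h) j (mem_range.mpr hj) S0 hS0 hS0c T0 hT0 hT0c
    · subst h
      rw [hcap'] at hT0
      have hj' : j ∈ range (i + 1) := mem_range.mpr hj
      rw [hcap j hj'] at hS0
      have h3 := hA3 ⟨j, S0⟩ (by
        simp only [T, mem_sigma, mem_powersetCard]
        exact ⟨hj', hS0, hS0c⟩)
      have h4 : ¬ T0 ⊆ A ∩ Bset S K (W (i + 1)) (i + 1) (Qb U W j S0) := by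
        intro h5
        have := card_le_card h5
        simp only at h3
        omega
      rw [not_subset] at h4
      obtain ⟨v, hv, hv2⟩ := h4
      refine ⟨v, hv, ?_⟩
      have hvA := hT0 hv
      have hvB : v ∈ B := (mem_sdiff.mp (hA1 hvA)).1
      rw [mem_inter, not_and] at hv2
      have hv3 := hv2 hvA
      rw [hBdef] at hvB
      unfold Bset at hvB hv3
      rw [mem_filter] at hvB hv3
      by_contra hno
      push Not at hno
      apply hv3
      refine ⟨hvB.1, ?_⟩
      intro j' hj''
      unfold Qb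
      by_cases hjj : j' = j
      · subst hjj
        rw [if_pos rfl, card_inter_row]
        have h6 := hvB.2 j' hj''
        rw [card_inter_row] at h6
        convert h6 using 2
        ext a
        simp only [mem_filter, mem_sdiff]
        constructor
        · rintro ⟨⟨h7, _⟩, h8⟩
          exact ⟨h7, h8⟩
        · rintro ⟨h7, h8⟩
          exact ⟨⟨h7, fun h9 => hno a h9 h8⟩, h8⟩
      · rw [if_neg hjj]
        exact hvB.2 j' hj''

theorem inv_all (S : Finset (Sym2 V)) (W : ℕ → Finset V) (Rem : Finset V) (K s t D C : ℕ)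
    (b k : ℕ → ℕ) (hd : ((range (C + 1) : Finset ℕ) : Set ℕ).PairwiseDisjoint W)
    (hD : 1 ≤ D) (hb : ∀ i, D * k i + Rem.card ≤ b i)
    (hT : (C * s.choose t) * s.choose t < D ^ t)
    (hts : t ≤ s) (htk : ∀ i, t ≤ k i) (hsb : ∀ i, s + Rem.card ≤ b i)
    (h0 : s + Rem.card ≤ (W 0).card)
    (hL : ∀ i, 1 ≤ i → i ≤ C → Lev S K s t (b i) (k i) W i) :
    ∀ i ≤ C, ∃ U, Inv S W Rem s t i U := by
  intro i
  induction i with
  | zero => intro _; exact inv_zero S W Rem s t h0
  | succ i ih =>
    intro hi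
    obtain ⟨U, hU⟩ := ih (by omega)
    apply inv_succ S W Rem K s t (b (i + 1)) (k (i + 1)) D i ?_ hD (hb _) ?_ hts (htk _) (hsb _)
      (hL (i + 1) (by omega) hi) U hU
    · apply hd.subset
      intro x hx
      simp only [coe_range, Set.mem_Iio] at hx ⊢
      omega
    · refine lt_of_le_of_lt ?_ hT
      exact Nat.mul_le_mul_right _ (Nat.mul_le_mul_right _ hi)

theorem inv_not_colorable (S : Finset (Sym2 V)) (W : ℕ → Finset V) (Rem : Finset V) (s t C : ℕ)
    (hC : 1 ≤ C) (hs : C * t ≤ s)
    (hd : ((range (C + 1) : Finset ℕ) : Set ℕ).PairwiseDisjoint W)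
    (U : Finset V) (hU : Inv S W Rem s t C U) :
    ¬ ((SimpleGraph.fromEdgeSet (S : Set (Sym2 V))).induce (U : Set V)).Colorable C := by
  classical
  rintro ⟨c⟩
  obtain ⟨hU1, hU2, hU3, hU4⟩ := hU
  have : NeZero C := ⟨by omega⟩
  let col : V → Fin C := fun v => if h : v ∈ (U : Set V) then c ⟨v, h⟩ else 0
  have hcol : ∀ v (h : v ∈ (U : Set V)), col v = c ⟨v, h⟩ := fun v h => dif_pos h
  have hpig : ∀ j : Fin (C + 1), ∃ y : Fin C, t ≤ ((U ∩ W j).filter (fun v => col v = y)).card := by
    intro j
    obtain ⟨y, _, hy⟩ := exists_le_card_fiber_of_mul_le_card_of_maps_to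
      (s := U ∩ W j) (t := (univ : Finset (Fin C))) (f := col) (n := t)
      (fun _ _ => mem_univ _) ⟨0, mem_univ _⟩ (by
        rw [card_univ, Fintype.card_fin, hU3 j (mem_range.mpr j.2)]
        exact hs)
    exact ⟨y, hy⟩
  choose y hy using hpig
  have hni : ¬ Function.Injective y := by
    intro h
    have := Fintype.card_le_of_injective y h
    simp at this
  rw [Function.Injective] at hni
  push Not at hni
  obtain ⟨a, b, hab, hne⟩ := hni
  -- wlog a < b
  have main : ∀ a b : Fin (C + 1), a < b → y a = y b → False := by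
    intro a b hlt hab
    obtain ⟨S0, hS0, hS0c⟩ := exists_subset_card_eq (hy a)
    obtain ⟨T0, hT0, hT0c⟩ := exists_subset_card_eq (hy b)
    obtain ⟨v, hv, x, hx, hvx⟩ := hU4 b (mem_range.mpr b.2) a (mem_range.mpr hlt) S0
      (hS0.trans (filter_subset _ _)) hS0c T0 (hT0.trans (filter_subset _ _)) hT0c
    have hv1 := mem_filter.mp (hT0 hv)
    have hx1 := mem_filter.mp (hS0 hx)
    have hv2 := mem_inter.mp hv1.1
    have hx2 := mem_inter.mp hx1.1
    have hvne : v ≠ x := by
      intro h
      subst h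
      have h3 : Disjoint (W a) (W b) := hd (by simp; omega)
        (by simp; omega) (by
          intro h4
          exact absurd (Fin.ext h4) hlt.ne)
      exact disjoint_left.mp h3 hx2.2 hv2.2
    have hadj : ((SimpleGraph.fromEdgeSet (S : Set (Sym2 V))).induce (U : Set V)).Adj
        ⟨v, hv2.1⟩ ⟨x, hx2.1⟩ := by
      simp only [SimpleGraph.comap_adj, Function.Embedding.subtype_apply,
        SimpleGraph.fromEdgeSet_adj]
      exact ⟨hvx, hvne⟩
    apply c.valid hadj
    rw [← hcol v hv2.1, ← hcol x hx2.1, hv1.2, hx1.2, hab]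
  rcases lt_or_gt_of_ne hne with h | h
  · exact main a b h hab
  · exact main b a h hab.symm

theorem inv_card (S : Finset (Sym2 V)) (W : ℕ → Finset V) (Rem : Finset V) (s t C : ℕ)
    (U : Finset V) (hU : Inv S W Rem s t C U) : U.card ≤ (C + 1) * s := by
  have h1 : U ⊆ (range (C + 1)).biUnion (fun j => U ∩ W j) := by
    intro v hv
    have := hU.1 hv
    rw [mem_biUnion] at this ⊢
    obtain ⟨j, hj, hvj⟩ := this
    exact ⟨j, hj, mem_inter.mpr ⟨hv, hvj⟩⟩
  refine (card_le_card h1).trans ?_
  have h2 := card_biUnion_le_card_mul (range (C + 1)) (fun j => U ∩ W j) s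
    (fun j hj => (hU.2.2.1 j hj).le)
  rwa [card_range] at h2

end

end Pool.Agent.W166.Gnp
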