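import Pool.Agent.W166.Gnp.Basic

set_option autoImplicit false
set_option linter.unusedSectionVars false

/-! Expected number of copies of a fixed graph. -/

namespace Pool.Agent.W166.Gnp

open Finset

variable {V : Type} [DecidableEq V]

open Classical in
/-- labelled copies of `J` with vertex `i` in `D i`, all edges in `S` -/
noncomputable def copies {ι : Type} [Fintype ι] (J : SimpleGraph ι) (D : ι → Finset V)
    (S : Finset (Sym2 V)) : Finset (ι → V) :=
  (Fintype.piFinset D).filter (fun φ => Function.Injective φ ∧ ∀ a b, J.Adj a b → s(φ a, φ b) ∈ S)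

theorem mem_copies {ι : Type} [Fintype ι] {J : SimpleGraph ι} {D : ι → Finset V}
    {S : Finset (Sym2 V)} {φ : ι → V} : φ ∈ copies J D S ↔
      (∀ i, φ i ∈ D i) ∧ Function.Injective φ ∧ ∀ a b, J.Adj a b → s(φ a, φ b) ∈ S := by
  classical
  simp [copies]

theorem copies_expect {ι : Type} [Fintype ι] (J : SimpleGraph ι)
    [Fintype J.edgeSet] (D : ι → Finset V) {E : Finset (Sym2 V)} {p : ℝ} (h0 : 0 ≤ p) :
    Ex E p (fun S => ((copies J D S).card : ℝ)) ≤ (∏ i, ((D i).card : ℝ)) * p ^ J.edgeFinset.card := by
  classical
  have e1 : ∀ S, ((copies J D S).card : ℝ) = ∑ φ ∈ (Fintype.piFinset D).filter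
      (fun φ => Function.Injective φ),
      if (J.edgeFinset.image (Sym2.map φ)) ⊆ S then 1 else 0 := by
    intro S
    unfold copies
    rw [card_filter, sum_filter]
    push_cast
    apply sum_congr rfl
    intro φ _
    by_cases hφ : Function.Injective φ
    · simp only [hφ, true_and, if_true]
      have : (∀ a b, J.Adj a b → s(φ a, φ b) ∈ S) ↔ (J.edgeFinset.image (Sym2.map φ)) ⊆ S := by
        constructor
        · intro h e he
          rw [mem_image] at he
          obtain ⟨e', he', rfl⟩ := he
          induction e' with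
          | _ a b =>
            rw [SimpleGraph.mem_edgeFinset] at he'
            exact h a b he'
        · intro h a b hab
          apply h
          rw [mem_image]
          exact ⟨s(a, b), by rw [SimpleGraph.mem_edgeFinset]; exact hab, rfl⟩
      simp only [this]
    · simp [hφ]
  rw [show (fun S => ((copies J D S).card : ℝ)) = fun S => ∑ φ ∈ (Fintype.piFinset D).filter
      (fun φ => Function.Injective φ),
      if (J.edgeFinset.image (Sym2.map φ)) ⊆ S then (1 : ℝ) else 0 from funext e1]
  rw [Ex_sum]
  have e2 : ∀ φ ∈ (Fintype.piFinset D).filter (fun φ => Function.Injective φ),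
      Ex E p (fun S => if (J.edgeFinset.image (Sym2.map φ)) ⊆ S then (1 : ℝ) else 0) ≤
        p ^ J.edgeFinset.card := by
    intro φ hφ
    have hinj := (mem_filter.mp hφ).2
    have hc : (J.edgeFinset.image (Sym2.map φ)).card = J.edgeFinset.card :=
      card_image_of_injective _ (Sym2.map.injective hinj)
    by_cases hE : J.edgeFinset.image (Sym2.map φ) ⊆ E
    · have := Pr_superset hE p
      unfold Pr at this
      rw [hc] at this
      refine le_of_eq (Eq.trans ?_ this)
      apply Ex_congr
      intro S _
      congr
    · have : Ex E p (fun S => if (J.edgeFinset.image (Sym2.map φ)) ⊆ S then (1 : ℝ) else 0) =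
          Ex E p (fun _ => 0) := by
        apply Ex_congr
        intro S hS
        rw [if_neg]
        exact fun h => hE (h.trans hS)
      rw [this, Ex_const]
      positivity
  refine (sum_le_card_nsmul _ _ _ e2).trans ?_
  rw [nsmul_eq_mul]
  apply mul_le_mul_of_nonneg_right _ (by positivity)
  have h3 : ((Fintype.piFinset D).filter (fun φ => Function.Injective φ)).card ≤
      ∏ i, (D i).card := by
    rw [← Fintype.card_piFinset]
    exact card_filter_le _ _
  exact_mod_cast h3

/-- Markov for a random non-negative quantity. -/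
theorem Pr_markov {E : Finset (Sym2 V)} {p : ℝ} (h0 : 0 ≤ p) (h1 : p ≤ 1)
    (f : Finset (Sym2 V) → ℝ) (hf : ∀ S, S ⊆ E → 0 ≤ f S) (a b : ℝ) (ha : 0 < a)
    (h : Ex E p f ≤ b) : Pr E p (fun S => a ≤ f S) ≤ b / a := by
  have h2 : Pr E p (fun S => a ≤ f S) ≤ Ex E p (fun S => (1 / a) * f S) := by
    apply Pr_le_Ex h0 h1
    · intro S hS
      have := hf S hS
      positivity
    · intro S _ hS
      rw [one_div, inv_mul_eq_div, le_div_iff₀ ha]
      linarith
  rw [Ex_smul] at h2
  refine h2.trans ?_
  rw [one_div, inv_mul_eq_div]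
  exact div_le_div_of_nonneg_right h ha.le

end Pool.Agent.W166.Gnp
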