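import Pool.Agent.W166.Gnp.Transfer

set_option autoImplicit false

/-! The deterministic part of the construction for graphs of chromatic number at least four. -/

namespace Pool.Agent.W166.Gnp

open Finset Classical

variable {n : ℕ}

/-- neighbours of `X` outside `W` -/
noncomputable def NX (S : Finset (Sym2 (Fin n))) (W X : Finset (Fin n)) : Finset (Fin n) :=
  univ.filter (fun y => y ∉ W ∧ ∃ x ∈ X, s(y, x) ∈ S)

/-- the part of a vertex: the vertices of `NX` go to the last part -/
noncomputable def partA (q : ℕ) (S : Finset (Sym2 (Fin n))) (W X : Finset (Fin n))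
    (base : Fin n → ℕ) (y : Fin n) : ℕ := if y ∈ NX S W X then q - 1 else base y

/-- the graph of the construction -/
noncomputable def GA (q : ℕ) (S : Finset (Sym2 (Fin n))) (W X : Finset (Fin n))
    (base : Fin n → ℕ) : SimpleGraph (Fin n) where
  Adj u v := u ≠ v ∧ s(u, v) ∈ S ∧ ((u ∈ X ∧ v ∈ X) ∨ (u ∈ X ∧ v ∉ W) ∨ (u ∉ W ∧ v ∈ X) ∨
    (u ∉ X ∧ v ∉ X ∧ partA q S W X base u ≠ partA q S W X base v))
  symm := ⟨by
    intro u v h
    refine ⟨h.1.symm, by rw [Sym2.eq_swap]; exact h.2.1, ?_⟩
    rcases h.2.2 with h | h | h | h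
    · exact Or.inl ⟨h.2, h.1⟩
    · exact Or.inr (Or.inr (Or.inl ⟨h.2, h.1⟩))
    · exact Or.inr (Or.inl ⟨h.2, h.1⟩)
    · exact Or.inr (Or.inr (Or.inr ⟨h.2.1, h.1, h.2.2.symm⟩))⟩
  loopless := ⟨fun _ h => h.1 rfl⟩

theorem GA_spec {k q : ℕ} (hq : 3 ≤ q) (H : SimpleGraph (Fin k)) (hH : ¬ H.Colorable q)
    {S : Finset (Sym2 (Fin n))} (hS : S ⊆ allE n) (W X : Finset (Fin n)) (hXW : X ⊆ W)
    (base : Fin n → ℕ) (hbq : ∀ v, base v < q) (hb0 : ∀ w ∈ W, base w = 0)
    (hfree : ∀ l : ℕ, 3 ≤ l → l ≤ k → ∀ φ : Fin l → Fin n, Function.Injective φ →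
      (∀ i, φ i ∈ X) → (∀ a b, (SimpleGraph.cycleGraph l).Adj a b → s(φ a, φ b) ∈ S) → False)
    (C : ℕ)
    (hcol : ¬ ((SimpleGraph.fromEdgeSet (S : Set (Sym2 (Fin n)))).induce (X : Set (Fin n))).Colorable C)
    (D B : ℝ) (hB : 0 ≤ B)
    (hdeg : ∀ v : Fin n, ∀ j < q,
      D ≤ ((univ.filter (fun y => y ∉ W ∧ base y ≠ j ∧ s(v, y) ∈ S)).card : ℝ))
    (hbad : ∀ v ∉ W,
      ((univ.filter (fun y => y ∉ W ∧ s(v, y) ∈ S ∧ ∃ x ∈ X, s(y, x) ∈ S)).card : ℝ) ≤ B) :
    ∃ G : SimpleGraph (Fin n), G ≤ SimpleGraph.fromEdgeSet (S : Set (Sym2 (Fin n))) ∧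
      ¬ H.IsContained G ∧ (∀ v, D - B ≤ ((G.neighborSet v).ncard : ℝ)) ∧ ¬ G.Colorable C := by
  refine ⟨GA q S W X base, ?_, ?_, ?_, ?_⟩
  · intro u v h
    rw [SimpleGraph.fromEdgeSet_adj]
    exact ⟨h.2.1, h.1⟩
  · -- free
    rintro ⟨f⟩
    apply hH
    let A : Set (Fin k) := {a | f a ∈ X}
    have hac : (H.induce A).IsAcyclic := by
      rw [SimpleGraph.isAcyclic_iff_free_cycleGraph]
      intro l hl ⟨g⟩
      have hinj : Function.Injective g := g.injective
      apply hfree l hl ?_ (fun i => f (g i).1) ?_ ?_ ?_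
      · have h2 : Function.Injective (fun i => ((g i).1 : Fin k)) := fun a b hab =>
          hinj (Subtype.ext hab)
        have := Fintype.card_le_of_injective _ h2
        simpa using this
      · intro a b hab
        exact hinj (Subtype.ext (f.injective hab))
      · intro i
        exact (g i).2
      · intro a b hab
        have h1 : (H.induce A).Adj (g a) (g b) := g.toHom.map_adj hab
        have h2 : H.Adj (g a).1 (g b).1 := h1
        have h3 : (GA q S W X base).Adj (f (g a).1) (f (g b).1) := f.toHom.map_adj h2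
        exact h3.2.1
    obtain ⟨c⟩ := hac.colorable_two
    have hpart : ∀ y, partA q S W X base y < q := by
      intro y
      unfold partA
      split_ifs
      · omega
      · exact hbq y
    refine ⟨SimpleGraph.Coloring.mk (fun a => if h : a ∈ A then
      ⟨(c ⟨a, h⟩).1, by have := (c ⟨a, h⟩).2; omega⟩ else ⟨partA q S W X base (f a), hpart _⟩) ?_⟩
    intro a b hab heq
    have hG : (GA q S W X base).Adj (f a) (f b) := f.toHom.map_adj hab
    -- a vertex of X adjacent to a vertex outside X: the latter is in the last part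
    have key : ∀ a b : Fin k, (GA q S W X base).Adj (f a) (f b) → a ∈ A → b ∉ A →
        partA q S W X base (f b) = q - 1 := by
      intro a b hG ha hb
      have ha' : f a ∈ X := ha
      have hb' : f b ∉ X := hb
      have hW : f b ∉ W := by
        rcases hG.2.2 with h | h | h | h
        · exact absurd h.2 hb'
        · exact h.2
        · exact absurd h.2 hb'
        · exact absurd ha' h.1
      unfold partA
      rw [if_pos]
      unfold NX
      rw [mem_filter]
      exact ⟨mem_univ _, hW, f a, ha', by rw [Sym2.eq_swap]; exact hG.2.1⟩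
    by_cases ha : a ∈ A <;> by_cases hb : b ∈ A
    · rw [dif_pos ha, dif_pos hb, Fin.mk.injEq] at heq
      have h1 : (H.induce A).Adj ⟨a, ha⟩ ⟨b, hb⟩ := hab
      exact c.valid h1 (Fin.ext heq)
    · rw [dif_pos ha, dif_neg hb, Fin.mk.injEq] at heq
      have h1 := key a b hG ha hb
      have := (c ⟨a, ha⟩).2
      omega
    · rw [dif_neg ha, dif_pos hb, Fin.mk.injEq] at heq
      have h1 := key b a hG.symm hb ha
      have := (c ⟨b, hb⟩).2
      omega
    · rw [dif_neg ha, dif_neg hb, Fin.mk.injEq] at heq
      have ha' : f a ∉ X := ha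
      have hb' : f b ∉ X := hb
      rcases hG.2.2 with h | h | h | h
      · exact ha' h.1
      · exact ha' h.1
      · exact hb' h.2
      · exact h.2.2 heq
  · -- degrees
    intro v
    have hne : ∀ y, s(v, y) ∈ S → v ≠ y := fun y hy => mem_allE.mp (hS hy)
    rw [Set.ncard_eq_toFinset_card']
    by_cases hvX : v ∈ X
    · have h1 := hdeg v 0 (by omega)
      have h2 : univ.filter (fun y => y ∉ W ∧ base y ≠ 0 ∧ s(v, y) ∈ S) ⊆
          ((GA q S W X base).neighborSet v).toFinset := by
        intro y hy
        rw [mem_filter] at hy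
        rw [Set.mem_toFinset, SimpleGraph.mem_neighborSet]
        exact ⟨hne y hy.2.2.2, hy.2.2.2, Or.inr (Or.inl ⟨hvX, hy.2.1⟩)⟩
      have h3 : ((univ.filter (fun y => y ∉ W ∧ base y ≠ 0 ∧ s(v, y) ∈ S)).card : ℝ) ≤
          (((GA q S W X base).neighborSet v).toFinset.card : ℝ) := by
        exact_mod_cast card_le_card h2
      linarith
    · by_cases hlast : partA q S W X base v = q - 1
      · have hvW : v ∉ W := by
          intro hvW
          unfold partA at hlast
          split_ifs at hlast with h
          · unfold NX at h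
            rw [mem_filter] at h
            exact h.2.1 hvW
          · rw [hb0 v hvW] at hlast
            omega
        have h1 := hdeg v (q - 1) (by omega)
        have h4 := hbad v hvW
        have h2 : univ.filter (fun y => y ∉ W ∧ base y ≠ q - 1 ∧ s(v, y) ∈ S) ⊆
            ((GA q S W X base).neighborSet v).toFinset ∪
            univ.filter (fun y => y ∉ W ∧ s(v, y) ∈ S ∧ ∃ x ∈ X, s(y, x) ∈ S) := by
          intro y hy
          rw [mem_filter] at hy
          rw [mem_union]
          by_cases hN : ∃ x ∈ X, s(y, x) ∈ S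
          · right
            rw [mem_filter]
            exact ⟨mem_univ _, hy.2.1, hy.2.2.2, hN⟩
          · left
            rw [Set.mem_toFinset, SimpleGraph.mem_neighborSet]
            refine ⟨hne y hy.2.2.2, hy.2.2.2, Or.inr (Or.inr (Or.inr ⟨hvX, fun h => hy.2.1 (hXW h), ?_⟩))⟩
            rw [hlast]
            have : partA q S W X base y = base y := by
              unfold partA
              rw [if_neg]
              unfold NX
              rw [mem_filter]
              exact fun h => hN h.2.2
            rw [this]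
            exact hy.2.2.1.symm
        have h3 := (card_le_card h2).trans (card_union_le _ _)
        have h5 : ((univ.filter (fun y => y ∉ W ∧ base y ≠ q - 1 ∧ s(v, y) ∈ S)).card : ℝ) ≤
            (((GA q S W X base).neighborSet v).toFinset.card : ℝ) +
            ((univ.filter (fun y => y ∉ W ∧ s(v, y) ∈ S ∧ ∃ x ∈ X, s(y, x) ∈ S)).card : ℝ) := by
          exact_mod_cast h3
        linarith
      · have hvN : v ∉ NX S W X := by
          intro h
          apply hlast
          unfold partA
          rw [if_pos h]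
        have hpv : partA q S W X base v = base v := by
          unfold partA
          rw [if_neg hvN]
        have h1 := hdeg v (base v) (hbq v)
        have h2 : univ.filter (fun y => y ∉ W ∧ base y ≠ base v ∧ s(v, y) ∈ S) ⊆
            ((GA q S W X base).neighborSet v).toFinset := by
          intro y hy
          rw [mem_filter] at hy
          rw [Set.mem_toFinset, SimpleGraph.mem_neighborSet]
          refine ⟨hne y hy.2.2.2, hy.2.2.2, Or.inr (Or.inr (Or.inr ⟨hvX, fun h => hy.2.1 (hXW h), ?_⟩))⟩
          by_cases hyN : y ∈ NX S W X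
          · intro h
            apply hlast
            rw [h]
            unfold partA
            rw [if_pos hyN]
          · rw [hpv]
            have : partA q S W X base y = base y := by
              unfold partA
              rw [if_neg hyN]
            rw [this]
            exact hy.2.2.1.symm
        have h3 : ((univ.filter (fun y => y ∉ W ∧ base y ≠ base v ∧ s(v, y) ∈ S)).card : ℝ) ≤
            (((GA q S W X base).neighborSet v).toFinset.card : ℝ) := by
          exact_mod_cast card_le_card h2
        linarith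
  · -- chromatic number
    intro hc
    apply hcol
    obtain ⟨c⟩ := hc
    refine ⟨SimpleGraph.Coloring.mk (fun x => c x.1) ?_⟩
    intro a b hab
    apply c.valid
    rw [SimpleGraph.comap_adj, SimpleGraph.fromEdgeSet_adj] at hab
    exact ⟨hab.2, hab.1, Or.inl ⟨a.2, b.2⟩⟩

end Pool.Agent.W166.Gnp
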