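import Mathlib

set_option autoImplicit false

/-! The counterexample graph `H0` on ten vertices: `t₁ = 0`, `t₂ = 1`, leaves `2..6`, cloud `7,8,9`. -/

namespace Pool.Agent.W166.Gnp

open Finset

/-- the edges of `H0`, in one direction -/
def r0 (a b : Fin 10) : Prop :=
  (a = 0 ∧ (b = 1 ∨ b = 2 ∨ b = 3)) ∨ (a = 1 ∧ (b = 4 ∨ b = 5 ∨ b = 6)) ∨
    ((a = 2 ∨ a = 3 ∨ a = 4 ∨ a = 5 ∨ a = 6) ∧ (b = 7 ∨ b = 8 ∨ b = 9))

instance : DecidableRel r0 := fun a b => by unfold r0; infer_instance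

/-- the graph -/
def H0 : SimpleGraph (Fin 10) := SimpleGraph.fromRel r0

instance : DecidableRel H0.Adj := fun a b => by unfold H0; infer_instance

theorem H0_edges : H0.edgeFinset.card = 21 := by decide +kernel

/-- the edges of `H0` as ordered pairs -/
def E21 : Finset (Fin 10 × Fin 10) := univ.filter (fun q => r0 q.1 q.2)

theorem H0_dens : ∀ A : Finset (Fin 10), 3 ≤ A.card →
    2 * (E21.filter (fun q => q.1 ∈ A ∧ q.2 ∈ A)).card + 8 ≤ 5 * A.card := by
  decide +kernel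

/-- independence -/
def c1 (A : Finset (Fin 10)) : Prop := ∀ x ∈ A, ∀ y ∈ A, ¬ H0.Adj x y

/-- no 4-cycle in the complement -/
def c2 (A : Finset (Fin 10)) : Prop :=
  ∀ i ∈ ({7, 8, 9} : Finset (Fin 10)), ∀ i' ∈ ({7, 8, 9} : Finset (Fin 10)), i < i' →
      ∀ l ∈ ({2, 3, 4, 5, 6} : Finset (Fin 10)), ∀ l' ∈ ({2, 3, 4, 5, 6} : Finset (Fin 10)), l < l' →
      i ∈ A ∨ i' ∈ A ∨ l ∈ A ∨ l' ∈ A

/-- degree outside `A` -/
def dg (A : Finset (Fin 10)) (v : Fin 10) : ℕ := (univ.filter (fun w => w ∉ A ∧ H0.Adj v w)).card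

/-- edges end at leaves or isolated vertices -/
def c3 (A : Finset (Fin 10)) : Prop := ∀ x ∈ A, ∀ v, v ∉ A → H0.Adj x v → dg A v ≤ 1

/-- no two adjacent leaves with neighbours in the cloud -/
def c4 (A : Finset (Fin 10)) : Prop := ∀ u v, u ∉ A → v ∉ A → H0.Adj u v → dg A u = 1 →
      dg A v = 1 → ¬ ((∃ x ∈ A, H0.Adj x u) ∧ ∃ y ∈ A, H0.Adj y v)

instance : DecidablePred c1 := fun A => by unfold c1; infer_instance
instance : DecidablePred c2 := fun A => by unfold c2; infer_instance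
instance : DecidablePred c3 := fun A => by unfold c3; infer_instance
instance : DecidablePred c4 := fun A => by unfold c4; infer_instance

theorem H0_only : ∀ A : Finset (Fin 10), c1 A → c2 A → c3 A → c4 A → A = {7, 8, 9} := by
  decide +kernel

theorem H0_cloud : c1 {7, 8, 9} ∧ c3 {7, 8, 9} ∧ c4 {7, 8, 9} := by
  decide +kernel

end Pool.Agent.W166.Gnp
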