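import Pool.Agent.W166.Gnp.Row

set_option autoImplicit false
set_option linter.unusedSectionVars false

/-! One level of the construction: the probability that a level fails. -/

namespace Pool.Agent.W166.Gnp

open Finset

variable {V : Type} [DecidableEq V]

/-- the vertices of `A` whose row meets all the sets `Q j`, `j < i`, in at least `K` points -/
def Bset (S : Finset (Sym2 V)) (K : ℕ) (A : Finset V) (i : ℕ) (Q : ℕ → Finset V) : Finset V :=
  A.filter (fun v => ∀ j ∈ range i, K ≤ (S ∩ row v (Q j)).card)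

/-- the sets `Q j` without `S0` at `j0` -/
def Qb (U : Finset V) (W : ℕ → Finset V) (j0 : ℕ) (S0 : Finset V) (j : ℕ) : Finset V :=
  if j = j0 then (U ∩ W j) \ S0 else U ∩ W j

theorem Qb_sub (U : Finset V) (W : ℕ → Finset V) (j0 : ℕ) (S0 : Finset V) (j : ℕ) :
    Qb U W j0 S0 j ⊆ U ∩ W j := by
  unfold Qb
  split_ifs
  · exact sdiff_subset
  · exact subset_rfl

/-- the property of a level -/
def Lev (S : Finset (Sym2 V)) (K s t b k : ℕ) (W : ℕ → Finset V) (i : ℕ) : Prop :=
  ∀ U ⊆ (range i).biUnion W, (∀ j ∈ range i, (U ∩ W j).card = s) →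
    b ≤ (Bset S K (W i) i (fun j => U ∩ W j)).card ∧
    ∀ j0 ∈ range i, ∀ S0 ⊆ U ∩ W j0, S0.card = t →
      (Bset S K (W i) i (Qb U W j0 S0)).card < k

theorem Bset_cnt (S : Finset (Sym2 V)) (K i : ℕ) (A L : Finset V) (Q : ℕ → Finset V)
    (hQ : ∀ j ∈ range i, Q j ⊆ L) :
    (Bset S K A i Q).card = cnt A (fun v => row v L)
      (fun v S => ∀ j ∈ range i, K ≤ (S ∩ row v (Q j)).card) S := by
  unfold Bset cnt
  congr 1
  ext v
  simp only [mem_filter]
  apply and_congr_right
  intro _
  apply forall_congr'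
  intro j
  apply imp_congr_right
  intro hj
  rw [inter_row_row S v (hQ j hj)]

theorem lev_fail {E : Finset (Sym2 V)} {p : ℝ} (h0 : 0 ≤ p) (h1 : p ≤ 1) (K s t b k i : ℕ)
    (W : ℕ → Finset V) (hd : ((range (i + 1) : Finset ℕ) : Set ℕ).PairwiseDisjoint W)
    (hE : ∀ v ∈ W i, row v ((range i).biUnion W) ⊆ E) (g ν : ℝ)
    (hg : g ≤ ((s.choose K : ℝ) * (p ^ K * (1 - p) ^ (s - K))) ^ i)
    (hν : ((s.choose K : ℝ) * p ^ K) ^ (i - 1) * (((s - t).choose K : ℝ) * p ^ K) ≤ ν) :
    Pr E p (fun S => ¬ Lev S K s t b k W i) ≤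
      2 ^ ((range i).biUnion W).card * (2 ^ b * Real.exp (-(g * (W i).card / 2))) +
      2 ^ ((range i).biUnion W).card * (i * (2 ^ ((range i).biUnion W).card *
        ((1 / 4) ^ k * Real.exp (3 * ν * (W i).card)))) := by
  classical
  set L := (range i).biUnion W with hL
  have hd0 : ((range i : Finset ℕ) : Set ℕ).PairwiseDisjoint W :=
    hd.subset (by intro x hx; simp only [coe_range, Set.mem_Iio] at hx ⊢; omega)
  have hdi : Disjoint (W i) L := by
    rw [hL, disjoint_biUnion_right]
    intro j hj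
    rw [mem_range] at hj
    exact hd (by simp) (by simp; omega) (by omega)
  have hRd : ((W i : Finset V) : Set V).PairwiseDisjoint (fun v => row v L) := by
    intro v hv w hw hvw
    exact row_disjoint hvw (disjoint_left.mp hdi hv)
  have hQL : ∀ U : Finset V, ∀ j ∈ range i, U ∩ W j ⊆ L := fun U j hj =>
    inter_subset_right.trans (subset_biUnion_of_mem W hj)
  have hQd : ∀ Q : ℕ → Finset V, (∀ j, Q j ⊆ W j) →
      ((range i : Finset ℕ) : Set ℕ).PairwiseDisjoint Q := by
    intro Q hQ x hx y hy hxy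
    exact (hd0 hx hy hxy).mono (hQ x) (hQ y)
  -- the good event for a fixed `U`
  have key1 : ∀ U : Finset V, (∀ j ∈ range i, (U ∩ W j).card = s) →
      Pr E p (fun S => (Bset S K (W i) i (fun j => U ∩ W j)).card < b) ≤
        2 ^ b * Real.exp (-(g * (W i).card / 2)) := by
    intro U hU
    have h2 := lower_tail (E := E) h0 h1 (W i) (fun v => row v L) hE hRd
      (fun v S => ∀ j ∈ range i, K ≤ (S ∩ row v (U ∩ W j)).card) g (by
        intro v _
        refine le_trans ?_ (row_prob_ge h0 h1 K v (range i) (fun j => U ∩ W j)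
          (hQd _ (fun j => inter_subset_right)) (fun j hj => row_mono v (hQL U j hj)))
        refine hg.trans (le_of_eq ?_)
        rw [prod_congr rfl (fun j hj => by rw [hU j hj]), prod_const, card_range]) b
    refine le_trans (Pr_mono h0 h1 ?_) h2
    intro S _ hS
    rwa [Bset_cnt S K i (W i) L _ (fun j hj => hQL U j hj)] at hS
  have key2 : ∀ U : Finset V, (∀ j ∈ range i, (U ∩ W j).card = s) → ∀ j0 ∈ range i,
      ∀ S0 ⊆ U ∩ W j0, S0.card = t →
      Pr E p (fun S => k ≤ (Bset S K (W i) i (Qb U W j0 S0)).card) ≤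
        (1 / 4) ^ k * Real.exp (3 * ν * (W i).card) := by
    intro U hU j0 hj0 S0 hS0 hS0c
    have h2 := upper_tail (E := E) h0 h1 (W i) (fun v => row v L) hE hRd
      (fun v S => ∀ j ∈ range i, K ≤ (S ∩ row v (Qb U W j0 S0 j)).card) ν (by
        intro v _
        refine le_trans (row_prob_le h0 h1 K v (range i) (Qb U W j0 S0)
          (hQd _ (fun j => (Qb_sub U W j0 S0 j).trans inter_subset_right))
          (fun j hj => row_mono v ((Qb_sub U W j0 S0 j).trans (hQL U j hj)))) ?_
        refine le_trans (le_of_eq ?_) hν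
        rw [← mul_prod_erase (range i) _ hj0]
        rw [prod_congr rfl (g := fun _ => ((s.choose K : ℝ) * p ^ K)) (s₂ := (range i).erase j0)
          (by
            intro j hj
            rw [mem_erase] at hj
            unfold Qb
            rw [if_neg hj.1, hU j hj.2])]
        rw [prod_const, card_erase_of_mem hj0, card_range]
        unfold Qb
        rw [if_pos rfl, card_sdiff_of_subset hS0, hS0c, hU j0 hj0, mul_comm]) k
    refine le_trans (Pr_mono h0 h1 ?_) h2
    intro S _ hS
    rwa [Bset_cnt S K i (W i) L _ (fun j hj => (Qb_sub U W j0 S0 j).trans (hQL U j hj))] at hS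
  -- union bound
  let F1 : Finset (Finset V) := L.powerset.filter (fun U => ∀ j ∈ range i, (U ∩ W j).card = s)
  let F2 : Finset (Finset V × ℕ × Finset V) := (L.powerset ×ˢ ((range i) ×ˢ L.powerset)).filter
    (fun x => (∀ j ∈ range i, (x.1 ∩ W j).card = s) ∧ x.2.2 ⊆ x.1 ∩ W x.2.1 ∧ x.2.2.card = t)
  have hc1 : (F1.card : ℝ) ≤ 2 ^ L.card := by
    have : F1.card ≤ 2 ^ L.card := (card_filter_le _ _).trans (card_powerset L).le
    exact_mod_cast this
  have hc2 : (F2.card : ℝ) ≤ 2 ^ L.card * (i * 2 ^ L.card) := by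
    have : F2.card ≤ 2 ^ L.card * (i * 2 ^ L.card) := by
      refine (card_filter_le _ _).trans ?_
      rw [card_product, card_product, card_powerset, card_range]
    exact_mod_cast this
  have hpos1 : 0 ≤ 2 ^ b * Real.exp (-(g * (W i).card / 2)) := by positivity
  have hpos2 : 0 ≤ (1 / 4 : ℝ) ^ k * Real.exp (3 * ν * (W i).card) := by positivity
  calc Pr E p (fun S => ¬ Lev S K s t b k W i)
      ≤ Pr E p (fun S => (∃ U ∈ F1, (Bset S K (W i) i (fun j => U ∩ W j)).card < b) ∨
          (∃ x ∈ F2, k ≤ (Bset S K (W i) i (Qb x.1 W x.2.1 x.2.2)).card)) := by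
        apply Pr_mono h0 h1
        intro S _ hS
        unfold Lev at hS
        push Not at hS
        obtain ⟨U, hU1, hU2, hU3⟩ := hS
        by_cases hb : b ≤ (Bset S K (W i) i (fun j => U ∩ W j)).card
        · right
          obtain ⟨j0, hj0, S0, hS0, hS0c, hk⟩ := hU3 hb
          refine ⟨(U, j0, S0), ?_, hk⟩
          simp only [F2, mem_filter, mem_product, mem_powerset]
          exact ⟨⟨hU1, hj0, hS0.trans (hQL U j0 hj0)⟩, hU2, hS0, hS0c⟩
        · left
          refine ⟨U, ?_, by omega⟩
          simp only [F1, mem_filter, mem_powerset]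
          exact ⟨hU1, hU2⟩
    _ ≤ Pr E p (fun S => ∃ U ∈ F1, (Bset S K (W i) i (fun j => U ∩ W j)).card < b) +
          Pr E p (fun S => ∃ x ∈ F2, k ≤ (Bset S K (W i) i (Qb x.1 W x.2.1 x.2.2)).card) :=
        Pr_or_le h0 h1 _ _
    _ ≤ F1.card * (2 ^ b * Real.exp (-(g * (W i).card / 2))) +
          F2.card * ((1 / 4) ^ k * Real.exp (3 * ν * (W i).card)) := by
        apply add_le_add
        · refine (Pr_exists_le h0 h1 F1 _).trans ?_
          rw [← nsmul_eq_mul]
          apply sum_le_card_nsmul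
          intro U hU
          simp only [F1, mem_filter, mem_powerset] at hU
          exact key1 U hU.2
        · refine (Pr_exists_le h0 h1 F2 _).trans ?_
          rw [← nsmul_eq_mul]
          apply sum_le_card_nsmul
          intro x hx
          simp only [F2, mem_filter, mem_product, mem_powerset] at hx
          exact key2 x.1 hx.2.1 x.2.1 hx.1.2.1 x.2.2 hx.2.2.1 hx.2.2.2
    _ ≤ _ := by
        apply add_le_add
        · exact mul_le_mul_of_nonneg_right hc1 hpos1
        · refine (mul_le_mul_of_nonneg_right hc2 hpos2).trans (le_of_eq ?_)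
          ring

end Pool.Agent.W166.Gnp
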