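import Pool.Agent.W166.Gnp.Param

set_option autoImplicit false
set_option linter.unusedSectionVars false

/-! Small sets of large chromatic number in sparse random graphs. -/

namespace Pool.Agent.W166.Gnp

open Finset

theorem level_bound {V : Type} [DecidableEq V] {E : Finset (Sym2 V)} {p : ℝ} (h0 : 0 ≤ p)
    (h1 : p ≤ 1) (C K s t i B0 : ℕ) (hi1 : 1 ≤ i) (hiC : i ≤ C) (hB0 : 6 ≤ B0)
    (Q : ℕ → ℕ) (Γ θ : ℝ) (hΓ : 0 < Γ) (hθ : 0 ≤ θ)
    (hQ1 : 4 * (B0 : ℝ) ≤ Q i * (Γ / 4) ^ i) (hQ2 : Q i * (Γ / 4) ^ i ≤ 5 * (B0 : ℝ))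
    (hθB : 15 * 4 ^ C * (B0 : ℝ) * θ ≤ 1)
    (hb1 : (s.choose K : ℝ) * p ^ K ≤ Γ)
    (hb2 : ((s - t).choose K : ℝ) * p ^ K ≤ θ * Γ)
    (hb3 : Γ / 4 ≤ (s.choose K : ℝ) * (p ^ K * (1 - p) ^ (s - K)))
    (W : ℕ → Finset V) (hd : ((range (i + 1) : Finset ℕ) : Set ℕ).PairwiseDisjoint W)
    (hE : ∀ v ∈ W i, row v ((range i).biUnion W) ⊆ E)
    (hL : ((range i).biUnion W).card = cum Q i * s) (hW : (W i).card = lsz Q i * s) :
    Pr E p (fun S => ¬ Lev S K s t (B0 * (cum Q i + 1) * s) (3 * (cum Q i + 1) * s) W i) ≤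
      (1 + C) * Real.exp (-s) := by
  have hfail := lev_fail (E := E) h0 h1 K s t (B0 * (cum Q i + 1) * s) (3 * (cum Q i + 1) * s) i W
    hd hE ((Γ / 4) ^ i) (θ * Γ ^ i) (by
      apply pow_le_pow_left₀ (by positivity) hb3) (by
      have h2 : (0 : ℝ) ≤ (s.choose K : ℝ) * p ^ K := by positivity
      have h3 : (0 : ℝ) ≤ ((s - t).choose K : ℝ) * p ^ K := by positivity
      calc ((s.choose K : ℝ) * p ^ K) ^ (i - 1) * (((s - t).choose K : ℝ) * p ^ K)
          ≤ Γ ^ (i - 1) * (θ * Γ) := by gcongr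
        _ = θ * (Γ ^ (i - 1) * Γ) := by ring
        _ = θ * Γ ^ i := by rw [← pow_succ, Nat.sub_add_cancel hi1])
  refine hfail.trans ?_
  rw [hL, hW]
  have hlsz : lsz Q i = Q i * (cum Q i + 1) := by
    unfold lsz; rw [if_neg (by omega)]
  rw [hlsz]
  set l : ℝ := (cum Q i : ℝ) + 1 with hl
  have hl1 : 1 ≤ l := by
    rw [hl]; have : (0 : ℝ) ≤ cum Q i := Nat.cast_nonneg _; linarith
  have hs0 : (0 : ℝ) ≤ s := Nat.cast_nonneg s
  have hLs : (cum Q i : ℝ) * s ≤ l * s := by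
    rw [hl]; nlinarith
  have e1 : (2 : ℝ) ^ (cum Q i * s) = Real.exp ((cum Q i : ℝ) * s * Real.log 2) := by
    rw [← Real.rpow_natCast, Real.rpow_def_of_pos (by norm_num)]
    congr 1
    push_cast
    ring
  have e2 : (2 : ℝ) ^ (B0 * (cum Q i + 1) * s) = Real.exp (B0 * l * s * Real.log 2) := by
    rw [← Real.rpow_natCast, Real.rpow_def_of_pos (by norm_num)]
    congr 1
    push_cast
    ring
  have e3 : (1 / 4 : ℝ) ^ (3 * (cum Q i + 1) * s) = Real.exp (-(3 * l * s * Real.log 4)) := by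
    rw [← Real.rpow_natCast, Real.rpow_def_of_pos (by norm_num), Real.log_div (by norm_num) (by norm_num),
      Real.log_one]
    congr 1
    push_cast
    ring
  rw [e1, e2, e3]
  have t1 : Real.exp ((cum Q i : ℝ) * s * Real.log 2) * (Real.exp (B0 * l * s * Real.log 2) *
      Real.exp (-((Γ / 4) ^ i * ((Q i * (cum Q i + 1) * s : ℕ) : ℝ) / 2))) ≤ Real.exp (-s) := by
    rw [← Real.exp_add, ← Real.exp_add, Real.exp_le_exp]
    have h := exp_bound1 B0 l s ((cum Q i : ℝ) * s) (by exact_mod_cast hB0) hl1 hs0 hLs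
      (Q i * (Γ / 4) ^ i) hQ1
    refine le_trans (le_of_eq ?_) h
    push_cast
    rw [hl]
    ring
  have t2 : Real.exp ((cum Q i : ℝ) * s * Real.log 2) * ((i : ℝ) *
      (Real.exp ((cum Q i : ℝ) * s * Real.log 2) * (Real.exp (-(3 * l * s * Real.log 4)) *
      Real.exp (3 * (θ * Γ ^ i) * ((Q i * (cum Q i + 1) * s : ℕ) : ℝ))))) ≤
      i * Real.exp (-s) := by
    have hq : 3 * (θ * Γ ^ i) * Q i ≤ 1 := by
      have h5 : Γ ^ i = 4 ^ i * (Γ / 4) ^ i := by
        rw [div_pow]; field_simp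
      have h6 : (4 : ℝ) ^ i ≤ 4 ^ C := pow_le_pow_right₀ (by norm_num) hiC
      calc 3 * (θ * Γ ^ i) * Q i = 3 * θ * 4 ^ i * (Q i * (Γ / 4) ^ i) := by rw [h5]; ring
        _ ≤ 3 * θ * 4 ^ C * (5 * B0) := by gcongr
        _ = 15 * 4 ^ C * (B0 : ℝ) * θ := by ring
        _ ≤ 1 := hθB
    have h := exp_bound2 l s ((cum Q i : ℝ) * s) hl1 hs0 hLs (3 * (θ * Γ ^ i) * Q i) hq
    calc _ = i * Real.exp ((cum Q i : ℝ) * s * Real.log 2 + ((cum Q i : ℝ) * s * Real.log 2 +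
          (-(3 * l * s * Real.log 4) + 3 * (θ * Γ ^ i) * ((Q i * (cum Q i + 1) * s : ℕ) : ℝ)))) := by
          rw [Real.exp_add, Real.exp_add, Real.exp_add]; ring
      _ ≤ i * Real.exp (-s) := by
          apply mul_le_mul_of_nonneg_left _ (Nat.cast_nonneg i)
          rw [Real.exp_le_exp]
          refine le_trans (le_of_eq ?_) h
          push_cast
          rw [hl]
          ring
  refine (add_le_add t1 t2).trans ?_
  have hiC' : (i : ℝ) ≤ C := by exact_mod_cast hiC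
  have he : 0 < Real.exp (-(s : ℝ)) := Real.exp_pos _
  nlinarith

theorem level_main (C : ℕ) (hC : 1 ≤ C) (δ : ℝ) (hδ : 0 < δ) :
    ∃ (Λ : ℕ) (c1 : ℝ), 0 < Λ ∧ 0 < c1 ∧ ∀ η : ℝ, 0 < η → ∃ p0 : ℝ, 0 < p0 ∧
      ∀ p : ℝ, 0 < p → p ≤ p0 →
      ∃ s : ℕ, 1 ≤ η * s ∧ c1 ≤ s * p ∧ (s : ℝ) * p ≤ 1 ∧
      ∀ (V : Type) [DecidableEq V] (W : Finset V) (E : Finset (Sym2 V)), W.card = Λ * s →
        (∀ v ∈ W, ∀ w ∈ W, v ≠ w → s(v, w) ∈ E) →
        Pr E p (fun S => ¬ ∀ Rem : Finset V, Rem.card ≤ s → ∃ X ⊆ W, Disjoint X Rem ∧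
          (X.card : ℝ) * p ≤ δ ∧
          ¬ ((SimpleGraph.fromEdgeSet (S : Set (Sym2 V))).induce (X : Set V)).Colorable C) ≤ η := by
  classical
  have hC' : (1 : ℝ) ≤ C := by exact_mod_cast hC
  obtain ⟨D', hD'⟩ : ∃ D' : ℕ, D' = 4 ^ C * (C + 1) := ⟨_, rfl⟩
  have hD'1 : 1 ≤ D' := by rw [hD']; exact Nat.mul_pos (by positivity) (by omega)
  obtain ⟨B0, hB0⟩ : ∃ B0 : ℕ, B0 = 6 * D' := ⟨_, rfl⟩
  have hB06 : 6 ≤ B0 := by omega
  have hB0r : (6 : ℝ) ≤ B0 := by exact_mod_cast hB06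
  obtain ⟨K0, hK0⟩ := exists_K C hC (15 * 4 ^ C * B0) (by positivity)
  obtain ⟨K, hK⟩ : ∃ K : ℕ, K = K0 + 1 := ⟨_, rfl⟩
  have hK1 : 1 ≤ K := by omega
  set θ : ℝ := (1 - 1 / (C : ℝ)) ^ K with hθ
  have hC0 : 0 ≤ 1 - 1 / (C : ℝ) := by
    rw [sub_nonneg, div_le_one (by linarith)]; exact hC'
  have hθ0 : 0 ≤ θ := pow_nonneg hC0 _
  have hθB : 15 * 4 ^ C * (B0 : ℝ) * θ ≤ 1 := by
    refine le_trans ?_ hK0
    apply mul_le_mul_of_nonneg_left _ (by positivity)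
    rw [hθ, hK]
    apply pow_le_pow_of_le_one hC0 _ (by omega)
    have : 0 < 1 / (C : ℝ) := by positivity
    linarith
  obtain ⟨c0, hc0⟩ : ∃ c0 : ℝ, c0 = min (δ / (C + 1)) (1 / 2) := ⟨_, rfl⟩
  have hc0pos : 0 < c0 := by rw [hc0]; apply lt_min <;> positivity
  have hc0half : c0 ≤ 1 / 2 := by rw [hc0]; exact min_le_right _ _
  have hc0δ : (C + 1) * c0 ≤ δ := by
    have : c0 ≤ δ / (C + 1) := by rw [hc0]; exact min_le_left _ _
    rw [le_div_iff₀ (by positivity)] at this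
    linarith
  obtain ⟨Γ, hΓ⟩ : ∃ Γ : ℝ, Γ = c0 ^ K / K.factorial := ⟨_, rfl⟩
  have hΓpos : 0 < Γ := by
    rw [hΓ]
    have : (0 : ℝ) < K.factorial := by exact_mod_cast K.factorial_pos
    positivity
  have hΓ1 : Γ ≤ 1 := by
    rw [hΓ]
    have h1 : (1 : ℝ) ≤ K.factorial := by exact_mod_cast K.factorial_pos
    rw [div_le_one (by linarith)]
    have : c0 ^ K ≤ 1 := pow_le_one₀ hc0pos.le (by linarith)
    linarith
  let Q : ℕ → ℕ := fun i => ⌈4 * (B0 : ℝ) / (Γ / 4) ^ i⌉₊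
  have hg : ∀ i : ℕ, 0 < (Γ / 4) ^ i := fun i => by positivity
  have hg1 : ∀ i : ℕ, (Γ / 4) ^ i ≤ 1 := fun i => pow_le_one₀ (by positivity) (by linarith)
  have hQ1 : ∀ i, 4 * (B0 : ℝ) ≤ Q i * (Γ / 4) ^ i := by
    intro i
    have := Nat.le_ceil (4 * (B0 : ℝ) / (Γ / 4) ^ i)
    rwa [div_le_iff₀ (hg i)] at this
  have hQ2 : ∀ i, Q i * (Γ / 4) ^ i ≤ 5 * (B0 : ℝ) := by
    intro i
    have h2 : (Q i : ℝ) < 4 * (B0 : ℝ) / (Γ / 4) ^ i + 1 := Nat.ceil_lt_add_one (by positivity)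
    have h3 : Q i * (Γ / 4) ^ i ≤ (4 * (B0 : ℝ) / (Γ / 4) ^ i + 1) * (Γ / 4) ^ i :=
      mul_le_mul_of_nonneg_right h2.le (hg i).le
    have h4 : (4 * (B0 : ℝ) / (Γ / 4) ^ i + 1) * (Γ / 4) ^ i = 4 * B0 + (Γ / 4) ^ i := by
      have := (hg i).ne'
      field_simp
    have := hg1 i
    linarith
  refine ⟨cum Q (C + 1), c0 / 2, ?_, by positivity, ?_⟩
  · have : cum Q 1 ≤ cum Q (C + 1) := by
      have hmono : Monotone (cum Q) := monotone_nat_of_le_succ (fun i => by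
        rw [cum_succ]; omega)
      exact hmono (by omega)
    have h1 : cum Q 1 = 2 := rfl
    omega
  intro η hη
  refine ⟨min (c0 / (2 * K * (C + K))) (c0 * η / (2 * (C * (C + 1)))), ?_, ?_⟩
  · apply lt_min
    · have : (0 : ℝ) < K := by exact_mod_cast hK1
      positivity
    · positivity
  intro p hp hpp
  have hp2 : p ≤ c0 / (2 * K * (C + K)) := hpp.trans (min_le_left _ _)
  have hp3 : p ≤ c0 * η / (2 * (C * (C + 1))) := hpp.trans (min_le_right _ _)
  obtain ⟨t, ht⟩ : ∃ t, t = ⌊c0 / (C * p)⌋₊ := ⟨_, rfl⟩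
  obtain ⟨s, hs⟩ : ∃ s, s = C * t := ⟨_, rfl⟩
  obtain ⟨hb1, hb2, hb3, hb4, hb5⟩ := choose_bounds C K hC hK1 c0 hc0pos hc0half p hp hp2 t s ht hs
  rw [← hΓ] at hb1 hb2 hb3
  have hp1 : p ≤ 1 := by
    have hKr : (1 : ℝ) ≤ K := by exact_mod_cast hK1
    refine hp2.trans ?_
    rw [div_le_one (by positivity)]
    nlinarith
  have hsC : (C : ℝ) * (C + 1) ≤ η * s := by
    have h1 : p * (2 * (C * (C + 1))) ≤ c0 * η := by
      rwa [le_div_iff₀ (by positivity)] at hp3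
    have h2 : p * (C * (C + 1)) ≤ p * (η * s) := by nlinarith
    exact le_of_mul_le_mul_left h2 hp
  have hspos : (0 : ℝ) < s := by
    by_contra h
    have : (s : ℝ) ≤ 0 := not_lt.mp h
    nlinarith
  have hs1 : 1 ≤ s := by exact_mod_cast hspos
  have ht1 : 1 ≤ t := by
    rcases Nat.eq_zero_or_pos t with h | h
    · rw [h] at hs; omega
    · exact h
  have hts : t ≤ s := by rw [hs]; exact Nat.le_mul_of_pos_left t hC
  refine ⟨s, by nlinarith, hb5, by linarith, ?_⟩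
  intro V _ W E hW hE
  obtain ⟨f, hf1, hf2⟩ := partition (fun j => lsz Q j * s) W (C + 1) (by
    rw [← Finset.sum_mul, ← cum_eq, hW])
  -- the failure probability
  have hfail : Pr E p (fun S => ∃ i ∈ Icc 1 C,
      ¬ Lev S K s t (B0 * (cum Q i + 1) * s) (3 * (cum Q i + 1) * s) f i) ≤ η := by
    refine (Pr_exists_le hp.le hp1 _ _).trans ?_
    have h1 : ∀ i ∈ Icc 1 C, Pr E p (fun S => ¬ Lev S K s t (B0 * (cum Q i + 1) * s)
        (3 * (cum Q i + 1) * s) f i) ≤ (1 + C) * Real.exp (-s) := by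
      intro i hi
      rw [mem_Icc] at hi
      have hdi : ((range (i + 1) : Finset ℕ) : Set ℕ).PairwiseDisjoint f := by
        apply hf2.subset
        intro x hx
        simp only [coe_range, Set.mem_Iio] at hx ⊢
        omega
      have hdi0 : ((range i : Finset ℕ) : Set ℕ).PairwiseDisjoint f := by
        apply hf2.subset
        intro x hx
        simp only [coe_range, Set.mem_Iio] at hx ⊢
        omega
      apply level_bound hp.le hp1 C K s t i B0 hi.1 hi.2 hB06 Q Γ θ hΓpos hθ0 (hQ1 i) (hQ2 i) hθB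
        hb1 hb2 hb3 f hdi
      · intro v hv e he
        rw [mem_row] at he
        obtain ⟨a, ha, rfl⟩ := he
        rw [mem_biUnion] at ha
        obtain ⟨j, hj, haj⟩ := ha
        rw [mem_range] at hj
        apply hE v ((hf1 i (mem_range.mpr (by omega))).1 hv) a
          ((hf1 j (mem_range.mpr (by omega))).1 haj)
        rintro rfl
        have hdis : Disjoint (f i) (f j) := hf2 (by simp; omega) (by simp; omega) (by omega)
        exact disjoint_left.mp hdis hv haj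
      · rw [card_biUnion hdi0, cum_eq, Finset.sum_mul]
        apply sum_congr rfl
        intro j hj
        rw [mem_range] at hj
        exact (hf1 j (mem_range.mpr (by omega))).2
      · exact (hf1 i (mem_range.mpr (by omega))).2
    refine (sum_le_card_nsmul _ _ _ h1).trans ?_
    rw [Nat.card_Icc, nsmul_eq_mul]
    have h2 : Real.exp (-(s : ℝ)) ≤ 1 / s := by
      rw [Real.exp_neg, ← one_div]
      apply one_div_le_one_div_of_le hspos
      have := Real.add_one_le_exp (s : ℝ)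
      linarith
    have h3 : ((C + 1 - 1 : ℕ) : ℝ) = C := by simp
    rw [h3]
    calc (C : ℝ) * ((1 + C) * Real.exp (-s)) ≤ C * ((1 + C) * (1 / s)) := by gcongr
      _ = (C * (C + 1)) / s := by ring
      _ ≤ η := by rw [div_le_iff₀ hspos]; exact hsC
  refine (Pr_mono hp.le hp1 ?_).trans hfail
  intro S _ hS
  by_contra hno
  apply hS
  push Not at hno
  intro Rem hRem
  have hT : (C * s.choose t) * s.choose t < D' ^ t := by
    have h1 : s.choose t ≤ 2 ^ s := Nat.choose_le_two_pow s t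
    have h2 : (C * s.choose t) * s.choose t ≤ C * 4 ^ s := by
      calc (C * s.choose t) * s.choose t ≤ (C * 2 ^ s) * 2 ^ s := by gcongr
        _ = C * 4 ^ s := by rw [mul_assoc, ← mul_pow]; norm_num
    have h3 : D' ^ t = 4 ^ s * (C + 1) ^ t := by
      rw [hD', mul_pow, ← pow_mul, ← hs]
    have h4 : C < (C + 1) ^ t := by
      calc C < C + 1 := Nat.lt_succ_self C
        _ = (C + 1) ^ 1 := (pow_one _).symm
        _ ≤ (C + 1) ^ t := Nat.pow_le_pow_right (by omega) ht1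
    rw [h3]
    calc (C * s.choose t) * s.choose t ≤ C * 4 ^ s := h2
      _ < (C + 1) ^ t * 4 ^ s := Nat.mul_lt_mul_of_pos_right h4 (by positivity)
      _ = 4 ^ s * (C + 1) ^ t := by ring
  have hls : ∀ i, s ≤ (cum Q i + 1) * s := fun i => Nat.le_mul_of_pos_left s (by omega)
  obtain ⟨U, hU⟩ := inv_all S f Rem K s t D' C (fun i => B0 * (cum Q i + 1) * s)
    (fun i => 3 * (cum Q i + 1) * s) hf2 hD'1 (by
      intro i
      have h1 := hls i
      have h2 : (cum Q i + 1) * s ≤ D' * ((cum Q i + 1) * s) := Nat.le_mul_of_pos_left _ hD'1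
      calc D' * (3 * (cum Q i + 1) * s) + Rem.card
          ≤ 3 * (D' * ((cum Q i + 1) * s)) + D' * ((cum Q i + 1) * s) := by
            have : D' * (3 * (cum Q i + 1) * s) = 3 * (D' * ((cum Q i + 1) * s)) := by ring
            omega
        _ ≤ 6 * (D' * ((cum Q i + 1) * s)) := by omega
        _ = B0 * (cum Q i + 1) * s := by rw [hB0]; ring) hT hts (by
      intro i
      have h1 := hls i
      have : 3 * (cum Q i + 1) * s = 3 * ((cum Q i + 1) * s) := by ring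
      omega) (by
      intro i
      have h1 := hls i
      have h2 : (cum Q i + 1) * s ≤ D' * ((cum Q i + 1) * s) := Nat.le_mul_of_pos_left _ hD'1
      have h3 : B0 * (cum Q i + 1) * s = 6 * (D' * ((cum Q i + 1) * s)) := by rw [hB0]; ring
      omega) (by
      have h1 := (hf1 0 (mem_range.mpr (by omega))).2
      have h2 : lsz Q 0 = 2 := rfl
      rw [h2] at h1
      omega) (fun i hi1 hiC => hno i (mem_Icc.mpr ⟨hi1, hiC⟩)) C le_rfl
  refine ⟨U, ?_, hU.2.1, ?_, ?_⟩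
  · refine hU.1.trans ?_
    exact biUnion_subset.mpr (fun j hj => (hf1 j hj).1)
  · have h1 := inv_card S f Rem s t C U hU
    have h2 : (U.card : ℝ) ≤ (C + 1) * s := by exact_mod_cast h1
    calc (U.card : ℝ) * p ≤ (C + 1) * s * p := mul_le_mul_of_nonneg_right h2 hp.le
      _ = (C + 1) * (s * p) := by ring
      _ ≤ (C + 1) * c0 := mul_le_mul_of_nonneg_left hb4 (by positivity)
      _ ≤ δ := hc0δ
  · exact inv_not_colorable S f Rem s t C hC hs.ge hf2 U hU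

end Pool.Agent.W166.Gnp
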