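import Pool.Agent.W166.Gnp.ProbB

set_option autoImplicit false

/-! Dense `H0`-free subgraphs of large chromatic number of sparse random graphs. -/

namespace Pool.Agent.W166.Gnp

open Finset Classical

theorem mainB (C : ℕ) (ε : ℝ) (hε : 0 < ε) (η : ℝ) (hη : 0 < η) :
    ∃ (p0 A a : ℝ) (n0 : ℕ), 0 < p0 ∧ 0 < A ∧ 0 < a ∧ ∀ n : ℕ, n0 ≤ n → ∀ p : ℝ, 0 < p → p ≤ p0 →
      A ≤ p ^ 2 * n → (n : ℝ) ^ 7 * p ^ 19 ≤ a →
      Pr (allE n) p (fun S => ¬ ∃ G : SimpleGraph (Fin n),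
        G ≤ SimpleGraph.fromEdgeSet (S : Set (Sym2 (Fin n))) ∧ ¬ H0.IsContained G ∧
        (∀ v, (1 / 2 - ε) * (p * n) ≤ ((G.neighborSet v).ncard : ℝ)) ∧
        ¬ G.Colorable C) ≤ η := by
  obtain ⟨ε1, hε1⟩ : ∃ ε1 : ℝ, ε1 = min ε 1 / 8 := ⟨_, rfl⟩
  have hε1pos : 0 < ε1 := by
    rw [hε1]; have : 0 < min ε 1 := lt_min hε one_pos
    positivity
  have hε1ε : 4 * ε1 ≤ ε := by
    rw [hε1]; have := min_le_left ε 1; linarith
  have hε18 : ε1 ≤ 1 / 8 := by
    rw [hε1]; have := min_le_right ε 1; linarith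
  obtain ⟨C', hC'⟩ : ∃ C' : ℕ, C' = max C 1 := ⟨_, rfl⟩
  have hC'1 : 1 ≤ C' := by rw [hC']; exact le_max_right _ _
  have hCC' : C ≤ C' := by rw [hC']; exact le_max_left _ _
  obtain ⟨Λ, c1, hΛ, hc1, hlev⟩ := level_main C' hC'1 (ε1 / 6) (by positivity)
  obtain ⟨p00, hp00, hlev⟩ := hlev (η / 6) (by positivity)
  have hΛr : (1 : ℝ) ≤ Λ := by exact_mod_cast hΛ
  obtain ⟨A, hA⟩ : ∃ A : ℝ, A = max 1 (8 * Λ / ε1) := ⟨_, rfl⟩
  have hA1 : 1 ≤ A := by rw [hA]; exact le_max_left _ _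
  have hA2 : 8 * Λ ≤ ε1 * A := by
    have : 8 * Λ / ε1 ≤ A := by rw [hA]; exact le_max_right _ _
    rw [div_le_iff₀ hε1pos] at this
    linarith
  obtain ⟨a, ha⟩ : ∃ a : ℝ, a = ε1 * η / (12 * Λ ^ 3) := ⟨_, rfl⟩
  have hapos : 0 < a := by rw [ha]; positivity
  have haΛ : 12 * Λ ^ 3 * a = ε1 * η := by rw [ha]; field_simp
  -- the threshold
  obtain ⟨n0, hn0⟩ : ∃ n0 : ℕ, ∀ n : ℕ, n0 ≤ n → 3 ≤ n ∧ 4 ≤ ε1 * n ∧ 12 ≤ η * n ∧
      2 * Λ ≤ ε1 * Real.sqrt n ∧ 16 * Real.log n ≤ ε1 ^ 2 * Real.sqrt n := by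
    have hsq : Filter.Tendsto (fun n : ℕ => Real.sqrt (n : ℝ)) Filter.atTop Filter.atTop :=
      Real.tendsto_sqrt_atTop.comp tendsto_natCast_atTop_atTop
    have h1 : ∀ᶠ n : ℕ in Filter.atTop, 3 ≤ n := Filter.eventually_ge_atTop 3
    have h2 : ∀ᶠ n : ℕ in Filter.atTop, 4 / ε1 ≤ (n : ℝ) :=
      tendsto_natCast_atTop_atTop.eventually_ge_atTop _
    have h3 : ∀ᶠ n : ℕ in Filter.atTop, 12 / η ≤ (n : ℝ) :=
      tendsto_natCast_atTop_atTop.eventually_ge_atTop _
    have h4 : ∀ᶠ n : ℕ in Filter.atTop, 2 * Λ / ε1 ≤ Real.sqrt (n : ℝ) :=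
      hsq.eventually_ge_atTop _
    have h5 : ∀ᶠ n : ℕ in Filter.atTop, 16 * Real.log n ≤ ε1 ^ 2 * Real.sqrt n := by
      have h6 := (isLittleO_log_rpow_atTop (show (0 : ℝ) < 1 / 2 by norm_num)).comp_tendsto
        tendsto_natCast_atTop_atTop
      have h7 := h6.def (c := ε1 ^ 2 / 16) (by positivity)
      filter_upwards [h7, Filter.eventually_ge_atTop 1] with n hn hn1
      have hn1' : (1 : ℝ) ≤ n := by exact_mod_cast hn1
      simp only [Function.comp_apply, Real.norm_eq_abs] at hn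
      have hlog : 0 ≤ Real.log (n : ℝ) := Real.log_nonneg hn1'
      rw [abs_of_nonneg hlog, ← Real.sqrt_eq_rpow, abs_of_nonneg (Real.sqrt_nonneg _)] at hn
      linarith
    obtain ⟨n0, hn0⟩ := Filter.eventually_atTop.mp (h1.and (h2.and (h3.and (h4.and h5))))
    refine ⟨n0, fun n hn => ?_⟩
    obtain ⟨a1, a2, a3, a4, a5⟩ := hn0 n hn
    rw [div_le_iff₀ (by positivity)] at a2 a3 a4
    exact ⟨a1, by linarith, by linarith, by linarith, a5⟩
  refine ⟨min p00 1, A, a, n0, lt_min hp00 one_pos, by linarith, hapos, ?_⟩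
  intro n hn p hp hpp hpA hpa
  obtain ⟨hn3, hn4, hnη, hnΛ, hnlog⟩ := hn0 n hn
  have hp00' : p ≤ p00 := hpp.trans (min_le_left _ _)
  have hp1 : p ≤ 1 := hpp.trans (min_le_right _ _)
  have hn3r : (3 : ℝ) ≤ n := by exact_mod_cast hn3
  have hnpos : (0 : ℝ) < n := by linarith
  -- `p n ≥ √n`
  have hpn : Real.sqrt n ≤ p * n := by
    rw [Real.sqrt_le_left (by positivity)]
    have : (p * n) ^ 2 = (p ^ 2 * n) * n := by ring
    rw [this]
    nlinarith
  obtain ⟨s, hs1, hs2, hs3, hlev⟩ := hlev p hp hp00'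
  have hspos : (0 : ℝ) < s := by
    by_contra h
    have : (s : ℝ) ≤ 0 := not_lt.mp h
    nlinarith
  have hsp0 : 0 ≤ (s : ℝ) * p := by positivity
  -- size of W
  have hΛs : (Λ : ℝ) * s ≤ ε1 / 2 * n := by
    have h1 : (Λ : ℝ) * s * p ≤ (ε1 / 2 * n) * p := by
      have h2 : (Λ : ℝ) * (s * p) ≤ Λ * 1 := mul_le_mul_of_nonneg_left hs3 (Nat.cast_nonneg _)
      have h3 : ε1 * Real.sqrt n ≤ ε1 * (p * n) := mul_le_mul_of_nonneg_left hpn hε1pos.le
      nlinarith
    exact le_of_mul_le_mul_right h1 hp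
  have hΛn : Λ * s ≤ n := by
    have : (Λ : ℝ) * s ≤ n := by nlinarith
    exact_mod_cast this
  obtain ⟨W, -, hW⟩ := exists_subset_card_eq (s := (univ : Finset (Fin n))) (n := Λ * s)
    (by rw [card_univ, Fintype.card_fin]; exact hΛn)
  have hWr : (W.card : ℝ) = Λ * s := by rw [hW]; push_cast; ring
  obtain ⟨base, hbase⟩ : ∃ base : Fin n → ℕ, base = fun y => if y ∈ W then 0 else y.val % 2 :=
    ⟨_, rfl⟩
  have hbase2 : ∀ v, base v < 2 := by
    intro v
    rw [hbase]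
    simp only
    split_ifs
    · omega
    · exact Nat.mod_lt _ (by omega)
  obtain ⟨z, hz⟩ : ∃ z : ℝ, z = (1 / 2 - ε1) * n := ⟨_, rfl⟩
  have hz4 : (n : ℝ) / 4 ≤ z := by
    rw [hz]
    nlinarith
  have hzZ : ∀ v, ∀ j < 2, z ≤ ((Zs W base v j).card : ℝ) := by
    intro v j _
    have h1 := card_Zs n 2 W v j
    rw [← hbase, hW] at h1
    have h2 : (n : ℝ) ≤ Λ * s + ((n / 2 : ℕ) + 1) + 1 + (Zs W base v j).card := by
      exact_mod_cast h1
    have h3 : ((n / 2 : ℕ) : ℝ) ≤ n / 2 := by exact_mod_cast Nat.cast_div_le (α := ℝ) (m := n) (n := 2)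
    rw [hz]
    nlinarith
  -- the five failure events
  obtain ⟨k, hk⟩ : ∃ k : ℕ, k = ⌈ε1 * (p * n)⌉₊ := ⟨_, rfl⟩
  have hb : 0 < ε1 * (p * n) := by positivity
  have F1 := hlev (Fin n) W (allE n) hW (by
      intro v _ w _ hvw
      rw [mem_allE]
      exact hvw)
  have F2 := deg_event_all W base 2 hp.le hp1 hε1pos.le (by linarith) hzZ
  have F3 := priv_all W (δ := ε1 / 6) hp.le hp1 k
  have F4 := RemA_bound W hp.le hp1 (s / 2) (by positivity)
  have F5 := RemB_bound W hp.le hp1 (ε1 * (p * n)) (s / 2) hb (by positivity)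
  have G2 : (n : ℝ) * ((2 : ℕ) * Real.exp (-(ε1 ^ 2 / 2 * (p * z)))) ≤ η / 6 := by
    have e1 : Real.exp (-(ε1 ^ 2 / 2 * (p * z))) ≤ 1 / (n : ℝ) ^ 2 := by
      have hexp2 : Real.exp (-(2 * Real.log n)) = 1 / (n : ℝ) ^ 2 := by
        rw [Real.exp_neg, show 2 * Real.log (n : ℝ) = Real.log n + Real.log n by ring, Real.exp_add,
          Real.exp_log hnpos, one_div, sq]
      rw [← hexp2, Real.exp_le_exp, neg_le_neg_iff]
      have h3 : p * (n / 4) ≤ p * z := mul_le_mul_of_nonneg_left hz4 hp.le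
      have h4 : ε1 ^ 2 / 2 * (p * (n / 4)) ≤ ε1 ^ 2 / 2 * (p * z) :=
        mul_le_mul_of_nonneg_left h3 (by positivity)
      have h5 : ε1 ^ 2 / 8 * Real.sqrt n ≤ ε1 ^ 2 / 8 * (p * n) :=
        mul_le_mul_of_nonneg_left hpn (by positivity)
      linarith
    calc _ ≤ (n : ℝ) * ((2 : ℕ) * (1 / (n : ℝ) ^ 2)) := by gcongr
      _ = 2 / n := by push_cast; field_simp
      _ ≤ η / 6 := by
          rw [div_le_div_iff₀ hnpos (by norm_num)]
          linarith
  have G3 : (W.card : ℝ) * (2 ^ W.card * ((1 / 4) ^ k * Real.exp (3 * (ε1 / 6 * p) * n))) ≤ η / 6 := by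
    have h3 : (1 / 4 : ℝ) ^ k ≤ Real.exp (-(ε1 * (p * n))) := by
      have h4 : (1 / 4 : ℝ) ≤ Real.exp (-1) := by
        rw [Real.exp_neg, ← one_div]
        apply one_div_le_one_div_of_le (Real.exp_pos _)
        have := Real.exp_one_lt_d9
        linarith
      calc (1 / 4 : ℝ) ^ k ≤ (Real.exp (-1)) ^ k := pow_le_pow_left₀ (by norm_num) h4 _
        _ = Real.exp (-(k : ℝ)) := by
            rw [← Real.exp_nat_mul]; ring_nf
        _ ≤ Real.exp (-(ε1 * (p * n))) := by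
            rw [Real.exp_le_exp, neg_le_neg_iff, hk]
            exact Nat.le_ceil _
    have h5 : (W.card : ℝ) * 2 ^ W.card ≤ Real.exp (2 * (Λ * s)) := by
      have h6 : (W.card : ℝ) ≤ 2 ^ W.card := by
        exact_mod_cast Nat.lt_two_pow_self.le
      have h7 : (4 : ℝ) ≤ Real.exp 2 := by
        have h8 : Real.exp 2 = Real.exp 1 * Real.exp 1 := by rw [← Real.exp_add]; norm_num
        have := Real.exp_one_gt_d9
        rw [h8]
        nlinarith
      calc (W.card : ℝ) * 2 ^ W.card ≤ 2 ^ W.card * 2 ^ W.card := by gcongr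
        _ = 4 ^ W.card := by rw [← mul_pow]; norm_num
        _ ≤ (Real.exp 2) ^ W.card := pow_le_pow_left₀ (by norm_num) h7 _
        _ = Real.exp (2 * (Λ * s)) := by
            rw [← Real.exp_nat_mul, hWr]; ring_nf
    have h9 : 2 * ((Λ : ℝ) * s) ≤ ε1 / 4 * (p * n) := by
      have h10 : 2 * ((Λ : ℝ) * s) * p ≤ ε1 / 4 * (p * n) * p := by
        have h2 : (Λ : ℝ) * (s * p) ≤ Λ * 1 := mul_le_mul_of_nonneg_left hs3 (Nat.cast_nonneg _)
        have h3 : ε1 * A ≤ ε1 * (p ^ 2 * n) := mul_le_mul_of_nonneg_left hpA hε1pos.le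
        nlinarith
      exact le_of_mul_le_mul_right h10 hp
    have hlog : 0 ≤ Real.log (n : ℝ) := Real.log_nonneg (by linarith)
    have h11 : Real.log n ≤ ε1 / 4 * (p * n) := by
      have h12 : ε1 ^ 2 * Real.sqrt n ≤ ε1 * Real.sqrt n := by
        apply mul_le_mul_of_nonneg_right _ (Real.sqrt_nonneg _)
        nlinarith
      have h13 : ε1 * Real.sqrt n ≤ ε1 * (p * n) := mul_le_mul_of_nonneg_left hpn hε1pos.le
      linarith
    calc (W.card : ℝ) * (2 ^ W.card * ((1 / 4) ^ k * Real.exp (3 * (ε1 / 6 * p) * n)))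
        = ((W.card : ℝ) * 2 ^ W.card) * ((1 / 4) ^ k * Real.exp (3 * (ε1 / 6 * p) * n)) := by ring
      _ ≤ Real.exp (2 * (Λ * s)) * (Real.exp (-(ε1 * (p * n))) *
          Real.exp (3 * (ε1 / 6 * p) * n)) := by gcongr
      _ = Real.exp (2 * (Λ * s) - ε1 / 2 * (p * n)) := by
          rw [← Real.exp_add, ← Real.exp_add]; ring_nf
      _ ≤ Real.exp (-Real.log n) := by
          rw [Real.exp_le_exp]
          linarith
      _ = 1 / n := by rw [Real.exp_neg, Real.exp_log hnpos, one_div]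
      _ ≤ η / 6 := by
          rw [div_le_div_iff₀ hnpos (by norm_num)]
          linarith
  have hn7 : 0 ≤ (n : ℝ) ^ 7 * p ^ 19 := by positivity
  have G4 : (W.card : ℝ) ^ 3 * n ^ 7 * p ^ 21 / (s / 2) ≤ η / 6 := by
    rw [hWr]
    calc ((Λ : ℝ) * s) ^ 3 * n ^ 7 * p ^ 21 / (s / 2)
        = 2 * Λ ^ 3 * (s * p) ^ 2 * ((n : ℝ) ^ 7 * p ^ 19) := by field_simp
      _ ≤ 2 * Λ ^ 3 * 1 ^ 2 * a := by gcongr
      _ ≤ η / 6 := by nlinarith
  have G5 : (W.card : ℝ) ^ 2 * n ^ 8 * p ^ 21 / (s / 2 * (ε1 * (p * n))) ≤ η / 6 := by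
    rw [hWr]
    have hΛ23 : (Λ : ℝ) ^ 2 ≤ Λ ^ 3 := pow_le_pow_right₀ hΛr (by norm_num)
    calc ((Λ : ℝ) * s) ^ 2 * n ^ 8 * p ^ 21 / (s / 2 * (ε1 * (p * n)))
        = 2 * Λ ^ 2 * (s * p) * ((n : ℝ) ^ 7 * p ^ 19) / ε1 := by field_simp
      _ ≤ 2 * Λ ^ 3 * 1 * a / ε1 := by gcongr
      _ = η / 6 := by
          rw [div_eq_iff hε1pos.ne']
          linarith
  -- union bound
  have htot : η / 6 + (η / 6 + (η / 6 + (η / 6 + η / 6))) ≤ η := by linarith
  refine le_trans ?_ htot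
  refine le_trans ?_ (add_le_add F1 (add_le_add (F2.trans G2) (add_le_add (F3.trans G3)
    (add_le_add (F4.trans G4) (F5.trans G5)))))
  refine le_trans ?_ (add_le_add le_rfl (add_le_add le_rfl (add_le_add le_rfl
    (Pr_or_le hp.le hp1 _ _))))
  refine le_trans ?_ (add_le_add le_rfl (add_le_add le_rfl (Pr_or_le hp.le hp1 _ _)))
  refine le_trans ?_ (add_le_add le_rfl (Pr_or_le hp.le hp1 _ _))
  refine le_trans ?_ (Pr_or_le hp.le hp1 _ _)
  apply Pr_mono hp.le hp1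
  intro S hS hbad
  by_contra hno
  rw [not_or, not_or, not_or, not_or] at hno
  obtain ⟨hno1, hno2, hno3, hno4, hno5⟩ := hno
  rw [not_not] at hno1
  push Not at hno2 hno3 hno4 hno5
  apply hbad
  have hRem : (RemA W S ∪ RemB W (ε1 * (p * n)) S).card ≤ s := by
    have h1 := card_union_le (RemA W S) (RemB W (ε1 * (p * n)) S)
    have h2 : ((RemA W S ∪ RemB W (ε1 * (p * n)) S).card : ℝ) ≤
        (RemA W S).card + (RemB W (ε1 * (p * n)) S).card := by exact_mod_cast h1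
    have h3 : ((RemA W S ∪ RemB W (ε1 * (p * n)) S).card : ℝ) ≤ s := by linarith
    exact_mod_cast h3
  obtain ⟨X, hXW, hXR, hXp, hXc⟩ := hno1 _ hRem
  rw [disjoint_union_right] at hXR
  obtain ⟨hXA, hXB⟩ := hXR
  obtain ⟨Y1, hY1⟩ : ∃ Y1 : Finset (Fin n), Y1 = univ.filter (fun y => y ∉ W ∧ base y = 0) := ⟨_, rfl⟩
  obtain ⟨Y2, hY2⟩ : ∃ Y2 : Finset (Fin n), Y2 = univ.filter (fun y => y ∉ W ∧ base y = 1) := ⟨_, rfl⟩
  obtain ⟨G, hG1, hG2, hG3, hG4⟩ := GB_spec hS W X Y1 Y2 hXW (by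
      rw [disjoint_left, hY1]
      intro y hy
      rw [mem_filter] at hy
      exact hy.2.1) (by
      rw [disjoint_left, hY2]
      intro y hy
      rw [mem_filter] at hy
      exact hy.2.1) (by
      rw [disjoint_left, hY1, hY2]
      intro y hy hy'
      rw [mem_filter] at hy hy'
      omega) (by
      intro φ hφ h0 h1 h2
      apply disjoint_left.mp hXA h0
      unfold RemA
      rw [mem_image]
      refine ⟨φ, ?_, rfl⟩
      rw [mem_copies]
      refine ⟨?_, hφ.1, hφ.2⟩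
      intro i
      unfold Da
      split_ifs with h
      · rcases h with h | h | h
        · rw [h]; exact hXW h0
        · rw [h]; exact hXW h1
        · rw [h]; exact hXW h2
      · exact mem_univ _) C' hXc ((1 - ε1) * (p * z)) (ε1 * (p * n)) (ε1 * (p * n))
      hb.le hb.le (by
      intro v
      have h3 := hno2 v 1 (by norm_num)
      rw [card_inter_row] at h3
      refine h3.le.trans ?_
      have : (Zs W base v 1).filter (fun a => s(v, a) ∈ S) ⊆ Y1.filter (fun y => s(v, y) ∈ S) := by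
        intro y hy
        simp only [mem_filter, mem_univ, true_and, Zs, hY1] at hy ⊢
        have := hbase2 y
        exact ⟨⟨hy.1.1, by omega⟩, hy.2⟩
      exact_mod_cast card_le_card this) (by
      intro v
      have h3 := hno2 v 0 (by norm_num)
      rw [card_inter_row] at h3
      refine h3.le.trans ?_
      have : (Zs W base v 0).filter (fun a => s(v, a) ∈ S) ⊆ Y2.filter (fun y => s(v, y) ∈ S) := by
        intro y hy
        simp only [mem_filter, mem_univ, true_and, Zs, hY2] at hy ⊢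
        have := hbase2 y
        exact ⟨⟨hy.1.1, by omega⟩, hy.2⟩
      exact_mod_cast card_le_card this) (by
      intro x hx
      have h3 := hno3 x (hXW hx) (X.erase x) (by
        rw [mem_filter, mem_powerset]
        refine ⟨(erase_subset _ _).trans hXW, notMem_erase _ _, ?_⟩
        refine le_trans ?_ hXp
        apply mul_le_mul_of_nonneg_right _ hp.le
        exact_mod_cast card_le_card (erase_subset x X))
      rw [hk] at h3
      have h4 := Nat.lt_ceil.mp h3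
      refine le_trans ?_ h4.le
      have : Y2.filter (fun y => s(x, y) ∈ S ∧ ∃ x' ∈ X.erase x, s(y, x') ∈ S) ⊆
          univ.filter (fun y => y ∉ W ∧ s(x, y) ∈ S ∧ ∃ x' ∈ X.erase x, s(y, x') ∈ S) := by
        intro y hy
        simp only [mem_filter, mem_univ, true_and, hY2] at hy ⊢
        exact ⟨hy.1.1, hy.2.1, hy.2.2⟩
      exact_mod_cast card_le_card this) (by
      intro x hx
      have h3 : x ∉ RemB W (ε1 * (p * n)) S := disjoint_left.mp hXB hx
      unfold RemB at h3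
      rw [mem_filter] at h3
      have h4 : ((copies H0 (Db W x) S).card : ℝ) ≤ ε1 * (p * n) := by
        by_contra h
        exact h3 ⟨hXW hx, not_le.mp h⟩
      refine le_trans ?_ h4
      have : univ.filter (fun φ : Fin 10 → Fin n => isCopy S φ ∧ φ 0 = x ∧ φ 1 ∈ W) ⊆
          copies H0 (Db W x) S := by
        intro φ hφ
        simp only [mem_filter, mem_univ, true_and] at hφ
        rw [mem_copies]
        refine ⟨?_, hφ.1.1, hφ.1.2⟩
        intro i
        unfold Db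
        split_ifs with h h'
        · rw [h, mem_singleton]; exact hφ.2.1
        · rw [h']; exact hφ.2.2
        · exact mem_univ _
      exact_mod_cast card_le_card this)
  refine ⟨G, hG1, hG2, ?_, fun hc => hG4 (hc.mono hCC')⟩
  intro v
  refine le_trans ?_ (hG3 v)
  rw [hz]
  have hpn0 : 0 ≤ p * n := by positivity
  have : (1 - ε1) * (p * ((1 / 2 - ε1) * n)) - ε1 * (p * n) - ε1 * (p * n) -
      (1 / 2 - ε) * (p * n) = (p * n) * ((ε - 4 * ε1) + ε1 * (1 / 2) + ε1 ^ 2) := by ring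
  have h7 : 0 ≤ (p * n) * ((ε - 4 * ε1) + ε1 * (1 / 2) + ε1 ^ 2) := by
    apply mul_nonneg hpn0
    have := sq_nonneg ε1
    linarith
  linarith

end Pool.Agent.W166.Gnp
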