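import Pool.Agent.W166.Gnp.Build

set_option autoImplicit false
set_option linter.unusedSectionVars false

/-! Choice of the parameters. -/

namespace Pool.Agent.W166.Gnp

open Finset

/-- cumulated sizes -/
def cum (Q : ℕ → ℕ) : ℕ → ℕ
  | 0 => 0
  | i + 1 => cum Q i + (if i = 0 then 2 else Q i * (cum Q i + 1))

/-- relative size of a level -/
def lsz (Q : ℕ → ℕ) (i : ℕ) : ℕ := if i = 0 then 2 else Q i * (cum Q i + 1)

theorem cum_succ (Q : ℕ → ℕ) (i : ℕ) : cum Q (i + 1) = cum Q i + lsz Q i := rfl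

theorem cum_eq (Q : ℕ → ℕ) (i : ℕ) : cum Q i = ∑ j ∈ range i, lsz Q j := by
  induction i with
  | zero => rfl
  | succ i ih => rw [sum_range_succ, ← ih, cum_succ]

theorem partition {V : Type} [DecidableEq V] (m : ℕ → ℕ) (W : Finset V) : ∀ r : ℕ,
    ∑ j ∈ range r, m j ≤ W.card → ∃ f : ℕ → Finset V,
      (∀ j ∈ range r, f j ⊆ W ∧ (f j).card = m j) ∧
      ((range r : Finset ℕ) : Set ℕ).PairwiseDisjoint f := by
  intro r
  induction r with
  | zero =>
    intro _
    exact ⟨fun _ => ∅, by simp, by simp⟩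
  | succ r ih =>
    intro h
    rw [sum_range_succ] at h
    obtain ⟨f, hf1, hf2⟩ := ih (by omega)
    have h1 : ((range r).biUnion f).card = ∑ j ∈ range r, m j := by
      rw [card_biUnion hf2]
      exact sum_congr rfl (fun j hj => (hf1 j hj).2)
    have h2 : (range r).biUnion f ⊆ W := biUnion_subset.mpr (fun j hj => (hf1 j hj).1)
    have h3 : m r ≤ (W \ (range r).biUnion f).card := by
      rw [card_sdiff_of_subset h2, h1]; omega
    obtain ⟨A, hA1, hA2⟩ := exists_subset_card_eq h3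
    refine ⟨fun j => if j = r then A else f j, ?_, ?_⟩
    · intro j hj
      rw [mem_range] at hj
      by_cases hjr : j = r
      · subst hjr
        simp only [if_true]
        exact ⟨hA1.trans sdiff_subset, hA2⟩
      · simp only [if_neg hjr]
        exact hf1 j (mem_range.mpr (by omega))
    · have hAf : ∀ j, j < r → Disjoint A (f j) := by
        intro j hj
        apply disjoint_of_subset_left hA1
        apply disjoint_of_subset_right (subset_biUnion_of_mem f (mem_range.mpr hj))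
        exact sdiff_disjoint
      intro x hx y hy hxy
      simp only [coe_range, Set.mem_Iio] at hx hy
      simp only [Function.onFun]
      by_cases hxr : x = r
      · subst hxr
        rw [if_pos rfl, if_neg (Ne.symm hxy)]
        exact hAf y (by omega)
      · by_cases hyr : y = r
        · subst hyr
          rw [if_pos rfl, if_neg hxy]
          exact (hAf x (by omega)).symm
        · rw [if_neg hxr, if_neg hyr]
          exact hf2 (by simp; omega) (by simp; omega) hxy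

theorem exp_bound1 (B0 l s Ls : ℝ) (hB : 6 ≤ B0) (hl : 1 ≤ l) (hs : 0 ≤ s) (hLs : Ls ≤ l * s) (q : ℝ)
    (hq : 4 * B0 ≤ q) :
    Ls * Real.log 2 + B0 * l * s * Real.log 2 - q * (l * s) / 2 ≤ -s := by
  have h1 : Real.log 2 < 0.7 := by
    have := Real.log_two_lt_d9
    linarith
  have h2 : 0 < Real.log 2 := Real.log_pos (by norm_num)
  have hls : s ≤ l * s := le_mul_of_one_le_left hs hl
  have hls0 : 0 ≤ l * s := hs.trans hls
  have h3 : Ls * Real.log 2 ≤ l * s * 0.7 := by
    calc Ls * Real.log 2 ≤ l * s * Real.log 2 := mul_le_mul_of_nonneg_right hLs h2.le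
      _ ≤ l * s * 0.7 := mul_le_mul_of_nonneg_left h1.le hls0
  have h4 : B0 * l * s * Real.log 2 ≤ B0 * (l * s) * 0.7 := by
    have : 0 ≤ B0 * l * s := by rw [mul_assoc]; exact mul_nonneg (by linarith) hls0
    calc B0 * l * s * Real.log 2 ≤ B0 * l * s * 0.7 := mul_le_mul_of_nonneg_left h1.le this
      _ = B0 * (l * s) * 0.7 := by ring
  have h5 : 4 * B0 * (l * s) ≤ q * (l * s) := mul_le_mul_of_nonneg_right hq hls0
  nlinarith

theorem exp_bound2 (l s Ls : ℝ) (hl : 1 ≤ l) (hs : 0 ≤ s) (hLs : Ls ≤ l * s)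
    (q : ℝ) (hq : q ≤ 1) :
    2 * (Ls * Real.log 2) - 3 * l * s * Real.log 4 + q * (l * s) ≤ -s := by
  have h1 : 0.69 < Real.log 2 := by
    have := Real.log_two_gt_d9
    linarith
  have h4 : Real.log 4 = 2 * Real.log 2 := by
    rw [show (4 : ℝ) = 2 ^ 2 by norm_num, Real.log_pow]; norm_num
  have hls : s ≤ l * s := le_mul_of_one_le_left hs hl
  have hls0 : 0 ≤ l * s := hs.trans hls
  have h2 : 0 < Real.log 2 := by linarith
  have h3 : Ls * Real.log 2 ≤ l * s * Real.log 2 := mul_le_mul_of_nonneg_right hLs h2.le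
  have h5 : q * (l * s) ≤ 1 * (l * s) := mul_le_mul_of_nonneg_right hq hls0
  have h6 : 0.69 * (l * s) ≤ Real.log 2 * (l * s) := mul_le_mul_of_nonneg_right h1.le hls0
  rw [h4]
  nlinarith

/-- choice of `K` -/
theorem exists_K (C : ℕ) (hC : 1 ≤ C) (B : ℝ) (hB : 0 < B) :
    ∃ K : ℕ, B * (1 - 1 / (C : ℝ)) ^ K ≤ 1 := by
  have hC' : (1 : ℝ) ≤ C := by exact_mod_cast hC
  have h1 : 0 ≤ 1 - 1 / (C : ℝ) := by
    rw [sub_nonneg, div_le_one (by linarith)]; exact hC'
  have h2 : 1 - 1 / (C : ℝ) < 1 := by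
    have : 0 < 1 / (C : ℝ) := by positivity
    linarith
  obtain ⟨K, hK⟩ := exists_pow_lt_of_lt_one (x := 1 / B) (by positivity) h2
  refine ⟨K, ?_⟩
  have := mul_le_mul_of_nonneg_left hK.le hB.le
  rwa [mul_one_div_cancel hB.ne'] at this

/-- bounds on binomial probabilities -/
theorem choose_bounds (C K : ℕ) (hC : 1 ≤ C) (hK : 1 ≤ K) (c0 : ℝ) (hc0 : 0 < c0) (hc1 : c0 ≤ 1 / 2)
    (p : ℝ) (hp : 0 < p) (hp2 : p ≤ c0 / (2 * K * (C + K))) (t s : ℕ) (ht : t = ⌊c0 / (C * p)⌋₊)
    (hs : s = C * t) :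
    (s.choose K : ℝ) * p ^ K ≤ c0 ^ K / K.factorial ∧
    ((s - t).choose K : ℝ) * p ^ K ≤ (1 - 1 / (C : ℝ)) ^ K * (c0 ^ K / K.factorial) ∧
    c0 ^ K / K.factorial / 4 ≤ (s.choose K : ℝ) * (p ^ K * (1 - p) ^ (s - K)) ∧
    (s : ℝ) * p ≤ c0 ∧ c0 / 2 ≤ (s : ℝ) * p := by
  have hC' : (1 : ℝ) ≤ C := by exact_mod_cast hC
  have hK' : (1 : ℝ) ≤ K := by exact_mod_cast hK
  have hf : (0 : ℝ) < K.factorial := by exact_mod_cast K.factorial_pos
  have ht1 : (t : ℝ) ≤ c0 / (C * p) := by
    rw [ht]; exact Nat.floor_le (by positivity)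
  have ht2 : c0 / (C * p) - 1 < t := by
    rw [ht]; exact Nat.sub_one_lt_floor _
  have hsr : (s : ℝ) = C * t := by rw [hs]; push_cast; ring
  have hsp : (s : ℝ) * p ≤ c0 := by
    rw [hsr]
    calc (C : ℝ) * t * p ≤ C * (c0 / (C * p)) * p := by gcongr
      _ = c0 := by field_simp
  have hsp2 : c0 - C * p ≤ (s : ℝ) * p := by
    rw [hsr]
    have : C * (c0 / (C * p) - 1) * p ≤ (C : ℝ) * t * p := by gcongr
    calc c0 - C * p = C * (c0 / (C * p) - 1) * p := by field_simp
      _ ≤ _ := this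
  have hpK : p * (2 * K * (C + K)) ≤ c0 := by
    rwa [le_div_iff₀ (by positivity)] at hp2
  have hs0 : (0 : ℝ) ≤ s := Nat.cast_nonneg s
  have hCK : 2 * ((C : ℝ) + 1) ≤ 2 * K * (C + K) := by nlinarith
  have hp3 : p * (2 * ((C : ℝ) + 1)) ≤ c0 := (mul_le_mul_of_nonneg_left hCK hp.le).trans hpK
  refine ⟨?_, ?_, ?_, hsp, ?_⟩
  · calc (s.choose K : ℝ) * p ^ K ≤ (s : ℝ) ^ K / K.factorial * p ^ K := by
          apply mul_le_mul_of_nonneg_right _ (by positivity)
          exact Nat.choose_le_pow_div K s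
      _ = ((s : ℝ) * p) ^ K / K.factorial := by rw [mul_pow]; ring
      _ ≤ c0 ^ K / K.factorial := by gcongr
  · have h1 : ((s - t : ℕ) : ℝ) * p ≤ (1 - 1 / (C : ℝ)) * c0 := by
      have h2 : t ≤ s := by rw [hs]; exact Nat.le_mul_of_pos_left t hC
      rw [Nat.cast_sub h2]
      have h3 : ((s : ℝ) - t) = (1 - 1 / (C : ℝ)) * s := by
        rw [hsr]; field_simp
      rw [h3]
      have h4 : 0 ≤ 1 - 1 / (C : ℝ) := by
        rw [sub_nonneg, div_le_one (by linarith)]; exact hC'
      calc (1 - 1 / (C : ℝ)) * s * p = (1 - 1 / (C : ℝ)) * (s * p) := by ring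
        _ ≤ _ := mul_le_mul_of_nonneg_left hsp h4
    calc ((s - t).choose K : ℝ) * p ^ K ≤ ((s - t : ℕ) : ℝ) ^ K / K.factorial * p ^ K := by
          apply mul_le_mul_of_nonneg_right _ (by positivity)
          exact Nat.choose_le_pow_div K (s - t)
      _ = (((s - t : ℕ) : ℝ) * p) ^ K / K.factorial := by rw [mul_pow]; ring
      _ ≤ ((1 - 1 / (C : ℝ)) * c0) ^ K / K.factorial := by gcongr
      _ = _ := by rw [mul_pow]; ring
  · -- lower bound
    have hp1 : p ≤ 1 := by nlinarith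
    have h1 : (1 : ℝ) / 2 ≤ (1 - p) ^ (s - K) := by
      have h2 : (1 : ℝ) + ((s - K : ℕ) : ℝ) * (-p) ≤ (1 + (-p)) ^ (s - K) :=
        one_add_mul_le_pow (by linarith) _
      have h3 : ((s - K : ℕ) : ℝ) ≤ s := by exact_mod_cast Nat.sub_le s K
      have h4 : ((s - K : ℕ) : ℝ) * p ≤ s * p := mul_le_mul_of_nonneg_right h3 hp.le
      have h5 : (1 + (-p)) ^ (s - K) = (1 - p) ^ (s - K) := by ring
      rw [h5] at h2
      linarith
    have hKs : K ≤ s + 1 := by
      have h2 : (K : ℝ) * p ≤ s * p := by nlinarith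
      have h3 : (K : ℝ) ≤ s := le_of_mul_le_mul_right h2 hp
      have : K ≤ s := by exact_mod_cast h3
      omega
    have h2 : c0 * (1 - (C + K) * p / c0) ≤ ((s + 1 - K : ℕ) : ℝ) * p := by
      rw [Nat.cast_sub hKs]
      push_cast
      have : c0 * (1 - (C + K) * p / c0) = c0 - (C + K) * p := by field_simp
      rw [this]
      nlinarith
    have h3 : (C + K) * p / c0 ≤ 1 / (2 * K) := by
      rw [div_le_div_iff₀ hc0 (by positivity)]
      nlinarith
    have h3' : 0 ≤ (C + K) * p / c0 := by positivity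
    have h4 : (1 : ℝ) / 2 ≤ (1 - (C + K) * p / c0) ^ K := by
      have h5 : (1 : ℝ) + K * (-((C + K) * p / c0)) ≤ (1 + (-((C + K) * p / c0))) ^ K := by
        apply one_add_mul_le_pow
        have : (1 : ℝ) / (2 * K) ≤ 1 := by
          rw [div_le_one (by positivity)]; linarith
        linarith
      have h6 : K * ((C + K) * p / c0) ≤ 1 / 2 := by
        calc K * ((C + K) * p / c0) ≤ K * (1 / (2 * K)) := mul_le_mul_of_nonneg_left h3 (by positivity)
          _ = 1 / 2 := by field_simp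
      have h7 : (1 + (-((C + K) * p / c0))) ^ K = (1 - (C + K) * p / c0) ^ K := by ring
      rw [h7] at h5
      linarith
    have h8 : (((s + 1 - K : ℕ) : ℝ)) ^ K / K.factorial ≤ (s.choose K : ℝ) := Nat.pow_le_choose K s
    have h9 : 0 ≤ 1 - (C + K) * p / c0 := by
      have : (1 : ℝ) / (2 * K) ≤ 1 := by
        rw [div_le_one (by positivity)]; linarith
      linarith
    calc c0 ^ K / K.factorial / 4 = (c0 ^ K * (1 / 2)) / K.factorial * (1 / 2) := by ring
      _ ≤ (c0 ^ K * (1 - (C + K) * p / c0) ^ K) / K.factorial * (1 - p) ^ (s - K) := by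
          gcongr
      _ = (c0 * (1 - (C + K) * p / c0)) ^ K / K.factorial * (1 - p) ^ (s - K) := by
          rw [mul_pow]
      _ ≤ (((s + 1 - K : ℕ) : ℝ) * p) ^ K / K.factorial * (1 - p) ^ (s - K) := by
          have : 0 ≤ (1 - p) ^ (s - K) := pow_nonneg (by linarith) _
          gcongr
      _ = (((s + 1 - K : ℕ) : ℝ)) ^ K / K.factorial * (p ^ K * (1 - p) ^ (s - K)) := by
          rw [mul_pow]; ring
      _ ≤ _ := by
          have : 0 ≤ p ^ K * (1 - p) ^ (s - K) := by
            have : 0 ≤ 1 - p := by linarith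
            positivity
          gcongr
  · nlinarith

end Pool.Agent.W166.Gnp
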