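import Pool.Agent.W166.Gnp.DetA
import Pool.Agent.W166.Gnp.Copies
import Pool.Agent.W166.Gnp.Main

set_option autoImplicit false
set_option linter.unusedSectionVars false

/-! The probabilistic part of the construction for graphs of chromatic number at least four. -/

namespace Pool.Agent.W166.Gnp

open Finset Classical

/-- exposing `E1` first, then `E2` -/
theorem Pr_fub {α : Type} [DecidableEq α] {E1 E2 : Finset α} (hd : Disjoint E1 E2) {p : ℝ}
    (h0 : 0 ≤ p) (h1 : p ≤ 1) (A A1 : Finset α → Prop) (η1 η2 : ℝ) (hη2 : 0 ≤ η2)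
    (hA1 : Pr E1 p (fun S => ¬ A1 S) ≤ η1)
    (hA2 : ∀ S1, S1 ⊆ E1 → A1 S1 → Pr E2 p (fun S2 => A (S1 ∪ S2)) ≤ η2) :
    Pr (E1 ∪ E2) p A ≤ η1 + η2 := by
  have e1 : Pr (E1 ∪ E2) p A = Ex E1 p (fun S1 => Pr E2 p (fun S2 => A (S1 ∪ S2))) := by
    unfold Pr
    rw [Ex_union hd]
  rw [e1]
  have e2 : Ex E1 p (fun S1 => Pr E2 p (fun S2 => A (S1 ∪ S2))) ≤
      Ex E1 p (fun S1 => (if ¬ A1 S1 then 1 else 0) + η2) := by
    apply Ex_mono h0 h1
    intro S1 hS1
    by_cases h : A1 S1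
    · have := hA2 S1 hS1 h
      simp only [h, not_true_eq_false, if_false, zero_add]
      exact this
    · have := Pr_le_one (E := E2) h0 h1 (fun S2 => A (S1 ∪ S2))
      simp only [h, not_false_eq_true, if_true]
      linarith
  refine e2.trans ?_
  rw [Ex_add, Ex_const]
  have : Ex E1 p (fun S1 => if ¬ A1 S1 then (1 : ℝ) else 0) = Pr E1 p (fun S => ¬ A1 S) := by
    unfold Pr
    apply Ex_congr
    intro S _
    by_cases h : A1 S <;> simp [h]
  rw [this]
  linarith

theorem card_edge_cycle (l : ℕ) : (SimpleGraph.cycleGraph (l + 3)).edgeFinset.card = l + 3 := by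
  have h := SimpleGraph.sum_degrees_eq_twice_card_edges (SimpleGraph.cycleGraph (l + 3))
  have h2 : ∀ v, (SimpleGraph.cycleGraph (l + 3)).degree v = 2 := fun v =>
    SimpleGraph.cycleGraph_degree_three_le
  simp only [h2, sum_const, card_univ, Fintype.card_fin, smul_eq_mul] at h
  omega

/-- vertices `φ 0` of short cycles -/
noncomputable def RemC {V : Type} [DecidableEq V] (k : ℕ) (W : Finset V) (S : Finset (Sym2 V)) :
    Finset V :=
  (range k).biUnion (fun l =>
    (copies (SimpleGraph.cycleGraph (l + 3)) (fun _ => W) S).image (fun φ => φ 0))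

theorem RemC_bound {V : Type} [DecidableEq V] (k Λ s : ℕ) (hΛ : 0 < Λ) (hs : 0 < s) (W : Finset V)
    (hW : W.card = Λ * s) {E : Finset (Sym2 V)} {p : ℝ} (h0 : 0 ≤ p) (h1 : p ≤ 1)
    (hsp : (s : ℝ) * p ≤ 1) :
    Pr E p (fun S => s < (RemC k W S).card) ≤ (k * (Λ : ℝ) ^ (k + 3)) / s := by
  have hs' : (0 : ℝ) < s := by exact_mod_cast hs
  have h2 : Pr E p (fun S => s < (RemC k W S).card) ≤ Pr E p (fun S => (s : ℝ) ≤
      ∑ l ∈ range k, ((copies (SimpleGraph.cycleGraph (l + 3)) (fun _ => W) S).card : ℝ)) := by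
    apply Pr_mono h0 h1
    intro S _ hS
    have h3 : (RemC k W S).card ≤
        ∑ l ∈ range k, (copies (SimpleGraph.cycleGraph (l + 3)) (fun _ => W) S).card := by
      unfold RemC
      refine card_biUnion_le.trans ?_
      exact sum_le_sum (fun l _ => card_image_le)
    have h4 := (le_of_lt hS).trans h3
    exact_mod_cast h4
  refine h2.trans (Pr_markov h0 h1 _ (fun S _ => sum_nonneg (fun _ _ => Nat.cast_nonneg _)) _ _ hs' ?_)
  rw [Ex_sum]
  have hΛ' : (1 : ℝ) ≤ Λ := by exact_mod_cast hΛ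
  have h5 : ∀ l ∈ range k, Ex E p (fun S =>
      ((copies (SimpleGraph.cycleGraph (l + 3)) (fun _ => W) S).card : ℝ)) ≤ (Λ : ℝ) ^ (k + 3) := by
    intro l hl
    rw [mem_range] at hl
    refine (copies_expect (SimpleGraph.cycleGraph (l + 3)) (fun _ => W) h0).trans ?_
    rw [card_edge_cycle, prod_const, card_univ, Fintype.card_fin, ← mul_pow, hW]
    have h6 : (0 : ℝ) ≤ ((Λ * s : ℕ) : ℝ) * p := by positivity
    have h7 : ((Λ * s : ℕ) : ℝ) * p ≤ Λ := by
      push_cast
      nlinarith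
    calc (((Λ * s : ℕ) : ℝ) * p) ^ (l + 3) ≤ (Λ : ℝ) ^ (l + 3) := pow_le_pow_left₀ h6 h7 _
      _ ≤ (Λ : ℝ) ^ (k + 3) := pow_le_pow_right₀ hΛ' (by omega)
  refine (sum_le_card_nsmul _ _ _ h5).trans ?_
  rw [card_range, nsmul_eq_mul]

variable {n : ℕ}

/-- edges inside `W` -/
noncomputable def EW (W : Finset (Fin n)) : Finset (Sym2 (Fin n)) :=
  (allE n).filter (fun e => ∀ v ∈ e, v ∈ W)

theorem mem_EW {W : Finset (Fin n)} {a b : Fin n} : s(a, b) ∈ EW W ↔ a ≠ b ∧ a ∈ W ∧ b ∈ W := by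
  simp only [EW, mem_filter, mem_allE, Sym2.mem_iff, forall_eq_or_imp, forall_eq]

/-- the other edges -/
noncomputable def EO (W : Finset (Fin n)) : Finset (Sym2 (Fin n)) := allE n \ EW W

theorem mem_EO {W : Finset (Fin n)} {a b : Fin n} :
    s(a, b) ∈ EO W ↔ a ≠ b ∧ (a ∉ W ∨ b ∉ W) := by
  rw [EO, mem_sdiff, mem_allE, mem_EW]
  tauto

theorem EW_union_EO (W : Finset (Fin n)) : EW W ∪ EO W = allE n := by
  unfold EO EW
  exact union_sdiff_of_subset (filter_subset _ _)

theorem disj_EW_EO (W : Finset (Fin n)) : Disjoint (EW W) (EO W) := by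
  unfold EO
  exact disjoint_sdiff

/-- possible neighbours of `v` outside `W` and outside part `j` -/
noncomputable def Zs (W : Finset (Fin n)) (base : Fin n → ℕ) (v : Fin n) (j : ℕ) :
    Finset (Fin n) := univ.filter (fun y => y ∉ W ∧ base y ≠ j ∧ y ≠ v)

theorem deg_event (W : Finset (Fin n)) (base : Fin n → ℕ) (q : ℕ) {p ε z : ℝ} (h0 : 0 ≤ p)
    (h1 : p ≤ 1) (he : 0 ≤ ε) (he1 : ε ≤ 1) (hz : ∀ v, ∀ j < q, z ≤ ((Zs W base v j).card : ℝ)) :
    Pr (EO W) p (fun S => ∃ v : Fin n, ∃ j < q,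
      ((S ∩ row v (Zs W base v j)).card : ℝ) ≤ (1 - ε) * (p * z)) ≤
      n * (q * Real.exp (-(ε ^ 2 / 2 * (p * z)))) := by
  have h2 : Pr (EO W) p (fun S => ∃ v : Fin n, ∃ j < q,
      ((S ∩ row v (Zs W base v j)).card : ℝ) ≤ (1 - ε) * (p * z)) ≤
      Pr (EO W) p (fun S => ∃ v ∈ (univ : Finset (Fin n)), ∃ j ∈ range q,
      ((S ∩ row v (Zs W base v j)).card : ℝ) ≤ (1 - ε) * (p * (row v (Zs W base v j)).card)) := by
    apply Pr_mono h0 h1
    rintro S _ ⟨v, j, hj, h⟩
    refine ⟨v, mem_univ _, j, mem_range.mpr hj, h.trans ?_⟩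
    apply mul_le_mul_of_nonneg_left _ (by linarith)
    apply mul_le_mul_of_nonneg_left _ h0
    rw [card_row]
    exact hz v j hj
  refine h2.trans ((Pr_exists_le h0 h1 _ _).trans ?_)
  have h3 : ∀ v ∈ (univ : Finset (Fin n)), Pr (EO W) p (fun S => ∃ j ∈ range q,
      ((S ∩ row v (Zs W base v j)).card : ℝ) ≤ (1 - ε) * (p * (row v (Zs W base v j)).card)) ≤
      q * Real.exp (-(ε ^ 2 / 2 * (p * z))) := by
    intro v _
    refine (Pr_exists_le h0 h1 _ _).trans ?_
    have h4 : ∀ j ∈ range q, Pr (EO W) p (fun S => ((S ∩ row v (Zs W base v j)).card : ℝ) ≤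
        (1 - ε) * (p * (row v (Zs W base v j)).card)) ≤ Real.exp (-(ε ^ 2 / 2 * (p * z))) := by
      intro j hj
      have hsub : row v (Zs W base v j) ⊆ EO W := by
        intro e he
        rw [mem_row] at he
        obtain ⟨a, ha, rfl⟩ := he
        simp only [Zs, mem_filter] at ha
        rw [mem_EO]
        exact ⟨ha.2.2.2.symm, Or.inr ha.2.1⟩
      refine (card_lower hsub h0 h1 he he1).trans ?_
      rw [Real.exp_le_exp, neg_le_neg_iff]
      apply mul_le_mul_of_nonneg_left _ (by positivity)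
      apply mul_le_mul_of_nonneg_left _ h0
      rw [card_row]
      exact hz v j (mem_range.mp hj)
    refine (sum_le_card_nsmul _ _ _ h4).trans ?_
    rw [card_range, nsmul_eq_mul]
  refine (sum_le_card_nsmul _ _ _ h3).trans ?_
  rw [card_univ, Fintype.card_fin, nsmul_eq_mul]

/-- `y` is joined to `v` and to `X` -/
def Dy (X : Finset (Fin n)) (v y : Fin n) (S : Finset (Sym2 (Fin n))) : Prop :=
  s(y, v) ∈ S ∧ ∃ x ∈ X, s(y, x) ∈ S

theorem Dy_prob (X : Finset (Fin n)) (v y : Fin n) (hv : v ∉ X) {p : ℝ}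
    (h0 : 0 ≤ p) (h1 : p ≤ 1) :
    Pr (row y (insert v X)) p (Dy X v y) ≤ X.card * p ^ 2 := by
  have h2 : Pr (row y (insert v X)) p (Dy X v y) ≤
      Pr (row y (insert v X)) p (fun S => ∃ x ∈ X, ({s(y, v), s(y, x)} : Finset (Sym2 (Fin n))) ⊆ S) := by
    apply Pr_mono h0 h1
    rintro S _ ⟨h, x, hx, h'⟩
    refine ⟨x, hx, ?_⟩
    intro e he
    simp only [mem_insert, mem_singleton] at he
    rcases he with rfl | rfl
    · exact h
    · exact h'
  refine h2.trans ((Pr_exists_le h0 h1 _ _).trans ?_)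
  have h3 : ∀ x ∈ X, Pr (row y (insert v X)) p
      (fun S => ({s(y, v), s(y, x)} : Finset (Sym2 (Fin n))) ⊆ S) ≤ p ^ 2 := by
    intro x hx
    have hxv : x ≠ v := fun h => hv (h ▸ hx)
    rw [Pr_superset, card_pair]
    · intro h
      exact hxv (Sym2.congr_right.mp h).symm
    · intro e he
      simp only [mem_insert, mem_singleton] at he
      rw [mem_row]
      rcases he with rfl | rfl
      · exact ⟨v, mem_insert_self _ _, rfl⟩
      · exact ⟨x, mem_insert_of_mem hx, rfl⟩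
  refine (sum_le_card_nsmul _ _ _ h3).trans ?_
  rw [nsmul_eq_mul]

theorem bad_event (W X : Finset (Fin n)) (hX : X ⊆ W) {p δ : ℝ} (h0 : 0 ≤ p)
    (h1 : p ≤ 1) (hXp : (X.card : ℝ) * p ≤ δ) (k : ℕ) :
    Pr (EO W) p (fun S => ∃ v ∉ W, k ≤
      (univ.filter (fun y => y ∉ W ∧ s(v, y) ∈ S ∧ ∃ x ∈ X, s(y, x) ∈ S)).card) ≤
      n * ((1 / 4) ^ k * Real.exp (3 * (δ * p) * n)) := by
  have hδ : 0 ≤ δ := le_trans (by positivity) hXp
  have h2 : Pr (EO W) p (fun S => ∃ v ∉ W, k ≤
      (univ.filter (fun y => y ∉ W ∧ s(v, y) ∈ S ∧ ∃ x ∈ X, s(y, x) ∈ S)).card) ≤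
      Pr (EO W) p (fun S => ∃ v ∈ univ.filter (fun v => v ∉ W), k ≤
      cnt (univ.filter (fun y => y ∉ W ∧ y ≠ v)) (fun y => row y (insert v X)) (Dy X v) S) := by
    apply Pr_mono h0 h1
    rintro S hS ⟨v, hv, hk⟩
    refine ⟨v, by rw [mem_filter]; exact ⟨mem_univ _, hv⟩, hk.trans (card_le_card ?_)⟩
    intro y hy
    simp only [mem_filter, mem_univ, true_and] at hy ⊢
    obtain ⟨hyW, hvy, x, hx, hyx⟩ := hy
    have hne : v ≠ y := (mem_EO.mp (hS hvy)).1
    refine ⟨⟨hyW, hne.symm⟩, ?_, x, hx, ?_⟩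
    · rw [mem_inter]
      refine ⟨by rw [Sym2.eq_swap]; exact hvy, ?_⟩
      rw [mem_row]
      exact ⟨v, mem_insert_self _ _, rfl⟩
    · rw [mem_inter]
      refine ⟨hyx, ?_⟩
      rw [mem_row]
      exact ⟨x, mem_insert_of_mem hx, rfl⟩
  refine h2.trans ((Pr_exists_le h0 h1 _ _).trans ?_)
  have h3 : ∀ v ∈ univ.filter (fun v => v ∉ W), Pr (EO W) p (fun S => k ≤
      cnt (univ.filter (fun y => y ∉ W ∧ y ≠ v)) (fun y => row y (insert v X)) (Dy X v) S) ≤
      (1 / 4) ^ k * Real.exp (3 * (δ * p) * n) := by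
    intro v hv
    rw [mem_filter] at hv
    have h4 := upper_tail (E := EO W) h0 h1 (univ.filter (fun y => y ∉ W ∧ y ≠ v))
      (fun y => row y (insert v X)) (by
        intro y hy e he
        rw [mem_filter] at hy
        rw [mem_row] at he
        obtain ⟨a, ha, rfl⟩ := he
        rw [mem_EO]
        refine ⟨?_, Or.inl hy.2.1⟩
        rintro rfl
        rw [mem_insert] at ha
        rcases ha with h | h
        · exact hy.2.2 h
        · exact hy.2.1 (hX h)) (by
        intro y hy y' hy' hne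
        simp only [coe_filter, Set.mem_ofPred_eq, mem_univ, true_and] at hy hy'
        apply row_disjoint hne
        intro h
        rw [mem_insert] at h
        rcases h with h | h
        · exact hy.2 h
        · exact hy.1 (hX h)) (Dy X v) (δ * p) (by
        intro y _
        refine (Dy_prob X v y (fun h => hv.2 (hX h)) h0 h1).trans ?_
        calc (X.card : ℝ) * p ^ 2 = (X.card * p) * p := by ring
          _ ≤ δ * p := mul_le_mul_of_nonneg_right hXp h0) k
    refine h4.trans ?_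
    apply mul_le_mul_of_nonneg_left _ (by positivity)
    rw [Real.exp_le_exp]
    apply mul_le_mul_of_nonneg_left _ (by positivity)
    have : (univ.filter (fun y => y ∉ W ∧ y ≠ v)).card ≤ n := by
      refine (card_filter_le _ _).trans ?_
      rw [card_univ, Fintype.card_fin]
    exact_mod_cast this
  refine (sum_le_card_nsmul _ _ _ h3).trans ?_
  rw [nsmul_eq_mul]
  apply mul_le_mul_of_nonneg_right _ (by positivity)
  have : (univ.filter (fun v => v ∉ W)).card ≤ n := by
    refine (card_filter_le _ _).trans ?_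
    rw [card_univ, Fintype.card_fin]
  exact_mod_cast this

theorem card_mod_le (n q j : ℕ) :
    (univ.filter (fun y : Fin n => y.val % q = j)).card ≤ n / q + 1 := by
  have h := card_le_card_of_injOn (s := univ.filter (fun y : Fin n => y.val % q = j))
    (t := range (n / q + 1)) (fun y => y.val / q) (by
      intro y _
      simp only [coe_range, Set.mem_Iio]
      exact Nat.lt_succ_of_le (Nat.div_le_div_right (le_of_lt y.2))) (by
      intro y hy y' hy' h
      simp only [coe_filter, Set.mem_ofPred_eq, mem_univ, true_and] at hy hy'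
      simp only at h
      apply Fin.ext
      have h1 := Nat.div_add_mod y.val q
      have h2 := Nat.div_add_mod y'.val q
      rw [h, hy] at h1
      rw [hy'] at h2
      omega)
  rwa [card_range] at h

end Pool.Agent.W166.Gnp
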