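import Pool.Agent.W166.Gnp.DetB
import Pool.Agent.W166.Gnp.MainA

set_option autoImplicit false
set_option linter.unusedSectionVars false

/-! The probabilistic part of the construction for `H0`. -/

namespace Pool.Agent.W166.Gnp

open Finset Classical

variable {n : ℕ}

theorem EO_sub (W : Finset (Fin n)) : EO W ⊆ allE n := sdiff_subset

theorem deg_event_all (W : Finset (Fin n)) (base : Fin n → ℕ) (q : ℕ) {p ε z : ℝ} (h0 : 0 ≤ p)
    (h1 : p ≤ 1) (he : 0 ≤ ε) (he1 : ε ≤ 1) (hz : ∀ v, ∀ j < q, z ≤ ((Zs W base v j).card : ℝ)) :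
    Pr (allE n) p (fun S => ∃ v : Fin n, ∃ j < q,
      ((S ∩ row v (Zs W base v j)).card : ℝ) ≤ (1 - ε) * (p * z)) ≤
      n * (q * Real.exp (-(ε ^ 2 / 2 * (p * z)))) := by
  have h := deg_event W base q h0 h1 he he1 hz
  rw [← Pr_marg (EO_sub W) p] at h
  refine le_trans ?_ h
  apply Pr_mono h0 h1
  rintro S _ ⟨v, j, hj, hS⟩
  refine ⟨v, j, hj, ?_⟩
  have hsub : row v (Zs W base v j) ⊆ EO W := by
    intro e he
    rw [mem_row] at he
    obtain ⟨a, ha, rfl⟩ := he
    simp only [Zs, mem_filter] at ha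
    rw [mem_EO]
    exact ⟨ha.2.2.2.symm, Or.inr ha.2.1⟩
  rw [inter_assoc, inter_eq_right.mpr hsub]
  exact hS

theorem priv_one (W X : Finset (Fin n)) (hX : X ⊆ W) (v : Fin n) (hv : v ∉ X) {p δ : ℝ}
    (h0 : 0 ≤ p) (h1 : p ≤ 1) (hXp : (X.card : ℝ) * p ≤ δ) (k : ℕ) :
    Pr (allE n) p (fun S => k ≤
      (univ.filter (fun y => y ∉ W ∧ s(v, y) ∈ S ∧ ∃ x ∈ X, s(y, x) ∈ S)).card) ≤
      (1 / 4) ^ k * Real.exp (3 * (δ * p) * n) := by
  have hδ : 0 ≤ δ := le_trans (by positivity) hXp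
  have h2 : Pr (allE n) p (fun S => k ≤
      (univ.filter (fun y => y ∉ W ∧ s(v, y) ∈ S ∧ ∃ x ∈ X, s(y, x) ∈ S)).card) ≤
      Pr (allE n) p (fun S => k ≤
      cnt (univ.filter (fun y => y ∉ W ∧ y ≠ v)) (fun y => row y (insert v X)) (Dy X v) S) := by
    apply Pr_mono h0 h1
    intro S hS hk
    refine hk.trans (card_le_card ?_)
    intro y hy
    simp only [mem_filter, mem_univ, true_and] at hy ⊢
    obtain ⟨hyW, hvy, x, hx, hyx⟩ := hy
    have hne : v ≠ y := mem_allE.mp (hS hvy)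
    refine ⟨⟨hyW, hne.symm⟩, ?_, x, hx, ?_⟩
    · rw [mem_inter]
      refine ⟨by rw [Sym2.eq_swap]; exact hvy, ?_⟩
      rw [mem_row]
      exact ⟨v, mem_insert_self _ _, rfl⟩
    · rw [mem_inter]
      refine ⟨hyx, ?_⟩
      rw [mem_row]
      exact ⟨x, mem_insert_of_mem hx, rfl⟩
  refine h2.trans ?_
  have h4 := upper_tail (E := allE n) h0 h1 (univ.filter (fun y => y ∉ W ∧ y ≠ v))
    (fun y => row y (insert v X)) (by
      intro y hy e he
      rw [mem_filter] at hy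
      rw [mem_row] at he
      obtain ⟨a, ha, rfl⟩ := he
      rw [mem_allE]
      rintro rfl
      rw [mem_insert] at ha
      rcases ha with h | h
      · exact hy.2.2 h
      · exact hy.2.1 (hX h)) (by
      intro y hy y' hy' hne
      simp only [coe_filter, Set.mem_ofPred_eq, mem_univ, true_and] at hy hy'
      apply row_disjoint hne
      intro h
      rw [mem_insert] at h
      rcases h with h | h
      · exact hy.2 h
      · exact hy.1 (hX h)) (Dy X v) (δ * p) (by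
      intro y _
      refine (Dy_prob X v y hv h0 h1).trans ?_
      calc (X.card : ℝ) * p ^ 2 = (X.card * p) * p := by ring
        _ ≤ δ * p := mul_le_mul_of_nonneg_right hXp h0) k
  refine h4.trans ?_
  apply mul_le_mul_of_nonneg_left _ (by positivity)
  rw [Real.exp_le_exp]
  apply mul_le_mul_of_nonneg_left _ (by positivity)
  have : (univ.filter (fun y => y ∉ W ∧ y ≠ v)).card ≤ n := by
    refine (card_filter_le _ _).trans ?_
    rw [card_univ, Fintype.card_fin]
  exact_mod_cast this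

theorem priv_all (W : Finset (Fin n)) {p δ : ℝ} (h0 : 0 ≤ p) (h1 : p ≤ 1) (k : ℕ) :
    Pr (allE n) p (fun S => ∃ v ∈ W, ∃ X ∈ W.powerset.filter (fun X => v ∉ X ∧ (X.card : ℝ) * p ≤ δ),
      k ≤ (univ.filter (fun y => y ∉ W ∧ s(v, y) ∈ S ∧ ∃ x ∈ X, s(y, x) ∈ S)).card) ≤
      W.card * (2 ^ W.card * ((1 / 4) ^ k * Real.exp (3 * (δ * p) * n))) := by
  refine (Pr_exists_le h0 h1 _ _).trans ?_
  have h3 : ∀ v ∈ W, Pr (allE n) p (fun S =>
      ∃ X ∈ W.powerset.filter (fun X => v ∉ X ∧ (X.card : ℝ) * p ≤ δ),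
      k ≤ (univ.filter (fun y => y ∉ W ∧ s(v, y) ∈ S ∧ ∃ x ∈ X, s(y, x) ∈ S)).card) ≤
      2 ^ W.card * ((1 / 4) ^ k * Real.exp (3 * (δ * p) * n)) := by
    intro v _
    refine (Pr_exists_le h0 h1 _ _).trans ?_
    have h4 : ∀ X ∈ W.powerset.filter (fun X => v ∉ X ∧ (X.card : ℝ) * p ≤ δ),
        Pr (allE n) p (fun S => k ≤
        (univ.filter (fun y => y ∉ W ∧ s(v, y) ∈ S ∧ ∃ x ∈ X, s(y, x) ∈ S)).card) ≤
        (1 / 4) ^ k * Real.exp (3 * (δ * p) * n) := by
      intro X hX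
      rw [mem_filter, mem_powerset] at hX
      exact priv_one W X hX.1 v hX.2.1 h0 h1 hX.2.2 k
    refine (sum_le_card_nsmul _ _ _ h4).trans ?_
    rw [nsmul_eq_mul]
    apply mul_le_mul_of_nonneg_right _ (by positivity)
    have : (W.powerset.filter (fun X => v ∉ X ∧ (X.card : ℝ) * p ≤ δ)).card ≤ 2 ^ W.card := by
      refine (card_filter_le _ _).trans ?_
      rw [card_powerset]
    exact_mod_cast this
  refine (sum_le_card_nsmul _ _ _ h3).trans ?_
  rw [nsmul_eq_mul]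

/-- domains for the copies with `t₁, t₂` and a leaf at `t₁` in `W` -/
def Da (W : Finset (Fin n)) (i : Fin 10) : Finset (Fin n) :=
  if i = 0 ∨ i = 1 ∨ i = 2 then W else univ

/-- domains for the copies with `t₁ = x` and `t₂` in `W` -/
def Db (W : Finset (Fin n)) (x : Fin n) (i : Fin 10) : Finset (Fin n) :=
  if i = 0 then {x} else if i = 1 then W else univ

theorem prod_Da (W : Finset (Fin n)) : (∏ i, ((Da W i).card : ℝ)) = (W.card : ℝ) ^ 3 * n ^ 7 := by
  simp only [Fin.prod_univ_succ, Da, Fin.reduceSucc]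
  simp
  ring

theorem prod_Db (W : Finset (Fin n)) (x : Fin n) :
    (∏ i, ((Db W x i).card : ℝ)) = (W.card : ℝ) * n ^ 8 := by
  simp only [Fin.prod_univ_succ, Db, Fin.reduceSucc]
  simp
  left
  ring

/-- first set to be avoided -/
noncomputable def RemA (W : Finset (Fin n)) (S : Finset (Sym2 (Fin n))) : Finset (Fin n) :=
  (copies H0 (Da W) S).image (fun φ => φ 0)

/-- second set to be avoided -/
noncomputable def RemB (W : Finset (Fin n)) (b : ℝ) (S : Finset (Sym2 (Fin n))) : Finset (Fin n) :=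
  W.filter (fun x => b < ((copies H0 (Db W x) S).card : ℝ))

theorem RemA_bound (W : Finset (Fin n)) {p : ℝ} (h0 : 0 ≤ p) (h1 : p ≤ 1) (a : ℝ) (ha : 0 < a) :
    Pr (allE n) p (fun S => a ≤ ((RemA W S).card : ℝ)) ≤ (W.card : ℝ) ^ 3 * n ^ 7 * p ^ 21 / a := by
  have h2 : Pr (allE n) p (fun S => a ≤ ((RemA W S).card : ℝ)) ≤
      Pr (allE n) p (fun S => a ≤ ((copies H0 (Da W) S).card : ℝ)) := by
    apply Pr_mono h0 h1
    intro S _ h
    refine h.trans ?_
    exact_mod_cast (card_image_le : (RemA W S).card ≤ _)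
  refine h2.trans (Pr_markov h0 h1 _ (fun S _ => Nat.cast_nonneg _) _ _ ha ?_)
  have h3 := copies_expect H0 (Da W) h0 (E := allE n)
  rw [H0_edges, prod_Da] at h3
  exact h3

theorem RemB_bound (W : Finset (Fin n)) {p : ℝ} (h0 : 0 ≤ p) (h1 : p ≤ 1) (b a : ℝ) (hb : 0 < b)
    (ha : 0 < a) :
    Pr (allE n) p (fun S => a ≤ ((RemB W b S).card : ℝ)) ≤
      (W.card : ℝ) ^ 2 * n ^ 8 * p ^ 21 / (a * b) := by
  have h2 : Pr (allE n) p (fun S => a ≤ ((RemB W b S).card : ℝ)) ≤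
      Pr (allE n) p (fun S => a * b ≤ ∑ x ∈ W, ((copies H0 (Db W x) S).card : ℝ)) := by
    apply Pr_mono h0 h1
    intro S _ h
    calc a * b ≤ (RemB W b S).card * b := mul_le_mul_of_nonneg_right h hb.le
      _ = ∑ x ∈ RemB W b S, b := by rw [sum_const, nsmul_eq_mul]
      _ ≤ ∑ x ∈ RemB W b S, ((copies H0 (Db W x) S).card : ℝ) := by
          apply sum_le_sum
          intro x hx
          simp only [RemB, mem_filter] at hx
          exact hx.2.le
      _ ≤ ∑ x ∈ W, ((copies H0 (Db W x) S).card : ℝ) := by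
          apply sum_le_sum_of_subset_of_nonneg (filter_subset _ _)
          intro _ _ _
          exact Nat.cast_nonneg _
  refine h2.trans (Pr_markov h0 h1 _ (fun S _ => sum_nonneg (fun _ _ => Nat.cast_nonneg _)) _ _
    (mul_pos ha hb) ?_)
  rw [Ex_sum]
  have h3 : ∀ x ∈ W, Ex (allE n) p (fun S => ((copies H0 (Db W x) S).card : ℝ)) ≤
      (W.card : ℝ) * n ^ 8 * p ^ 21 := by
    intro x _
    have h3 := copies_expect H0 (Db W x) h0 (E := allE n)
    rw [H0_edges, prod_Db] at h3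
    exact h3
  refine (sum_le_card_nsmul _ _ _ h3).trans (le_of_eq ?_)
  rw [nsmul_eq_mul]
  ring

end Pool.Agent.W166.Gnp
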