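import Pool.Agent.W166.Gnp.Tail

set_option autoImplicit false
set_option linter.unusedSectionVars false

/-! Probabilities of row events. -/

namespace Pool.Agent.W166.Gnp

open Finset

section
variable {α : Type} [DecidableEq α]

theorem Pr_forall {ι : Type} [DecidableEq ι] {E : Finset α} (p : ℝ) (T : Finset ι)
    (R : ι → Finset α) (hR : ∀ v ∈ T, R v ⊆ E) (hd : (T : Set ι).PairwiseDisjoint R)
    (D : ι → Finset α → Prop) :
    Pr E p (fun S => ∀ v ∈ T, D v (S ∩ R v)) = ∏ v ∈ T, Pr (R v) p (D v) := by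
  classical
  have h := Ex_prod p T R hR hd (fun v S => if D v S then (1 : ℝ) else 0)
  have h2 : Pr E p (fun S => ∀ v ∈ T, D v (S ∩ R v)) =
      Ex E p (fun S => ∏ v ∈ T, (if D v (S ∩ R v) then (1 : ℝ) else 0)) := by
    unfold Pr
    apply Ex_congr
    intro S _
    by_cases hA : ∀ v ∈ T, D v (S ∩ R v)
    · rw [if_pos hA, prod_eq_one]
      intro v hv
      rw [if_pos (hA v hv)]
    · rw [if_neg hA]
      push Not at hA
      obtain ⟨v, hv, hv2⟩ := hA
      rw [prod_eq_zero hv]
      rw [if_neg hv2]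
  rw [h2]
  refine h.trans ?_
  apply prod_congr rfl
  intro v _
  unfold Pr
  apply Ex_congr
  intro S _
  congr

theorem card_up {E R : Finset α} (hR : R ⊆ E) {p : ℝ} (h0 : 0 ≤ p) (h1 : p ≤ 1) (K : ℕ) :
    Pr E p (fun S => K ≤ (S ∩ R).card) ≤ (R.card.choose K : ℝ) * p ^ K := by
  calc Pr E p (fun S => K ≤ (S ∩ R).card)
      ≤ Pr E p (fun S => ∃ Q ∈ powersetCard K R, Q ⊆ S) := by
        apply Pr_mono h0 h1
        intro S _ hS
        obtain ⟨Q, hQ1, hQ2⟩ := exists_subset_card_eq hS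
        exact ⟨Q, mem_powersetCard.mpr ⟨hQ1.trans inter_subset_right, hQ2⟩,
          hQ1.trans inter_subset_left⟩
    _ ≤ ∑ Q ∈ powersetCard K R, Pr E p (fun S => Q ⊆ S) := Pr_exists_le h0 h1 _ _
    _ = ∑ Q ∈ powersetCard K R, p ^ K := by
        apply sum_congr rfl
        intro Q hQ
        rw [mem_powersetCard] at hQ
        rw [Pr_superset (hQ.1.trans hR), hQ.2]
    _ = (R.card.choose K : ℝ) * p ^ K := by
        rw [sum_const, card_powersetCard, nsmul_eq_mul]

theorem card_low (R : Finset α) {p : ℝ} (h0 : 0 ≤ p) (h1 : p ≤ 1) (K : ℕ) :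
    (R.card.choose K : ℝ) * (p ^ K * (1 - p) ^ (R.card - K)) ≤
      Pr R p (fun S => K ≤ S.card) := by
  classical
  unfold Pr Ex
  calc (R.card.choose K : ℝ) * (p ^ K * (1 - p) ^ (R.card - K))
      = ∑ S ∈ powersetCard K R, (p ^ K * (1 - p) ^ (R.card - K)) := by
        rw [sum_const, card_powersetCard, nsmul_eq_mul]
    _ = ∑ S ∈ powersetCard K R, p ^ S.card * (1 - p) ^ (R.card - S.card) *
          (if K ≤ S.card then 1 else 0) := by
        apply sum_congr rfl
        intro S hS
        rw [mem_powersetCard] at hS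
        rw [hS.2, if_pos le_rfl, mul_one]
    _ ≤ ∑ S ∈ R.powerset, p ^ S.card * (1 - p) ^ (R.card - S.card) *
          (if K ≤ S.card then 1 else 0) := by
        apply sum_le_sum_of_subset_of_nonneg
        · intro S hS
          rw [mem_powersetCard] at hS
          exact mem_powerset.mpr hS.1
        · intro S _ _
          apply mul_nonneg (wt_nonneg R S h0 h1)
          split_ifs <;> norm_num
    _ = _ := by
        apply sum_congr rfl
        intro S _
        congr

end

section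
variable {V : Type} [DecidableEq V]

/-- the pairs `{v, a}` with `a ∈ A` -/
def row (v : V) (A : Finset V) : Finset (Sym2 V) := A.image (fun a => s(v, a))

theorem mem_row {v : V} {A : Finset V} {e : Sym2 V} : e ∈ row v A ↔ ∃ a ∈ A, s(v, a) = e := by
  simp [row]

theorem row_inj (v : V) : Function.Injective (fun a => s(v, a)) := by
  intro a b h
  exact Sym2.congr_right.mp h

theorem card_row (v : V) (A : Finset V) : (row v A).card = A.card :=
  card_image_of_injective _ (row_inj v)

theorem row_mono (v : V) {A B : Finset V} (h : A ⊆ B) : row v A ⊆ row v B := image_subset_image h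

theorem card_inter_row (S : Finset (Sym2 V)) (v : V) (A : Finset V) :
    (S ∩ row v A).card = (A.filter (fun a => s(v, a) ∈ S)).card := by
  rw [← card_image_of_injective _ (row_inj v)]
  congr 1
  ext e
  simp only [mem_inter, mem_row, mem_image, mem_filter]
  constructor
  · rintro ⟨h1, a, ha, rfl⟩
    exact ⟨a, ⟨ha, h1⟩, rfl⟩
  · rintro ⟨a, ⟨ha, h1⟩, rfl⟩
    exact ⟨h1, a, ha, rfl⟩

theorem row_disjoint {v w : V} {A B : Finset V} (hvw : v ≠ w) (hv : v ∉ B) :
    Disjoint (row v A) (row w B) := by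
  rw [disjoint_left]
  intro e h1 h2
  rw [mem_row] at h1 h2
  obtain ⟨a, ha, rfl⟩ := h1
  obtain ⟨b, hb, h⟩ := h2
  rw [Sym2.eq_iff] at h
  rcases h with ⟨h3, _⟩ | ⟨_, h3⟩
  · exact hvw h3.symm
  · exact hv (h3 ▸ hb)

theorem row_disjoint' (v : V) {A B : Finset V} (h : Disjoint A B) :
    Disjoint (row v A) (row v B) := (disjoint_image (row_inj v)).mpr h

theorem inter_row_row (S : Finset (Sym2 V)) (v : V) {A B : Finset V} (h : A ⊆ B) :
    (S ∩ row v B) ∩ row v A = S ∩ row v A := by
  rw [inter_assoc, inter_eq_right.mpr (row_mono v h)]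

/-- probability that the row of `v` meets each set `Q j` in at least `K` points -/
theorem row_prob_le {E : Finset (Sym2 V)} {p : ℝ} (h0 : 0 ≤ p) (h1 : p ≤ 1) (K : ℕ) (v : V)
    (T : Finset ℕ) (Q : ℕ → Finset V) (hd : (T : Set ℕ).PairwiseDisjoint Q)
    (hE : ∀ j ∈ T, row v (Q j) ⊆ E) :
    Pr E p (fun S => ∀ j ∈ T, K ≤ (S ∩ row v (Q j)).card) ≤
      ∏ j ∈ T, (((Q j).card.choose K : ℝ) * p ^ K) := by
  have h := Pr_forall (E := E) p T (fun j => row v (Q j)) hE
    (fun i hi j hj hij => row_disjoint' v (hd hi hj hij)) (fun _ S => K ≤ S.card)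
  rw [h]
  apply prod_le_prod
  · intro j _; exact Pr_nonneg h0 h1 _
  · intro j _
    have h2 := card_up (E := row v (Q j)) (R := row v (Q j)) subset_rfl h0 h1 K
    rw [card_row] at h2
    refine le_trans (Pr_mono h0 h1 ?_) h2
    intro S hS hK
    rwa [inter_eq_left.mpr hS]

theorem row_prob_ge {E : Finset (Sym2 V)} {p : ℝ} (h0 : 0 ≤ p) (h1 : p ≤ 1) (K : ℕ) (v : V)
    (T : Finset ℕ) (Q : ℕ → Finset V) (hd : (T : Set ℕ).PairwiseDisjoint Q)
    (hE : ∀ j ∈ T, row v (Q j) ⊆ E) :
    ∏ j ∈ T, (((Q j).card.choose K : ℝ) * (p ^ K * (1 - p) ^ ((Q j).card - K))) ≤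
      Pr E p (fun S => ∀ j ∈ T, K ≤ (S ∩ row v (Q j)).card) := by
  have h := Pr_forall (E := E) p T (fun j => row v (Q j)) hE
    (fun i hi j hj hij => row_disjoint' v (hd hi hj hij)) (fun _ S => K ≤ S.card)
  rw [h]
  apply prod_le_prod
  · intro j _
    have : 0 ≤ 1 - p := by linarith
    positivity
  · intro j _
    have h2 := card_low (row v (Q j)) h0 h1 K
    rw [card_row] at h2
    exact h2

end

end Pool.Agent.W166.Gnp
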